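import Pool.Agent.MSV.Defs

namespace Pool.Agent.MSV

open MeasureTheory Set Pool.Agent.MP_6cbfb8_an Pool.Agent.MST
open scoped ENNReal NNReal Real

theorem hbv_scale (H : ℝ → ℝ≥0∞) (hH : Measurable H) (a : ℝ) (ha : 0 < a) :
    ∫⁻ x, H x = ENNReal.ofReal a * ∫⁻ x, H (a * x) := by
  have h1 : ∫⁻ x, H x = ∫⁻ x, H x ∂(ENNReal.ofReal |a| • Measure.map (a * ·) volume) := by
    rw [Real.smul_map_volume_mul_left ha.ne']
  rw [h1, lintegral_smul_measure, lintegral_map hH (measurable_const_mul a), abs_of_pos ha,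
    smul_eq_mul]

/-- the weight -/
noncomputable def hbv_W (ρ : ℝ) : ℝ≥0∞ := ENNReal.ofReal ((ρ * √(1 - ρ ^ 2))⁻¹)

theorem hbv_W_meas : Measurable hbv_W := by
  unfold hbv_W
  fun_prop

theorem hbv_W_scale {t σ : ℝ} (ht : 0 < t) (ht1 : t ≤ 1) (hσ : 0 < σ) (hσ1 : σ < 1) :
    ENNReal.ofReal t * hbv_W (t * σ) ≤ hbv_W σ := by
  unfold hbv_W
  rw [← ENNReal.ofReal_mul ht.le]
  apply ENNReal.ofReal_le_ofReal
  have h1 : 0 < 1 - σ ^ 2 := by nlinarith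
  have h2 : 0 < √(1 - σ ^ 2) := Real.sqrt_pos.2 h1
  have h3 : (t * σ) ^ 2 ≤ σ ^ 2 := by
    rw [mul_pow]
    have : t ^ 2 ≤ 1 := pow_le_one₀ ht.le ht1
    nlinarith [sq_nonneg σ]
  have h4 : √(1 - σ ^ 2) ≤ √(1 - (t * σ) ^ 2) := Real.sqrt_le_sqrt (by linarith)
  have h5 : 0 < √(1 - (t * σ) ^ 2) := h2.trans_le h4
  have h6 : t * (t * σ * √(1 - (t * σ) ^ 2))⁻¹ = (σ * √(1 - (t * σ) ^ 2))⁻¹ := by
    field_simp
  rw [h6]
  apply inv_anti₀ (by positivity)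
  exact mul_le_mul_of_nonneg_left h4 hσ.le

/-- the variation along a geometric sequence -/
theorem hbv_var (g : ℝ → ℂ) (V : ℝ≥0∞) (hV : eVariationOn g (Ioo 0 1) ≤ V) {q σ : ℝ} (hq : 0 < q)
    (hq1 : q < 1) (hσ : 0 < σ) (hσ1 : σ < 1) :
    ∑' j : ℕ, ‖g (q ^ j * σ) - g (q ^ (j + 1) * σ)‖ₑ ≤ V := by
  rw [ENNReal.tsum_eq_iSup_nat]
  refine iSup_le fun n => ?_
  refine le_trans ?_ hV
  have hmono : Monotone fun i : ℕ => q ^ (n - i) * σ := by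
    intro i j hij
    apply mul_le_mul_of_nonneg_right _ hσ.le
    exact pow_le_pow_of_le_one hq.le hq1.le (by omega)
  have hmem : ∀ i : ℕ, q ^ (n - i) * σ ∈ Ioo (0:ℝ) 1 := by
    intro i
    have h1 : q ^ (n - i) ≤ 1 := pow_le_one₀ hq.le hq1.le
    have h2 : 0 < q ^ (n - i) := pow_pos hq _
    constructor
    · positivity
    · nlinarith
  have h := eVariationOn.sum_le (f := g) (n := n) hmono hmem
  refine le_trans (le_of_eq ?_) h
  rw [← Finset.sum_range_reflect]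
  apply Finset.sum_congr rfl
  intro j hj
  rw [Finset.mem_range] at hj
  rw [edist_eq_enorm_sub]
  have e1 : n - 1 - j = n - (j + 1) := by omega
  have e2 : n - 1 - j + 1 = n - j := by omega
  rw [e2, e1]

theorem hbv_cover {q : ℝ} (hq : 0 < q) (hq1 : q < 1) :
    Ioo (0:ℝ) 1 ⊆ ⋃ j : ℕ, Ico (q ^ (j + 1)) (q ^ j) := by
  intro ρ hρ
  obtain ⟨n, h1, h2⟩ := exists_nat_pow_near_of_lt_one hρ.1 hρ.2.le hq hq1
  rw [mem_iUnion]
  rcases h2.lt_or_eq with h3 | h3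
  · exact ⟨n, h1.le, h3⟩
  · rcases n with _ | n
    · rw [pow_zero] at h3
      exact absurd h3 hρ.2.ne
    · refine ⟨n, h3.ge, ?_⟩
      rw [h3, pow_succ]
      have : 0 < q ^ n := pow_pos hq n
      nlinarith

/-- one ray -/
theorem hbv_ray (g : ℝ → ℂ) (hg : Measurable g) (V : ℝ≥0∞)
    (hV : eVariationOn g (Ioo 0 1) ≤ V) {q : ℝ} (hq : 0 < q) (hq1 : q < 1) :
    ∫⁻ ρ in Ioo (0:ℝ) 1, ‖g ρ - g (q * ρ)‖ₑ * hbv_W ρ ≤ V * ∫⁻ σ in Ico q 1, hbv_W σ := by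
  have hF : Measurable fun ρ : ℝ => ‖g ρ - g (q * ρ)‖ₑ * hbv_W ρ :=
    ((hg.sub (hg.comp (measurable_const_mul q))).enorm).mul hbv_W_meas
  have hstep : ∀ j : ℕ, ∫⁻ ρ in Ico (q ^ (j + 1)) (q ^ j), ‖g ρ - g (q * ρ)‖ₑ * hbv_W ρ ≤
      ∫⁻ σ in Ico q 1, ‖g (q ^ j * σ) - g (q ^ (j + 1) * σ)‖ₑ * hbv_W σ := by
    intro j
    have hqj : 0 < q ^ j := pow_pos hq j
    have hqj1 : q ^ j ≤ 1 := pow_le_one₀ hq.le hq1.le
    rw [← lintegral_indicator measurableSet_Ico,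
      hbv_scale _ (hF.indicator measurableSet_Ico) (q ^ j) hqj,
      ← lintegral_indicator measurableSet_Ico, ← lintegral_const_mul' _ _ ENNReal.ofReal_ne_top]
    apply lintegral_mono
    intro σ
    simp only
    by_cases hσ : σ ∈ Ico q 1
    · have hσ0 : 0 < σ := hq.trans_le hσ.1
      have h1 : q ^ j * σ ∈ Ico (q ^ (j + 1)) (q ^ j) := by
        constructor
        · rw [pow_succ]
          exact mul_le_mul_of_nonneg_left hσ.1 hqj.le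
        · have := hσ.2
          nlinarith
      rw [indicator_of_mem h1, indicator_of_mem hσ]
      have e1 : q * (q ^ j * σ) = q ^ (j + 1) * σ := by rw [pow_succ]; ring
      rw [e1]
      calc ENNReal.ofReal (q ^ j) * (‖g (q ^ j * σ) - g (q ^ (j + 1) * σ)‖ₑ * hbv_W (q ^ j * σ))
          = ‖g (q ^ j * σ) - g (q ^ (j + 1) * σ)‖ₑ *
            (ENNReal.ofReal (q ^ j) * hbv_W (q ^ j * σ)) := by ring
        _ ≤ _ := mul_le_mul_right (hbv_W_scale hqj hqj1 hσ0 hσ.2) _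
    · have h1 : q ^ j * σ ∉ Ico (q ^ (j + 1)) (q ^ j) := by
        intro h2
        apply hσ
        constructor
        · have h3 := h2.1
          rw [pow_succ] at h3
          exact le_of_mul_le_mul_left h3 hqj
        · have h3 := h2.2
          by_contra h4
          push Not at h4
          nlinarith
      rw [indicator_of_notMem h1, mul_zero]
      exact zero_le
  have hm : ∀ j : ℕ, Measurable fun σ : ℝ =>
      ‖g (q ^ j * σ) - g (q ^ (j + 1) * σ)‖ₑ * hbv_W σ := fun j =>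
    (((hg.comp (measurable_const_mul _)).sub (hg.comp (measurable_const_mul _))).enorm).mul
      hbv_W_meas
  calc ∫⁻ ρ in Ioo (0:ℝ) 1, ‖g ρ - g (q * ρ)‖ₑ * hbv_W ρ
      ≤ ∫⁻ ρ in (⋃ j : ℕ, Ico (q ^ (j + 1)) (q ^ j)), ‖g ρ - g (q * ρ)‖ₑ * hbv_W ρ :=
        lintegral_mono_set (hbv_cover hq hq1)
    _ ≤ ∑' j : ℕ, ∫⁻ ρ in Ico (q ^ (j + 1)) (q ^ j), ‖g ρ - g (q * ρ)‖ₑ * hbv_W ρ :=
        lintegral_iUnion_le _ _
    _ ≤ ∑' j : ℕ, ∫⁻ σ in Ico q 1, ‖g (q ^ j * σ) - g (q ^ (j + 1) * σ)‖ₑ * hbv_W σ :=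
        ENNReal.tsum_le_tsum hstep
    _ = ∫⁻ σ in Ico q 1, ∑' j : ℕ, ‖g (q ^ j * σ) - g (q ^ (j + 1) * σ)‖ₑ * hbv_W σ :=
        (lintegral_tsum fun j => (hm j).aemeasurable).symm
    _ ≤ ∫⁻ σ in Ico q 1, V * hbv_W σ := by
        refine setLIntegral_mono' measurableSet_Ico fun σ hσ => ?_
        rw [ENNReal.tsum_mul_right]
        exact mul_le_mul_left (hbv_var g V hV hq hq1 (hq.trans_le hσ.1) hσ.2) _
    _ = V * ∫⁻ σ in Ico q 1, hbv_W σ := lintegral_const_mul _ hbv_W_meas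

/-- the integral of the weight -/
theorem hbv_int {h : ℝ} (h0 : 0 < h) (h1 : h < 1) :
    ∫⁻ σ in Ico (Real.exp (-h)) 1, hbv_W σ ≤ ENNReal.ofReal (2 * Real.exp 1 * √h) := by
  have hq : 0 < Real.exp (-h) := Real.exp_pos _
  have hq1 : Real.exp (-h) < 1 := Real.exp_lt_one_iff.2 (by linarith)
  set q := Real.exp (-h) with hqdef
  have hmain : ∫⁻ σ in Ico q 1, ENNReal.ofReal ((1 - σ) ^ (-(1/2) : ℝ)) =
      ENNReal.ofReal (2 * √(1 - q)) := by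
    have e1 : ∫⁻ σ in Ico q 1, ENNReal.ofReal ((1 - σ) ^ (-(1/2) : ℝ)) =
        ∫⁻ s in Ioc 0 (1 - q), ENNReal.ofReal (s ^ (-(1/2) : ℝ)) := by
      rw [← lintegral_indicator measurableSet_Ico, ← lintegral_indicator measurableSet_Ioc,
        ← lintegral_sub_left_eq_self (μ := volume)
          ((Ioc 0 (1 - q)).indicator fun s => ENNReal.ofReal (s ^ (-(1/2) : ℝ))) 1]
      congr 1
      ext σ
      by_cases hσ : σ ∈ Ico q 1
      · have h2 : 1 - σ ∈ Ioc 0 (1 - q) := ⟨by linarith [hσ.2], by linarith [hσ.1]⟩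
        rw [indicator_of_mem hσ, indicator_of_mem h2]
      · have h2 : 1 - σ ∉ Ioc 0 (1 - q) := fun h3 => hσ ⟨by linarith [h3.2], by linarith [h3.1]⟩
        rw [indicator_of_notMem hσ, indicator_of_notMem h2]
    have hi : IntervalIntegrable (fun s : ℝ => s ^ (-(1/2) : ℝ)) volume 0 (1 - q) :=
      intervalIntegral.intervalIntegrable_rpow' (by norm_num)
    rw [intervalIntegrable_iff_integrableOn_Ioc_of_le (by linarith)] at hi
    rw [e1, ← ofReal_integral_eq_lintegral_ofReal hi]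
    · congr 1
      rw [← intervalIntegral.integral_of_le (by linarith), integral_rpow (Or.inl (by norm_num)),
        Real.sqrt_eq_rpow]
      have e2 : (-(1/2) : ℝ) + 1 = 1 / 2 := by norm_num
      rw [e2, Real.zero_rpow (by norm_num)]
      ring
    · refine (ae_restrict_iff' measurableSet_Ioc).2 (Filter.Eventually.of_forall fun s hs => ?_)
      exact Real.rpow_nonneg hs.1.le _
  have hpt : ∀ σ ∈ Ico q 1, hbv_W σ ≤
      ENNReal.ofReal (Real.exp 1) * ENNReal.ofReal ((1 - σ) ^ (-(1/2) : ℝ)) := by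
    intro σ hσ
    unfold hbv_W
    rw [← ENNReal.ofReal_mul (Real.exp_pos 1).le]
    apply ENNReal.ofReal_le_ofReal
    have hσ0 : 0 < σ := hq.trans_le hσ.1
    have hσ1 : 0 < 1 - σ := by linarith [hσ.2]
    have h2 : (1 - σ) ^ (-(1/2) : ℝ) = (√(1 - σ))⁻¹ := by
      rw [Real.rpow_neg hσ1.le, Real.sqrt_eq_rpow]
    have h3 : √(1 - σ) ≤ √(1 - σ ^ 2) := Real.sqrt_le_sqrt (by nlinarith [hσ.2])
    have h4 : 0 < √(1 - σ) := Real.sqrt_pos.2 hσ1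
    have h5 : Real.exp (-1) ≤ σ := (Real.exp_le_exp.2 (by linarith)).trans hσ.1
    have h6 : σ⁻¹ ≤ Real.exp 1 := by
      rw [Real.exp_neg] at h5
      exact inv_le_of_inv_le₀ (Real.exp_pos 1) h5
    rw [h2, mul_inv]
    exact mul_le_mul h6 (inv_anti₀ h4 h3) (inv_nonneg.2 (Real.sqrt_nonneg _)) (Real.exp_pos 1).le
  calc ∫⁻ σ in Ico q 1, hbv_W σ
      ≤ ∫⁻ σ in Ico q 1, ENNReal.ofReal (Real.exp 1) * ENNReal.ofReal ((1 - σ) ^ (-(1/2) : ℝ)) :=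
        setLIntegral_mono' measurableSet_Ico hpt
    _ = ENNReal.ofReal (Real.exp 1) * ENNReal.ofReal (2 * √(1 - q)) := by
        rw [lintegral_const_mul' _ _ ENNReal.ofReal_ne_top, hmain]
    _ ≤ ENNReal.ofReal (2 * Real.exp 1 * √h) := by
        rw [← ENNReal.ofReal_mul (Real.exp_pos 1).le]
        apply ENNReal.ofReal_le_ofReal
        have h2 : 1 - q ≤ h := by
          have := Real.add_one_le_exp (-h)
          linarith
        have h3 : √(1 - q) ≤ √h := Real.sqrt_le_sqrt h2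
        have h4 := Real.exp_pos 1
        nlinarith

theorem hbv_fl (h : ℝ) (w : E 2) : fl 0 h w = Real.exp (-h) • w := by
  unfold fl
  congr 1
  ext i
  fin_cases i <;> simp

theorem hbv_tw (h : ℝ) : tw 0 h = 1 := by
  unfold tw
  simp

theorem hbv_sq {z : ℂ} (hz : ‖z‖ ≤ 2) : ‖z‖ₑ ^ (2:ℝ) ≤ 2 * ‖z‖ₑ := by
  have h1 : ‖z‖ₑ ≤ 2 := by
    rw [← ofReal_norm, ← ENNReal.ofReal_ofNat]
    exact ENNReal.ofReal_le_ofReal hz
  have h2 : ‖z‖ₑ ^ (2:ℝ) = ‖z‖ₑ * ‖z‖ₑ := by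
    rw [show (2:ℝ) = ((2:ℕ) : ℝ) by norm_num, ENNReal.rpow_natCast, sq]
  rw [h2]
  exact mul_le_mul_left h1 _

/-
ROW BV (1.2 h). Functions of bounded variation along the rays belong to the class RV (b = c = 0).
tw 0 h = 1, fl 0 h w = exp(-h) • w. |G w - G (exp(-h) w)|² ≤ 2 |G w - G (exp(-h) w)|. `lintegral_polar 1` (Sphere.lean): the integral is at most
 2 ∫⁻ ω : S 2, I(ω), I = ∫⁻ ρ in Ioo 0 1, |g ρ - g (e^{-h} ρ)| / (ρ √(1-ρ²)), g ρ = G (ρ•ω) (weight (ρ²√(1-ρ²))⁻¹ times ρ dρ).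
Cover (0,1) by the intervals [e^{-(j+1)h}, e^{-jh}), j ∈ ℕ, and substitute ρ = e^{-jh} σ, σ ∈ J = [e^{-h}, 1): dρ/ρ = dσ/σ, √(1-ρ²) ≥ √(1-σ²):
 I ≤ ∫⁻ σ in J, (Σ_j |g(e^{-jh}σ) - g(e^{-(j+1)h}σ)|) / (σ √(1-σ²)) ≤ V ∫⁻ σ in J, 1/(σ √(1-σ²))
(the points e^{-jh}σ decrease in (0,1): eVariationOn.sum_le..., for every finite partial sum). As σ ≥ e^{-1} and 1-σ² ≥ 1-σ the last integral is
 ≤ e ∫_{e^{-h}}^1 (1-σ)^(-1/2) dσ = 2e √(1-e^{-h}) ≤ 2e √h ≤ 2e h^(1/2-ε) (0 < h < 1). So A ε = 2 · sm 2 univ · 2e · V (finite; toNNReal).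
-/
theorem RV_of_variation (V : ℝ≥0) : ∃ A : ℝ → ℝ≥0, ∀ G : E 2 → ℂ, Measurable G →
    (∀ w, ‖G w‖ ≤ 1) → (∀ ω : E 2, ‖ω‖ = 1 →
      eVariationOn (fun ρ : ℝ => G (ρ • ω)) (Ioo 0 1) ≤ V) → RV A 0 0 G := by
  have hfin : 2 * (V * ENNReal.ofReal (2 * Real.exp 1)) * sm 2 univ ≠ ∞ := by
    refine ENNReal.mul_ne_top (ENNReal.mul_ne_top (by norm_num)
      (ENNReal.mul_ne_top ENNReal.coe_ne_top ENNReal.ofReal_ne_top)) (measure_ne_top _ _)
  refine ⟨fun _ => (2 * (V * ENNReal.ofReal (2 * Real.exp 1)) * sm 2 univ).toNNReal, ?_⟩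
  intro G hG hb hV ε h hε hε2 h0 h1
  rw [ENNReal.coe_toNNReal hfin]
  have hq : 0 < Real.exp (-h) := Real.exp_pos _
  have hq1 : Real.exp (-h) < 1 := Real.exp_lt_one_iff.2 (by linarith)
  simp only [hbv_fl, hbv_tw, one_mul]
  have hφ : Measurable fun w : E 2 => ‖G w - G (Real.exp (-h) • w)‖ₑ ^ (2:ℝ) *
      ENNReal.ofReal ((‖w‖ ^ 2 * √(1 - ‖w‖ ^ 2))⁻¹) := by
    have h2 : Measurable fun w : E 2 => G (Real.exp (-h) • w) := hG.comp (measurable_const_smul _)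
    have h3 : Measurable fun w : E 2 => ‖w‖ := measurable_norm
    fun_prop
  rw [← lintegral_indicator Metric.isOpen_ball.measurableSet,
    lintegral_polar 1 _ (hφ.indicator Metric.isOpen_ball.measurableSet)]
  have hray : ∀ ω : S 2, (∫⁻ ρ in Ioi (0:ℝ),
      (Metric.ball (0 : E 2) 1).indicator (fun w : E 2 => ‖G w - G (Real.exp (-h) • w)‖ₑ ^ (2:ℝ) *
        ENNReal.ofReal ((‖w‖ ^ 2 * √(1 - ‖w‖ ^ 2))⁻¹)) (ρ • (ω : E 2)) * ENNReal.ofReal (ρ ^ 1)) ≤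
      2 * (V * ENNReal.ofReal (2 * Real.exp 1 * √h)) := by
    intro ω
    have hω : ‖(ω : E 2)‖ = 1 := mem_sphere_zero_iff_norm.1 ω.2
    have hgm : Measurable fun ρ : ℝ => G (ρ • (ω : E 2)) := by
      have h2 : Measurable fun ρ : ℝ => ρ • (ω : E 2) := by fun_prop
      exact hG.comp h2
    have hpt : ∀ ρ ∈ Ioi (0:ℝ),
        (Metric.ball (0 : E 2) 1).indicator (fun w : E 2 => ‖G w - G (Real.exp (-h) • w)‖ₑ ^ (2:ℝ) *
          ENNReal.ofReal ((‖w‖ ^ 2 * √(1 - ‖w‖ ^ 2))⁻¹)) (ρ • (ω : E 2)) * ENNReal.ofReal (ρ ^ 1) ≤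
        (Ioo (0:ℝ) 1).indicator (fun ρ => 2 * (‖G (ρ • (ω : E 2)) -
          G ((Real.exp (-h) * ρ) • (ω : E 2))‖ₑ * hbv_W ρ)) ρ := by
      intro ρ hρ
      have hρ0 : 0 < ρ := hρ
      have hn : ‖ρ • (ω : E 2)‖ = ρ := by
        rw [norm_smul, hω, mul_one, Real.norm_eq_abs, abs_of_pos hρ0]
      by_cases hρ1 : ρ < 1
      · have hmem : ρ • (ω : E 2) ∈ Metric.ball (0 : E 2) 1 := by
          rw [mem_ball_zero_iff, hn]
          exact hρ1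
        rw [indicator_of_mem hmem, indicator_of_mem (show ρ ∈ Ioo (0:ℝ) 1 from ⟨hρ0, hρ1⟩), hn,
          smul_smul]
        have hz : ‖G (ρ • (ω : E 2)) - G ((Real.exp (-h) * ρ) • (ω : E 2))‖ ≤ 2 := by
          refine (norm_sub_le _ _).trans ?_
          linarith [hb (ρ • (ω : E 2)), hb ((Real.exp (-h) * ρ) • (ω : E 2))]
        have hw : ENNReal.ofReal ((ρ ^ 2 * √(1 - ρ ^ 2))⁻¹) * ENNReal.ofReal (ρ ^ 1) = hbv_W ρ := by
          unfold hbv_W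
          have hs : 0 < √(1 - ρ ^ 2) := Real.sqrt_pos.2 (by nlinarith)
          rw [← ENNReal.ofReal_mul (by positivity)]
          congr 1
          field_simp
        rw [mul_assoc, hw, ← mul_assoc]
        exact mul_le_mul_left (hbv_sq hz) _
      · have hmem : ρ • (ω : E 2) ∉ Metric.ball (0 : E 2) 1 := by
          rw [mem_ball_zero_iff, hn]
          exact hρ1
        rw [indicator_of_notMem hmem, zero_mul]
        exact zero_le
    have hV' := hV (ω : E 2) hω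
    calc _ ≤ ∫⁻ ρ in Ioi (0:ℝ), (Ioo (0:ℝ) 1).indicator (fun ρ => 2 * (‖G (ρ • (ω : E 2)) -
          G ((Real.exp (-h) * ρ) • (ω : E 2))‖ₑ * hbv_W ρ)) ρ :=
          setLIntegral_mono' measurableSet_Ioi hpt
      _ ≤ ∫⁻ ρ : ℝ, (Ioo (0:ℝ) 1).indicator (fun ρ => 2 * (‖G (ρ • (ω : E 2)) -
          G ((Real.exp (-h) * ρ) • (ω : E 2))‖ₑ * hbv_W ρ)) ρ := setLIntegral_le_lintegral _ _
      _ = ∫⁻ ρ in Ioo (0:ℝ) 1, 2 * (‖G (ρ • (ω : E 2)) -
          G ((Real.exp (-h) * ρ) • (ω : E 2))‖ₑ * hbv_W ρ) := lintegral_indicator measurableSet_Ioo _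
      _ = 2 * ∫⁻ ρ in Ioo (0:ℝ) 1, ‖G (ρ • (ω : E 2)) -
          G ((Real.exp (-h) * ρ) • (ω : E 2))‖ₑ * hbv_W ρ :=
          lintegral_const_mul' _ _ (by norm_num)
      _ ≤ 2 * (V * ∫⁻ σ in Ico (Real.exp (-h)) 1, hbv_W σ) :=
          mul_le_mul_right (hbv_ray (fun ρ : ℝ => G (ρ • (ω : E 2))) hgm V hV' hq hq1) _
      _ ≤ 2 * (V * ENNReal.ofReal (2 * Real.exp 1 * √h)) :=
          mul_le_mul_right (mul_le_mul_right (hbv_int h0 h1) _) _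
  refine (lintegral_mono hray).trans ?_
  rw [lintegral_const]
  have h2 : ENNReal.ofReal (2 * Real.exp 1 * √h) ≤
      ENNReal.ofReal (2 * Real.exp 1) * ENNReal.ofReal (h ^ (1 / 2 - ε)) := by
    rw [← ENNReal.ofReal_mul (by positivity)]
    apply ENNReal.ofReal_le_ofReal
    apply mul_le_mul_of_nonneg_left _ (by positivity)
    rw [Real.sqrt_eq_rpow]
    exact Real.rpow_le_rpow_of_exponent_ge h0 h1.le (by linarith)
  calc 2 * (V * ENNReal.ofReal (2 * Real.exp 1 * √h)) * sm 2 univ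
      ≤ 2 * (V * (ENNReal.ofReal (2 * Real.exp 1) * ENNReal.ofReal (h ^ (1 / 2 - ε)))) *
        sm 2 univ := mul_le_mul_left (mul_le_mul_right (mul_le_mul_right h2 _) _) _
    _ = _ := by ring

end Pool.Agent.MSV
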