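import Pool.Agent.MST.Defs

/-!
Definitions for the restriction theorem for densities with a quarter of a derivative along the
meridians (or along loxodromes) and no regularity across them.
-/

namespace Pool.Agent.MSV

open MeasureTheory Set Pool.Agent.MP_6cbfb8_an Pool.Agent.MST
open scoped ENNReal NNReal Real

/-- The flow `z ↦ exp (-(1 + i c) τ) z` of the plane, `z = w_1 + i w_2`: contraction by the factor
`exp (-τ)` and rotation by the angle `-c τ`. -/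
noncomputable def fl (c τ : ℝ) (w : E 2) : E 2 :=
  Real.exp (-τ) • (!₂[Real.cos (c * τ) * w 0 + Real.sin (c * τ) * w 1,
    Real.cos (c * τ) * w 1 - Real.sin (c * τ) * w 0] : E 2)

/-- The unimodular factor `exp (i b τ)`. -/
noncomputable def tw (b τ : ℝ) : ℂ := Complex.exp (((b * τ : ℝ) : ℂ) * Complex.I)

/-- The average of `exp (i b τ) G (fl c τ w)` over `0 < τ < h`. -/
noncomputable def av (b c h : ℝ) (G : E 2 → ℂ) (w : E 2) : ℂ :=
  ((h⁻¹ : ℝ) : ℂ) * ∫ τ in (0:ℝ)..h, tw b τ * G (fl c τ w)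

/-- The class of densities: a quarter of a derivative in `L^2` along the orbits of `fl c`. -/
def RV (A : ℝ → ℝ≥0) (b c : ℝ) (G : E 2 → ℂ) : Prop :=
  ∀ ε h : ℝ, 0 < ε → ε < 1 / 2 → 0 < h → h < 1 →
    ∫⁻ w in Metric.ball (0 : E 2) 1, ‖G w - tw b h * G (fl c h w)‖ₑ ^ (2:ℝ) *
      ENNReal.ofReal ((‖w‖ ^ 2 * √(1 - ‖w‖ ^ 2))⁻¹) ≤ A ε * ENNReal.ofReal (h ^ (1 / 2 - ε))

/-- A neighbourhood of the strip. -/
def ann (κ : ℝ) : Set (E 2) := {w | 1 - 20 * κ ^ 2 ≤ ‖w‖ ^ 2 ∧ ‖w‖ < 1}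

/-- The strip itself. -/
def sst (κ : ℝ) : Set (E 2) := {w | 1 - 4 * κ ^ 2 ≤ ‖w‖ ^ 2 ∧ ‖w‖ < 1}

/-- The weighted squared `L^2` norm on a neighbourhood of the strip. -/
noncomputable def NN (κ δ : ℝ) (G : E 2 → ℂ) : ℝ≥0∞ :=
  ∫⁻ w in ann κ, ‖G w‖ₑ ^ (2:ℝ) * ENNReal.ofReal ‖w‖ ^ (-2 + 6 * δ)

end Pool.Agent.MSV
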