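import Pool.Agent.MST.LP
import Pool.Agent.MSV.Defs

namespace Pool.Agent.MSV

open MeasureTheory Set Pool.Agent.MP_6cbfb8_an Pool.Agent.MST
open scoped ENNReal NNReal Real

/-- the exchange map -/
def hlq_s {m : ℕ} (q : E m × E m × E m) : E m × E m × E m :=
  (q.1 - q.2.1 - q.2.2, -q.2.1, -q.2.2)

theorem hlq_s_s {m : ℕ} (q : E m × E m × E m) : hlq_s (hlq_s q) = q := by
  unfold hlq_s
  refine Prod.ext ?_ (Prod.ext ?_ ?_)
  · change q.1 - q.2.1 - q.2.2 - -q.2.1 - -q.2.2 = q.1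
    abel
  · exact neg_neg _
  · exact neg_neg _

theorem hlq_s_meas {m : ℕ} : Measurable (hlq_s (m := m)) := by
  unfold hlq_s
  fun_prop

/-- the exchange map as an equivalence -/
def hlq_e (m : ℕ) : (E m × E m × E m) ≃ᵐ (E m × E m × E m) where
  toFun := hlq_s
  invFun := hlq_s
  left_inv := hlq_s_s
  right_inv := hlq_s_s
  measurable_toFun := hlq_s_meas
  measurable_invFun := hlq_s_meas

theorem hlq_mp (m : ℕ) : MeasurePreserving (hlq_s (m := m)) := by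
  have h1 : MeasurePreserving (fun p : E m × E m => (-p.1, -p.2)) :=
    (Measure.measurePreserving_neg (volume : Measure (E m))).prod
      (Measure.measurePreserving_neg (volume : Measure (E m)))
  have h2 : MeasurePreserving (fun p : (E m × E m) × E m =>
      ((-p.1.1, -p.1.2), p.2 - p.1.1 - p.1.2)) (volume.prod volume) (volume.prod volume) := by
    refine MeasurePreserving.skew_product (g := fun p w => w - p.1 - p.2) h1 ?_ ?_
    · fun_prop
    · refine Filter.Eventually.of_forall fun p => ?_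
      have h3 := (measurePreserving_sub_right (volume : Measure (E m)) (p.1 + p.2)).map_eq
      have h4 : (fun w : E m => w - p.1 - p.2) = fun w => w - (p.1 + p.2) := by
        funext w
        abel
      change Measure.map (fun w : E m => w - p.1 - p.2) volume = volume
      rw [h4]
      exact h3
  have h4 : MeasurePreserving (Prod.swap : (E m × (E m × E m)) → ((E m × E m) × E m))
      (volume.prod volume) (volume.prod volume) := Measure.measurePreserving_swap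
  have h5 : MeasurePreserving (Prod.swap : ((E m × E m) × E m) → (E m × (E m × E m)))
      (volume.prod volume) (volume.prod volume) := Measure.measurePreserving_swap
  exact h5.comp (h2.comp h4)

theorem hlq_pre {m : ℕ} {Λ : Type*} [MeasurableSpace Λ] (μ : Measure Λ)
    [IsFiniteMeasure μ] (A : Λ → E m → ℂ) (hA : Measurable (Function.uncurry A)) (B R : ℝ)
    (hB : ∀ l w, ‖A l w‖ ≤ B) (hR : ∀ l w, R < ‖w‖ → A l w = 0)
    (G : E m → ℂ) (hG : Measurable G) (hb : ∀ w, ‖G w‖ ≤ 1) :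
    ∫⁻ l, (∫⁻ x : E m, ‖∫ w : E m, G w * A l w * ex (inner ℝ w x)‖ₑ ^ (4:ℝ)) ∂μ ≤
      ∫⁻ q : E m × E m × E m, ‖hlp_F G q‖ₑ * ‖∫ l, A l q.1 * A l (q.1 - q.2.1 - q.2.2) *
        (starRingEnd ℂ) (A l (q.1 - q.2.1)) * (starRingEnd ℂ) (A l (q.1 - q.2.2)) ∂μ‖ₑ := by
  have hAl : ∀ l, Measurable (A l) := fun l => hA.comp measurable_prodMk_left
  have hfm : ∀ l, Measurable fun w => G w * A l w := fun l => hG.mul (hAl l)
  have hfB : ∀ l w, ‖G w * A l w‖ ≤ B := fun l w => by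
    rw [norm_mul]
    calc ‖G w‖ * ‖A l w‖ ≤ 1 * ‖A l w‖ := mul_le_mul_of_nonneg_right (hb w) (norm_nonneg _)
      _ ≤ B := by rw [one_mul]; exact hB l w
  have hfR : ∀ l w, R < ‖w‖ → G w * A l w = 0 := fun l w hw => by rw [hR l w hw, mul_zero]
  -- the integrand on the product
  let Φ : Λ → (E m × E m × E m) → ℂ := fun l q => hlp_F (fun w => G w * A l w) q
  have hΦm : Measurable (Function.uncurry Φ) := by
    have hf2 : Measurable fun p : Λ × E m => G p.2 * A p.1 p.2 :=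
      (hG.comp measurable_snd).mul hA
    have h1 : Measurable fun p : Λ × (E m × E m × E m) => G p.2.1 * A p.1 p.2.1 :=
      hf2.comp (measurable_fst.prodMk (by fun_prop))
    have h2 : Measurable fun p : Λ × (E m × E m × E m) =>
        G (p.2.1 - p.2.2.1 - p.2.2.2) * A p.1 (p.2.1 - p.2.2.1 - p.2.2.2) :=
      hf2.comp (measurable_fst.prodMk (by fun_prop))
    have h3 : Measurable fun p : Λ × (E m × E m × E m) =>
        (starRingEnd ℂ) (G (p.2.1 - p.2.2.1) * A p.1 (p.2.1 - p.2.2.1)) :=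
      Complex.continuous_conj.measurable.comp (hf2.comp (measurable_fst.prodMk (by fun_prop)))
    have h4 : Measurable fun p : Λ × (E m × E m × E m) =>
        (starRingEnd ℂ) (G (p.2.1 - p.2.2.2) * A p.1 (p.2.1 - p.2.2.2)) :=
      Complex.continuous_conj.measurable.comp (hf2.comp (measurable_fst.prodMk (by fun_prop)))
    exact ((h1.mul h2).mul h3).mul h4
  have hΦI : Integrable (Function.uncurry Φ) (μ.prod volume) := by
    refine hlp_int (S := Set.univ ×ˢ hlp_S m R) ?_ _ hΦm (B * B * B * B) ?_ ?_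
    · rw [Measure.prod_prod]
      exact ENNReal.mul_lt_top (measure_lt_top _ _) (hlp_S_fin m R)
    · rintro ⟨l, q⟩
      exact hlp_norm _ B (hfB l) q
    · rintro ⟨l, q⟩ hq
      refine hlp_zero _ R (hfR l) q fun h => hq ⟨Set.mem_univ _, h⟩
  have h1 : ∀ l, ∫⁻ x : E m, ‖∫ w : E m, G w * A l w * ex (inner ℝ w x)‖ₑ ^ (4:ℝ) ≤
      ENNReal.ofReal (∫ q, Φ l q).re := fun l =>
    four_linear (fun w => G w * A l w) (hfm l) B R (hfB l) (hfR l)
  have h2 : ∀ l, 0 ≤ (∫ q, Φ l q).re := fun l =>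
    four_linear_nonneg (fun w => G w * A l w) (hfm l) B R (hfB l) (hfR l)
  have h3 : Integrable (fun l => ∫ q, Φ l q) μ := hΦI.integral_prod_left
  have h4 : ∫⁻ l, ENNReal.ofReal (∫ q, Φ l q).re ∂μ =
      ENNReal.ofReal (∫ l, (∫ q, Φ l q).re ∂μ) :=
    (ofReal_integral_eq_lintegral_ofReal h3.re (Filter.Eventually.of_forall h2)).symm
  have h5 : ∫ l, (∫ q, Φ l q).re ∂μ = (∫ l, (∫ q, Φ l q) ∂μ).re := integral_re h3
  have h6 : ∫ l, (∫ q, Φ l q) ∂μ = ∫ q, (∫ l, Φ l q ∂μ) := integral_integral_swap hΦI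
  have h7 : ∀ q : E m × E m × E m, ‖∫ l, Φ l q ∂μ‖ₑ ≤ ‖hlp_F G q‖ₑ *
      ‖∫ l, A l q.1 * A l (q.1 - q.2.1 - q.2.2) *
        (starRingEnd ℂ) (A l (q.1 - q.2.1)) * (starRingEnd ℂ) (A l (q.1 - q.2.2)) ∂μ‖ₑ := by
    intro q
    have h8 : ∀ l, Φ l q = hlp_F G q * (A l q.1 * A l (q.1 - q.2.1 - q.2.2) *
        (starRingEnd ℂ) (A l (q.1 - q.2.1)) * (starRingEnd ℂ) (A l (q.1 - q.2.2))) := by
      intro l
      simp only [Φ, hlp_F, map_mul]
      ring
    rw [integral_congr_ae (Filter.Eventually.of_forall h8), integral_const_mul, enorm_mul]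
  calc ∫⁻ l, (∫⁻ x : E m, ‖∫ w : E m, G w * A l w * ex (inner ℝ w x)‖ₑ ^ (4:ℝ)) ∂μ
      ≤ ∫⁻ l, ENNReal.ofReal (∫ q, Φ l q).re ∂μ := lintegral_mono h1
    _ = ENNReal.ofReal (∫ q, (∫ l, Φ l q ∂μ)).re := by rw [h4, h5, h6]
    _ ≤ ENNReal.ofReal ‖∫ q, (∫ l, Φ l q ∂μ)‖ := ENNReal.ofReal_le_ofReal (Complex.re_le_norm _)
    _ = ‖∫ q, (∫ l, Φ l q ∂μ)‖ₑ := ofReal_norm _
    _ ≤ ∫⁻ q, ‖∫ l, Φ l q ∂μ‖ₑ := enorm_integral_le_lintegral_enorm _
    _ ≤ _ := lintegral_mono h7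

theorem hlq_two (a b : ℝ≥0∞) : a * b ≤ 2⁻¹ * a ^ (2:ℝ) + 2⁻¹ * b ^ (2:ℝ) := by
  have h := ENNReal.young_inequality a b Real.HolderConjugate.two_two
  rwa [ENNReal.ofReal_ofNat, ENNReal.div_eq_inv_mul, ENNReal.div_eq_inv_mul] at h

/-
ROW LQ (0.8 h). Variant of `four_linear_param` (Pool/Agent/MST/LP.lean, complete; copy its proof) which keeps the
factor ‖G q.1‖ₑ ^ 2. Only the last step changes: with q1 = q.1, q2 = q.1-q.2.1-q.2.2, q3 = q.1-q.2.1, q4 = q.1-q.2.2,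
 ‖G q1 G q2 conj G q3 conj G q4‖ₑ ≤ ‖G q1‖ₑ ‖G q2‖ₑ ≤ (‖G q1‖ₑ^2 + ‖G q2‖ₑ^2)/2, and with
 K q := ‖∫ l, A l q1 A l q2 conj A l q3 conj A l q4‖ₑ the two integrals ∫⁻ q, ‖G q1‖ₑ^2 K q and ∫⁻ q, ‖G q2‖ₑ^2 K q are
equal: the map σ(w,y,z) = (w-y-z, -y, -z) preserves the volume of E m × E m × E m (it is an involution: σ∘σ = id; it is the
composition of (w,y,z) ↦ (w-y-z,y,z), a shear, with (y,z) ↦ (-y,-z)) and exchanges q1 with q2 and q3 with q4, so K∘σ = K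
(commutativity of the product). Measurability of K: StronglyMeasurable.integral_prod_right' (or use lintegral inequalities
that do not need it: MeasurePreserving.lintegral_comp_emb / lintegral_comp with the measurable equivalence σ).
-/
theorem four_linear_sq {m : ℕ} {Λ : Type*} [MeasurableSpace Λ] (μ : Measure Λ)
    [IsFiniteMeasure μ] (A : Λ → E m → ℂ) (hA : Measurable (Function.uncurry A)) (B R : ℝ)
    (hB : ∀ l w, ‖A l w‖ ≤ B) (hR : ∀ l w, R < ‖w‖ → A l w = 0)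
    (G : E m → ℂ) (hG : Measurable G) (hb : ∀ w, ‖G w‖ ≤ 1) :
    ∫⁻ l, (∫⁻ x : E m, ‖∫ w : E m, G w * A l w * ex (inner ℝ w x)‖ₑ ^ (4:ℝ)) ∂μ ≤
      ∫⁻ q : E m × E m × E m, ‖G q.1‖ₑ ^ (2:ℝ) * ‖∫ l, A l q.1 * A l (q.1 - q.2.1 - q.2.2) *
        (starRingEnd ℂ) (A l (q.1 - q.2.1)) * (starRingEnd ℂ) (A l (q.1 - q.2.2)) ∂μ‖ₑ := by
  let K : E m × E m × E m → ℝ≥0∞ := fun q => ‖∫ l, A l q.1 * A l (q.1 - q.2.1 - q.2.2) *
        (starRingEnd ℂ) (A l (q.1 - q.2.1)) * (starRingEnd ℂ) (A l (q.1 - q.2.2)) ∂μ‖ₑ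
  have hKm : Measurable K := by
    have h0 : Measurable fun p : (E m × E m × E m) × Λ => A p.2 p.1.1 *
        A p.2 (p.1.1 - p.1.2.1 - p.1.2.2) * (starRingEnd ℂ) (A p.2 (p.1.1 - p.1.2.1)) *
          (starRingEnd ℂ) (A p.2 (p.1.1 - p.1.2.2)) := by
      have h1 : Measurable fun p : (E m × E m × E m) × Λ => A p.2 p.1.1 :=
        hA.comp (measurable_snd.prodMk (by fun_prop))
      have h2 : Measurable fun p : (E m × E m × E m) × Λ => A p.2 (p.1.1 - p.1.2.1 - p.1.2.2) :=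
        hA.comp (measurable_snd.prodMk (by fun_prop))
      have h3 : Measurable fun p : (E m × E m × E m) × Λ =>
          (starRingEnd ℂ) (A p.2 (p.1.1 - p.1.2.1)) :=
        Complex.continuous_conj.measurable.comp (hA.comp (measurable_snd.prodMk (by fun_prop)))
      have h4 : Measurable fun p : (E m × E m × E m) × Λ =>
          (starRingEnd ℂ) (A p.2 (p.1.1 - p.1.2.2)) :=
        Complex.continuous_conj.measurable.comp (hA.comp (measurable_snd.prodMk (by fun_prop)))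
      exact ((h1.mul h2).mul h3).mul h4
    exact (h0.stronglyMeasurable.integral_prod_right' (ν := μ)).measurable.enorm
  have hKs : ∀ q, K (hlq_s q) = K q := by
    intro q
    have e2 : (hlq_s q).1 - (hlq_s q).2.1 - (hlq_s q).2.2 = q.1 := congrArg Prod.fst (hlq_s_s q)
    have e3 : (hlq_s q).1 - (hlq_s q).2.1 = q.1 - q.2.2 := by
      change q.1 - q.2.1 - q.2.2 - -q.2.1 = _
      abel
    have e4 : (hlq_s q).1 - (hlq_s q).2.2 = q.1 - q.2.1 := by
      change q.1 - q.2.1 - q.2.2 - -q.2.2 = _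
      abel
    have e1 : (hlq_s q).1 = q.1 - q.2.1 - q.2.2 := rfl
    simp only [K]
    rw [e2, e3, e4, e1]
    congr 1
    refine integral_congr_ae (Filter.Eventually.of_forall fun l => ?_)
    simp only
    ring
  have hGm : Measurable fun w => ‖G w‖ₑ ^ (2:ℝ) := hG.enorm.pow_const _
  have hm1 : Measurable fun q : E m × E m × E m => 2⁻¹ * (‖G q.1‖ₑ ^ (2:ℝ) * K q) :=
    ((hGm.comp measurable_fst).mul hKm).const_mul _
  have hsw : ∫⁻ q : E m × E m × E m, ‖G (q.1 - q.2.1 - q.2.2)‖ₑ ^ (2:ℝ) * K q =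
      ∫⁻ q : E m × E m × E m, ‖G q.1‖ₑ ^ (2:ℝ) * K q := by
    rw [← (hlq_mp m).lintegral_comp_emb (hlq_e m).measurableEmbedding
      fun q : E m × E m × E m => ‖G q.1‖ₑ ^ (2:ℝ) * K q]
    refine lintegral_congr fun q => ?_
    rw [hKs]
    rfl
  have hF : ∀ q : E m × E m × E m, ‖hlp_F G q‖ₑ ≤ ‖G q.1‖ₑ * ‖G (q.1 - q.2.1 - q.2.2)‖ₑ := by
    intro q
    have hb' : ∀ w, ‖(starRingEnd ℂ) (G w)‖ₑ ≤ 1 := by
      intro w
      rw [← ofReal_norm, RCLike.norm_conj]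
      exact ENNReal.ofReal_le_one.2 (hb w)
    unfold hlp_F
    rw [enorm_mul, enorm_mul, enorm_mul]
    calc _ ≤ ‖G q.1‖ₑ * ‖G (q.1 - q.2.1 - q.2.2)‖ₑ * 1 * 1 := by
          gcongr
          · exact hb' _
          · exact hb' _
      _ = _ := by rw [mul_one, mul_one]
  calc ∫⁻ l, (∫⁻ x : E m, ‖∫ w : E m, G w * A l w * ex (inner ℝ w x)‖ₑ ^ (4:ℝ)) ∂μ
      ≤ ∫⁻ q : E m × E m × E m, ‖hlp_F G q‖ₑ * K q := hlq_pre μ A hA B R hB hR G hG hb
    _ ≤ ∫⁻ q : E m × E m × E m, (2⁻¹ * (‖G q.1‖ₑ ^ (2:ℝ) * K q) +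
          2⁻¹ * (‖G (q.1 - q.2.1 - q.2.2)‖ₑ ^ (2:ℝ) * K q)) := by
        refine lintegral_mono fun q => ?_
        calc ‖hlp_F G q‖ₑ * K q ≤ (‖G q.1‖ₑ * ‖G (q.1 - q.2.1 - q.2.2)‖ₑ) * K q :=
              mul_le_mul' (hF q) le_rfl
          _ ≤ (2⁻¹ * ‖G q.1‖ₑ ^ (2:ℝ) + 2⁻¹ * ‖G (q.1 - q.2.1 - q.2.2)‖ₑ ^ (2:ℝ)) * K q :=
              mul_le_mul' (hlq_two _ _) le_rfl
          _ = _ := by ring
    _ = 2⁻¹ * (∫⁻ q : E m × E m × E m, ‖G q.1‖ₑ ^ (2:ℝ) * K q) +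
          2⁻¹ * ∫⁻ q : E m × E m × E m, ‖G (q.1 - q.2.1 - q.2.2)‖ₑ ^ (2:ℝ) * K q := by
        rw [lintegral_add_left hm1, lintegral_const_mul' _ _ (by simp),
          lintegral_const_mul' _ _ (by simp)]
    _ = ∫⁻ q : E m × E m × E m, ‖G q.1‖ₑ ^ (2:ℝ) * K q := by
        rw [hsw, ← add_mul, ENNReal.inv_two_add_inv_two, one_mul]

end Pool.Agent.MSV
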