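import Pool.Agent.MSV.Defs
import Pool.Agent.MST.J1

namespace Pool.Agent.MSV

open MeasureTheory Set Pool.Agent.MP_6cbfb8_an Pool.Agent.MST
open scoped ENNReal NNReal Real

theorem hci_antitone {a b : ℝ≥0∞} (h : a ≤ b) {p : ℝ} (hp : p ≤ 0) : b ^ p ≤ a ^ p := by
  have h1 : a ^ (-p) ≤ b ^ (-p) := ENNReal.rpow_le_rpow h (by linarith)
  have h2 : b ^ p = (b ^ (-p))⁻¹ := by rw [← ENNReal.rpow_neg, neg_neg]
  have h3 : a ^ p = (a ^ (-p))⁻¹ := by rw [← ENNReal.rpow_neg, neg_neg]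
  rw [h2, h3]
  exact ENNReal.inv_le_inv.2 h1

/-- `x ^ p ≤ 2` for `x ≥ 1 / 2` and `-1 ≤ p ≤ 0`. -/
theorem hci_half {x p : ℝ} (hx : 1 / 2 ≤ x) (hp : p ≤ 0) (hp1 : -1 ≤ p) :
    ENNReal.ofReal x ^ p ≤ 2 := by
  have h1 : ENNReal.ofReal x ^ p ≤ ENNReal.ofReal (1 / 2) ^ p :=
    hci_antitone (ENNReal.ofReal_le_ofReal hx) hp
  refine h1.trans ?_
  rw [ENNReal.ofReal_rpow_of_pos (by norm_num)]
  have h2 : ((1:ℝ) / 2) ^ p ≤ ((1:ℝ) / 2) ^ (-1 : ℝ) :=
    Real.rpow_le_rpow_of_exponent_ge (by norm_num) (by norm_num) hp1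
  have h3 : ((1:ℝ) / 2) ^ (-1 : ℝ) = 2 := by
    rw [Real.rpow_neg_one]; norm_num
  rw [h3] at h2
  refine (ENNReal.ofReal_le_ofReal h2).trans ?_
  simp

theorem circle_one (a : ℝ) (ha : 0 < a) (ha1 : a ≤ 1) : ∃ C : ℝ≥0∞, C ≠ ∞ ∧
    ∀ e : E 2, ‖e‖ = 1 →
      ∫⁻ ω : S 2, ENNReal.ofReal |(inner ℝ (ω : E 2) e : ℝ)| ^ (a - 1) ∂(sm 2) ≤ C := by
  set K : ℝ≥0∞ := ∫⁻ γ in Icc (-1:ℝ) 1, ENNReal.ofReal |γ| ^ (a - 1) with hK
  have hKf : K < ∞ := hj1_fin a 1 ha one_pos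
  refine ⟨4 * (K * ENNReal.ofReal 2), ?_, ?_⟩
  · exact ENNReal.mul_ne_top (by norm_num) (ENNReal.mul_ne_top hKf.ne ENNReal.ofReal_ne_top)
  intro e he
  set φ : E 2 → ℝ≥0∞ := fun x => (Metric.closedBall (0 : E 2) 1).indicator
    (fun x => ENNReal.ofReal |(inner ℝ x e : ℝ)| ^ (a - 1)) x with hφ
  have hφm : Measurable φ := by
    rw [hφ]
    refine Measurable.indicator ?_ Metric.isClosed_closedBall.measurableSet
    fun_prop
  -- lower bound
  have h1 : ∫⁻ ω : S 2, ENNReal.ofReal |(inner ℝ (ω : E 2) e : ℝ)| ^ (a - 1) ∂(sm 2) ≤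
      4 * ∫⁻ x, φ x := by
    rw [lintegral_polar 1 φ hφm, ← lintegral_const_mul' _ _ (by norm_num)]
    refine lintegral_mono (fun ω => ?_)
    have hω : ‖(ω : E 2)‖ = 1 := by simp
    have h2 : ENNReal.ofReal |(inner ℝ (ω : E 2) e : ℝ)| ^ (a - 1) =
        4 * ∫⁻ ρ in Icc (1 / 2 : ℝ) 1,
          ENNReal.ofReal |(inner ℝ (ω : E 2) e : ℝ)| ^ (a - 1) * ENNReal.ofReal (1 / 2) := by
      have h4 : (4:ℝ≥0∞) * (ENNReal.ofReal (1 / 2) * ENNReal.ofReal (1 - 1 / 2)) = 1 := by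
        rw [← ENNReal.ofReal_mul (by norm_num)]
        have : (4:ℝ≥0∞) = ENNReal.ofReal 4 := by simp
        rw [this, ← ENNReal.ofReal_mul (by norm_num)]
        norm_num
      rw [setLIntegral_const, Real.volume_Icc, mul_assoc, mul_comm (4:ℝ≥0∞), mul_assoc,
        mul_comm _ (4:ℝ≥0∞), h4, mul_one]
    rw [h2]
    refine mul_le_mul' le_rfl ?_
    have hsub : Icc (1 / 2 : ℝ) 1 ⊆ Ioi (0:ℝ) := fun x hx => lt_of_lt_of_le (by norm_num) hx.1
    refine le_trans ?_ (lintegral_mono_set hsub)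
    refine setLIntegral_mono' measurableSet_Icc (fun ρ hρ => ?_)
    have hρ0 : (0:ℝ) < ρ := hsub hρ
    have hmem : ρ • (ω : E 2) ∈ Metric.closedBall (0 : E 2) 1 := by
      rw [mem_closedBall_zero_iff, norm_smul, hω, mul_one, Real.norm_eq_abs, abs_of_pos hρ0]
      exact hρ.2
    show _ ≤ (Metric.closedBall (0 : E 2) 1).indicator
      (fun x => ENNReal.ofReal |(inner ℝ x e : ℝ)| ^ (a - 1)) (ρ • (ω : E 2)) * _
    rw [indicator_of_mem hmem, pow_one]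
    refine mul_le_mul' ?_ (ENNReal.ofReal_le_ofReal hρ.1)
    refine hci_antitone (ENNReal.ofReal_le_ofReal ?_) (by linarith)
    rw [inner_smul_left, abs_mul]
    simp only [conj_trivial]
    rw [abs_of_pos hρ0]
    exact mul_le_of_le_one_left (abs_nonneg _) hρ.2
  refine h1.trans ?_
  gcongr
  obtain ⟨e', he', _, hdec, hfr⟩ := frame e he
  have h3 : ∫⁻ x, φ x ≤ ∫⁻ w : E 2, (Icc (-1:ℝ) 1).indicator
      (fun γ : ℝ => ENNReal.ofReal |γ| ^ (a - 1)) (inner ℝ e w) *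
      (Icc (-1:ℝ) 1).indicator (fun _ : ℝ => (1:ℝ≥0∞)) (inner ℝ e' w) := by
    refine lintegral_mono (fun x => ?_)
    simp only [hφ]
    by_cases hx : x ∈ Metric.closedBall (0 : E 2) 1
    · have hx1 : ‖x‖ ≤ 1 := by simpa using hx
      have m1 : (inner ℝ e x : ℝ) ∈ Icc (-1:ℝ) 1 := by
        rw [mem_Icc, ← abs_le]
        exact (abs_real_inner_le_norm e x).trans (by rw [he, one_mul]; exact hx1)
      have m2 : (inner ℝ e' x : ℝ) ∈ Icc (-1:ℝ) 1 := by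
        rw [mem_Icc, ← abs_le]
        exact (abs_real_inner_le_norm e' x).trans (by rw [he', one_mul]; exact hx1)
      rw [indicator_of_mem hx, indicator_of_mem m1, indicator_of_mem m2, mul_one,
        real_inner_comm]
    · rw [indicator_of_notMem hx]
      exact zero_le
  refine h3.trans ?_
  have hφ2 : Measurable (Function.uncurry fun α β : ℝ => (Icc (-1:ℝ) 1).indicator
      (fun γ : ℝ => ENNReal.ofReal |γ| ^ (a - 1)) α *
      (Icc (-1:ℝ) 1).indicator (fun _ : ℝ => (1:ℝ≥0∞)) β) := by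
    have m1 : Measurable ((Icc (-1:ℝ) 1).indicator
      (fun γ : ℝ => ENNReal.ofReal |γ| ^ (a - 1))) := by
      refine Measurable.indicator ?_ measurableSet_Icc
      fun_prop
    have m2 : Measurable ((Icc (-1:ℝ) 1).indicator (fun _ : ℝ => (1:ℝ≥0∞))) :=
      measurable_const.indicator measurableSet_Icc
    exact (m1.comp measurable_fst).mul (m2.comp measurable_snd)
  rw [hfr (fun α β : ℝ => (Icc (-1:ℝ) 1).indicator
      (fun γ : ℝ => ENNReal.ofReal |γ| ^ (a - 1)) α *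
      (Icc (-1:ℝ) 1).indicator (fun _ : ℝ => (1:ℝ≥0∞)) β) hφ2]
  have h4 : ∀ α : ℝ, ∫⁻ β : ℝ, (Icc (-1:ℝ) 1).indicator
      (fun γ : ℝ => ENNReal.ofReal |γ| ^ (a - 1)) α *
      (Icc (-1:ℝ) 1).indicator (fun _ : ℝ => (1:ℝ≥0∞)) β = (Icc (-1:ℝ) 1).indicator
      (fun γ : ℝ => ENNReal.ofReal |γ| ^ (a - 1)) α * ENNReal.ofReal 2 := by
    intro α
    rw [lintegral_const_mul _ (measurable_const.indicator measurableSet_Icc),
      lintegral_indicator measurableSet_Icc, setLIntegral_const, Real.volume_Icc, one_mul]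
    norm_num
  simp_rw [h4]
  rw [lintegral_mul_const' _ _ ENNReal.ofReal_ne_top, lintegral_indicator measurableSet_Icc]

theorem hci_gram (x y e : E 2) (hx : ‖x‖ = 1) (hy : ‖y‖ = 1) (he : ‖e‖ = 1) :
    1 / 2 ≤ |(inner ℝ x y : ℝ)| ∨ 1 / 2 ≤ |(inner ℝ x e : ℝ)| ∨ 1 / 2 ≤ |(inner ℝ y e : ℝ)| := by
  by_contra hcon
  push Not at hcon
  obtain ⟨h1, h2, h3⟩ := hcon
  have nx : x 0 ^ 2 + x 1 ^ 2 = 1 := by
    have h := EuclideanSpace.norm_sq_eq x
    rw [hx, Fin.sum_univ_two] at h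
    simp only [Real.norm_eq_abs, sq_abs] at h
    linarith
  have ny : y 0 ^ 2 + y 1 ^ 2 = 1 := by
    have h := EuclideanSpace.norm_sq_eq y
    rw [hy, Fin.sum_univ_two] at h
    simp only [Real.norm_eq_abs, sq_abs] at h
    linarith
  have ne : e 0 ^ 2 + e 1 ^ 2 = 1 := by
    have h := EuclideanSpace.norm_sq_eq e
    rw [he, Fin.sum_univ_two] at h
    simp only [Real.norm_eq_abs, sq_abs] at h
    linarith
  set r : ℝ := inner ℝ x y with hr
  set p : ℝ := inner ℝ x e with hp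
  set q : ℝ := inner ℝ y e with hq
  have hg : 1 + 2 * (p * q * r) = p ^ 2 + q ^ 2 + r ^ 2 := by
    have h := hj1_inner x y
    have h' := hj1_inner x e
    have h'' := hj1_inner y e
    rw [← hr] at h
    rw [← hp] at h'
    rw [← hq] at h''
    have hring : (x 0 ^ 2 + x 1 ^ 2) * (y 0 ^ 2 + y 1 ^ 2) * (e 0 ^ 2 + e 1 ^ 2) +
      2 * (p * q * r) = p ^ 2 * (y 0 ^ 2 + y 1 ^ 2) + q ^ 2 * (x 0 ^ 2 + x 1 ^ 2) +
        r ^ 2 * (e 0 ^ 2 + e 1 ^ 2) := by
      rw [h, h', h'']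
      ring
    rw [nx, ny, ne] at hring
    linarith
  have e1 : p ^ 2 < 1 / 4 := by
    rw [← sq_abs]
    nlinarith [abs_nonneg p]
  have e2 : q ^ 2 < 1 / 4 := by
    rw [← sq_abs]
    nlinarith [abs_nonneg q]
  have e3 : r ^ 2 < 1 / 4 := by
    rw [← sq_abs]
    nlinarith [abs_nonneg r]
  have e4 : |p * q * r| ≤ 1 / 8 := by
    rw [abs_mul, abs_mul]
    calc |p| * |q| * |r| ≤ (1 / 2) * (1 / 2) * (1 / 2) := by gcongr
      _ = 1 / 8 := by norm_num
  have e5 := neg_abs_le (p * q * r)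
  linarith

theorem hci_abs {X : Type*} [MeasurableSpace X] (μ : Measure X) [SFinite μ] (A : X → X → ℝ≥0∞)
    (B : X → ℝ≥0∞) (mA : Measurable (Function.uncurry A)) (mB : Measurable B) (C1 C3 : ℝ≥0∞)
    (IB : ∫⁻ ω, B ω ∂μ ≤ C3) (IA1 : ∀ ω, ∫⁻ ω', A ω ω' ∂μ ≤ C1)
    (IA2 : ∀ ω', ∫⁻ ω, A ω ω' ∂μ ≤ C1)
    (hpt : ∀ ω ω', A ω ω' * B ω * B ω' ≤
      (2 * (B ω * B ω') + 2 * (A ω ω' * B ω')) + 2 * (B ω * A ω ω')) :
    ∫⁻ ω, (∫⁻ ω', A ω ω' * B ω * B ω' ∂μ) ∂μ ≤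
      2 * (C3 * C3) + 2 * (C3 * C1) + 2 * (C3 * C1) := by
  have mA1 : ∀ ω, Measurable (A ω) := fun ω => mA.comp (measurable_const.prodMk measurable_id)
  have mA2 : ∀ ω', Measurable fun ω => A ω ω' := fun ω' =>
    mA.comp (measurable_id.prodMk measurable_const)
  have mAB : Measurable (Function.uncurry fun ω ω' => A ω ω' * B ω') :=
    mA.mul (mB.comp measurable_snd)
  have mI : Measurable fun ω => ∫⁻ ω', A ω ω' * B ω' ∂μ := mAB.lintegral_prod_right'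
  have hsw : ∫⁻ ω, ∫⁻ ω', A ω ω' * B ω' ∂μ ∂μ ≤ C3 * C1 := by
    rw [lintegral_lintegral_swap mAB.aemeasurable]
    calc ∫⁻ ω', ∫⁻ ω, A ω ω' * B ω' ∂μ ∂μ
        = ∫⁻ ω', (∫⁻ ω, A ω ω' ∂μ) * B ω' ∂μ := by
          refine lintegral_congr (fun ω' => ?_)
          rw [lintegral_mul_const _ (mA2 ω')]
      _ ≤ ∫⁻ ω', C1 * B ω' ∂μ :=
          lintegral_mono (fun ω' => mul_le_mul' (IA2 ω') le_rfl)
      _ = C1 * ∫⁻ ω', B ω' ∂μ := lintegral_const_mul _ mB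
      _ ≤ C1 * C3 := mul_le_mul' le_rfl IB
      _ = C3 * C1 := mul_comm _ _
  calc ∫⁻ ω, (∫⁻ ω', A ω ω' * B ω * B ω' ∂μ) ∂μ
      ≤ ∫⁻ ω, (∫⁻ ω', ((2 * (B ω * B ω') + 2 * (A ω ω' * B ω')) + 2 * (B ω * A ω ω'))
        ∂μ) ∂μ := lintegral_mono fun ω => lintegral_mono fun ω' => hpt ω ω'
    _ = ∫⁻ ω, ((2 * (B ω * ∫⁻ ω', B ω' ∂μ) + 2 * (∫⁻ ω', A ω ω' * B ω' ∂μ)) +
        2 * (B ω * ∫⁻ ω', A ω ω' ∂μ)) ∂μ := by
        refine lintegral_congr (fun ω => ?_)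
        have e1 : Measurable fun ω' => 2 * (B ω * B ω') := (mB.const_mul _).const_mul _
        have e2 : Measurable fun ω' => 2 * (A ω ω' * B ω') := ((mA1 ω).mul mB).const_mul _
        have e3 : Measurable fun ω' => 2 * (B ω * B ω') + 2 * (A ω ω' * B ω') := e1.add e2
        have e4 : Measurable fun ω' => A ω ω' * B ω' := (mA1 ω).mul mB
        rw [lintegral_add_left e3, lintegral_add_left e1,
          lintegral_const_mul _ (mB.const_mul _), lintegral_const_mul _ mB,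
          lintegral_const_mul _ e4,
          lintegral_const_mul _ ((mA1 ω).const_mul _), lintegral_const_mul _ (mA1 ω)]
    _ ≤ ∫⁻ ω, ((2 * (B ω * C3) + 2 * (∫⁻ ω', A ω ω' * B ω' ∂μ)) +
        2 * (B ω * C1)) ∂μ := by
        refine lintegral_mono (fun ω => ?_)
        exact add_le_add (add_le_add (mul_le_mul' le_rfl (mul_le_mul' le_rfl IB)) le_rfl)
          (mul_le_mul' le_rfl (mul_le_mul' le_rfl (IA1 ω)))
    _ = (2 * ((∫⁻ ω, B ω ∂μ) * C3) + 2 * (∫⁻ ω, ∫⁻ ω', A ω ω' * B ω' ∂μ ∂μ)) +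
        2 * ((∫⁻ ω, B ω ∂μ) * C1) := by
        have e1 : Measurable fun ω => 2 * (B ω * C3) := (mB.mul_const _).const_mul _
        have e2 : Measurable fun ω => 2 * ∫⁻ ω', A ω ω' * B ω' ∂μ := mI.const_mul _
        have e3 : Measurable fun ω => 2 * (B ω * C3) + 2 * ∫⁻ ω', A ω ω' * B ω' ∂μ := e1.add e2
        rw [lintegral_add_left e3, lintegral_add_left e1,
          lintegral_const_mul _ (mB.mul_const _), lintegral_mul_const _ mB,
          lintegral_const_mul _ mI,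
          lintegral_const_mul _ (mB.mul_const _), lintegral_mul_const _ mB]
    _ ≤ 2 * (C3 * C3) + 2 * (C3 * C1) + 2 * (C3 * C1) :=
        add_le_add (add_le_add (mul_le_mul' le_rfl (mul_le_mul' IB le_rfl))
          (mul_le_mul' le_rfl hsw)) (mul_le_mul' le_rfl (mul_le_mul' IB le_rfl))

theorem circle_triple (δ : ℝ) (hδ : 0 < δ) (hδ1 : δ ≤ 1 / 4) : ∃ C : ℝ≥0∞, C ≠ ∞ ∧
    ∀ e : E 2, ‖e‖ = 1 →
      ∫⁻ ω : S 2, (∫⁻ ω' : S 2, ENNReal.ofReal |(inner ℝ (ω : E 2) (ω' : E 2) : ℝ)| ^ (δ - 1) *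
        ENNReal.ofReal |(inner ℝ (ω : E 2) e : ℝ)| ^ (3 * δ - 1) *
        ENNReal.ofReal |(inner ℝ (ω' : E 2) e : ℝ)| ^ (3 * δ - 1) ∂(sm 2)) ∂(sm 2) ≤ C := by
  obtain ⟨C1, hC1, h1⟩ := circle_one δ hδ (by linarith)
  obtain ⟨C3, hC3, h3⟩ := circle_one (3 * δ) (by linarith) (by linarith)
  refine ⟨2 * (C3 * C3) + 2 * (C3 * C1) + 2 * (C3 * C1), ?_, ?_⟩
  · refine ENNReal.add_ne_top.2 ⟨ENNReal.add_ne_top.2 ⟨?_, ?_⟩, ?_⟩
    · exact ENNReal.mul_ne_top (by norm_num) (ENNReal.mul_ne_top hC3 hC3)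
    · exact ENNReal.mul_ne_top (by norm_num) (ENNReal.mul_ne_top hC3 hC1)
    · exact ENNReal.mul_ne_top (by norm_num) (ENNReal.mul_ne_top hC3 hC1)
  intro e he
  refine hci_abs (sm 2) (fun ω ω' : S 2 =>
    ENNReal.ofReal |(inner ℝ (ω : E 2) (ω' : E 2) : ℝ)| ^ (δ - 1))
    (fun ω => ENNReal.ofReal |(inner ℝ (ω : E 2) e : ℝ)| ^ (3 * δ - 1)) ?_ ?_ C1 C3 (h3 e he)
    ?_ ?_ ?_
  · have h2 : Measurable fun p : S 2 × S 2 => (inner ℝ (p.1 : E 2) (p.2 : E 2) : ℝ) :=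
      Continuous.measurable (by fun_prop)
    exact (ENNReal.measurable_ofReal.comp (continuous_abs.measurable.comp h2)).pow_const _
  · have h2 : Measurable fun p : S 2 => (inner ℝ (p : E 2) e : ℝ) :=
      Continuous.measurable (by fun_prop)
    exact (ENNReal.measurable_ofReal.comp (continuous_abs.measurable.comp h2)).pow_const _
  · intro ω
    have hω : ‖(ω : E 2)‖ = 1 := by simp
    refine le_trans (le_of_eq ?_) (h1 (ω : E 2) hω)
    refine lintegral_congr (fun ω' => ?_)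
    rw [real_inner_comm]
  · intro ω'
    have hω : ‖(ω' : E 2)‖ = 1 := by simp
    exact h1 (ω' : E 2) hω
  · intro ω ω'
    have hω : ‖(ω : E 2)‖ = 1 := by simp
    have hω' : ‖(ω' : E 2)‖ = 1 := by simp
    set a := ENNReal.ofReal |(inner ℝ (ω : E 2) (ω' : E 2) : ℝ)| ^ (δ - 1) with ha
    set b := ENNReal.ofReal |(inner ℝ (ω : E 2) e : ℝ)| ^ (3 * δ - 1) with hb
    set b' := ENNReal.ofReal |(inner ℝ (ω' : E 2) e : ℝ)| ^ (3 * δ - 1) with hb'
    rcases hci_gram (ω : E 2) (ω' : E 2) e hω hω' he with h | h | h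
    · have hle : a ≤ 2 := hci_half h (by linarith) (by linarith)
      refine le_trans ?_ (le_self_add.trans le_self_add)
      rw [mul_assoc]
      exact mul_le_mul' hle le_rfl
    · have hle : b ≤ 2 := hci_half h (by linarith) (by linarith)
      refine le_trans ?_ (le_add_self.trans le_self_add)
      rw [mul_comm a, mul_assoc]
      exact mul_le_mul' hle le_rfl
    · have hle : b' ≤ 2 := hci_half h (by linarith) (by linarith)
      refine le_trans ?_ le_add_self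
      rw [mul_comm, mul_comm a]
      exact mul_le_mul' hle le_rfl

/-- The case `|c| = 1`. -/
theorem hci_ray_one (δ : ℝ) (hδ : 0 < δ) (hδ1 : δ ≤ 1 / 4) (c : ℝ) (hc : |c| = 1) :
    ∫⁻ ρ in Ioi (0:ℝ), ENNReal.ofReal ρ ^ (2 * δ - 1) * ENNReal.ofReal |c - ρ| ^ (δ - 1) < ∞ := by
  have hc1 : c ≤ 1 := by rw [← hc]; exact le_abs_self c
  have hc2 : -1 ≤ c := by
    have := neg_abs_le c
    rw [hc] at this
    exact this
  -- pointwise bound
  set f1 : ℝ → ℝ≥0∞ := fun γ => (Icc (-1:ℝ) 1).indicator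
    (fun γ : ℝ => ENNReal.ofReal |γ| ^ (2 * δ - 1)) γ with hf1
  set f2 : ℝ → ℝ≥0∞ := fun γ => (Icc (-3:ℝ) 3).indicator
    (fun γ : ℝ => ENNReal.ofReal |γ| ^ (δ - 1)) (γ + (-c)) with hf2
  set f3 : ℝ → ℝ≥0∞ := fun γ => (Ioi (2:ℝ)).indicator
    (fun γ : ℝ => ENNReal.ofReal γ ^ (3 * δ - 2)) γ with hf3
  have m1 : Measurable f1 := by
    rw [hf1]
    refine Measurable.indicator ?_ measurableSet_Icc
    fun_prop
  have m2 : Measurable f2 := by
    have : Measurable ((Icc (-3:ℝ) 3).indicator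
      (fun γ : ℝ => ENNReal.ofReal |γ| ^ (δ - 1))) := by
      refine Measurable.indicator ?_ measurableSet_Icc
      fun_prop
    exact this.comp (measurable_id.add_const _)
  have hpt : ∀ ρ : ℝ, 0 < ρ → ENNReal.ofReal ρ ^ (2 * δ - 1) * ENNReal.ofReal |c - ρ| ^ (δ - 1) ≤
      2 * f1 ρ + 2 * f2 ρ + 2 * f3 ρ := by
    intro ρ hρ
    rcases le_or_gt ρ (1 / 2) with h | h
    · -- small
      have e1 : ENNReal.ofReal |c - ρ| ^ (δ - 1) ≤ 2 := by
        refine hci_half ?_ (by linarith) (by linarith)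
        have := abs_sub_abs_le_abs_sub c ρ
        rw [hc, abs_of_pos hρ] at this
        linarith
      have e2 : f1 ρ = ENNReal.ofReal ρ ^ (2 * δ - 1) := by
        simp only [hf1]
        rw [indicator_of_mem (by constructor <;> linarith), abs_of_pos hρ]
      refine le_trans ?_ (le_self_add.trans le_self_add)
      rw [e2, mul_comm]
      gcongr
    rcases le_or_gt ρ 2 with h' | h'
    · have e1 : ENNReal.ofReal ρ ^ (2 * δ - 1) ≤ 2 := hci_half h.le (by linarith) (by linarith)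
      have e2 : f2 ρ = ENNReal.ofReal |c - ρ| ^ (δ - 1) := by
        simp only [hf2]
        rw [indicator_of_mem (by constructor <;> linarith), abs_sub_comm c ρ,
          ← sub_eq_add_neg ρ c]
      refine le_trans ?_ (le_add_self.trans le_self_add)
      rw [e2]
      gcongr
    · have e1 : ENNReal.ofReal |c - ρ| ^ (δ - 1) ≤ 2 * ENNReal.ofReal ρ ^ (δ - 1) := by
        have h1 : ENNReal.ofReal (ρ * (1 / 2)) ≤ ENNReal.ofReal |c - ρ| := by
          refine ENNReal.ofReal_le_ofReal ?_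
          rw [abs_sub_comm, abs_of_pos (by linarith)]
          linarith
        refine (hci_antitone h1 (by linarith)).trans ?_
        rw [ENNReal.ofReal_mul hρ.le, ENNReal.mul_rpow_of_ne_top ENNReal.ofReal_ne_top
          ENNReal.ofReal_ne_top, mul_comm]
        gcongr
        exact hci_half le_rfl (by linarith) (by linarith)
      have e2 : f3 ρ = ENNReal.ofReal ρ ^ (2 * δ - 1) * ENNReal.ofReal ρ ^ (δ - 1) := by
        simp only [hf3]
        rw [indicator_of_mem (mem_Ioi.2 h'),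
          ← ENNReal.rpow_add _ _ (by simpa using hρ) ENNReal.ofReal_ne_top]
        congr 1
        ring
      refine le_trans ?_ le_add_self
      rw [e2, mul_left_comm]
      exact mul_le_mul' le_rfl e1
  have hI1 : ∫⁻ ρ, f1 ρ < ∞ := by
    rw [hf1, lintegral_indicator measurableSet_Icc]
    exact hj1_fin (2 * δ) 1 (by linarith) one_pos
  have hI2 : ∫⁻ ρ, f2 ρ < ∞ := by
    have e : ∫⁻ ρ, f2 ρ = ∫⁻ γ in Icc (-3:ℝ) 3, ENNReal.ofReal |γ| ^ (δ - 1) := by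
      rw [← lintegral_indicator measurableSet_Icc]
      exact lintegral_add_right_eq_self ((Icc (-3:ℝ) 3).indicator
        (fun γ : ℝ => ENNReal.ofReal |γ| ^ (δ - 1))) (-c)
    rw [e]
    exact hj1_fin δ 3 hδ (by norm_num)
  have hI3 : ∫⁻ ρ, f3 ρ < ∞ := by
    rw [hf3, lintegral_indicator measurableSet_Ioi]
    have h := integrableOn_Ioi_rpow_of_lt (a := 3 * δ - 2) (by linarith) (c := 2) (by norm_num)
    have h5 := h.hasFiniteIntegral
    unfold HasFiniteIntegral at h5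
    refine lt_of_le_of_lt (le_of_eq ?_) h5
    refine setLIntegral_congr_fun measurableSet_Ioi (fun x hx => ?_)
    have hx' : (0:ℝ) < x := lt_trans (by norm_num) hx
    show ENNReal.ofReal x ^ (3 * δ - 2) = _
    rw [ENNReal.ofReal_rpow_of_pos hx', Real.enorm_eq_ofReal (Real.rpow_nonneg hx'.le _)]
  calc ∫⁻ ρ in Ioi (0:ℝ), ENNReal.ofReal ρ ^ (2 * δ - 1) * ENNReal.ofReal |c - ρ| ^ (δ - 1)
      ≤ ∫⁻ ρ in Ioi (0:ℝ), (2 * f1 ρ + 2 * f2 ρ + 2 * f3 ρ) :=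
        setLIntegral_mono' measurableSet_Ioi (fun ρ hρ => hpt ρ hρ)
    _ ≤ ∫⁻ ρ, (2 * f1 ρ + 2 * f2 ρ + 2 * f3 ρ) := setLIntegral_le_lintegral _ _
    _ = 2 * (∫⁻ ρ, f1 ρ) + 2 * (∫⁻ ρ, f2 ρ) + 2 * ∫⁻ ρ, f3 ρ := by
        have e1 : Measurable fun ρ => 2 * f1 ρ := m1.const_mul _
        have e2 : Measurable fun ρ => 2 * f2 ρ := m2.const_mul _
        have e3 : Measurable fun ρ => 2 * f1 ρ + 2 * f2 ρ := e1.add e2
        rw [lintegral_add_left e3,
          lintegral_add_left e1, lintegral_const_mul' _ _ (by norm_num),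
          lintegral_const_mul' _ _ (by norm_num), lintegral_const_mul' _ _ (by norm_num)]
    _ < ∞ := by
        refine ENNReal.add_lt_top.2 ⟨ENNReal.add_lt_top.2 ⟨?_, ?_⟩, ?_⟩
        · exact ENNReal.mul_lt_top (by norm_num) hI1
        · exact ENNReal.mul_lt_top (by norm_num) hI2
        · exact ENNReal.mul_lt_top (by norm_num) hI3

theorem ray_int (δ : ℝ) (hδ : 0 < δ) (hδ1 : δ ≤ 1 / 4) : ∃ C : ℝ≥0∞, C ≠ ∞ ∧ ∀ c : ℝ, c ≠ 0 →
    ∫⁻ ρ in Ioi (0:ℝ), ENNReal.ofReal ρ ^ (2 * δ - 1) * ENNReal.ofReal |c - ρ| ^ (δ - 1) ≤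
      C * ENNReal.ofReal |c| ^ (3 * δ - 1) := by
  set K : ℝ → ℝ≥0∞ := fun c => ∫⁻ ρ in Ioi (0:ℝ),
    ENNReal.ofReal ρ ^ (2 * δ - 1) * ENNReal.ofReal |c - ρ| ^ (δ - 1) with hK
  have k1 : K 1 < ∞ := hci_ray_one δ hδ hδ1 1 (by simp)
  have k2 : K (-1) < ∞ := hci_ray_one δ hδ hδ1 (-1) (by simp)
  refine ⟨K 1 + K (-1), (ENNReal.add_lt_top.2 ⟨k1, k2⟩).ne, ?_⟩
  intro c hc
  have hc0 : 0 < |c| := abs_pos.2 hc
  have hsc : K c = ENNReal.ofReal |c| ^ (3 * δ - 1) * K (c / |c|) := by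
    have h1 : K c = ∫⁻ ρ, (Ioi (0:ℝ)).indicator (fun ρ =>
        ENNReal.ofReal ρ ^ (2 * δ - 1) * ENNReal.ofReal |c - ρ| ^ (δ - 1)) ρ := by
      rw [lintegral_indicator measurableSet_Ioi]
    have hm : Measurable ((Ioi (0:ℝ)).indicator (fun ρ =>
        ENNReal.ofReal ρ ^ (2 * δ - 1) * ENNReal.ofReal |c - ρ| ^ (δ - 1))) := by
      refine Measurable.indicator ?_ measurableSet_Ioi
      fun_prop
    have h2 : K c = ENNReal.ofReal |c| * ∫⁻ ρ, (Ioi (0:ℝ)).indicator (fun ρ =>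
        ENNReal.ofReal ρ ^ (2 * δ - 1) * ENNReal.ofReal |c - ρ| ^ (δ - 1)) (|c| * ρ) := by
      rw [h1]
      conv_lhs => rw [← Real.smul_map_volume_mul_left hc0.ne']
      rw [lintegral_smul_measure, lintegral_map hm (measurable_const_mul _), abs_abs]
      rfl
    rw [h2, hK]
    simp only
    rw [← lintegral_indicator measurableSet_Ioi, ← lintegral_const_mul' _ _ ENNReal.ofReal_ne_top,
      ← lintegral_const_mul']
    · refine lintegral_congr (fun ρ => ?_)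
      by_cases hρ : ρ ∈ Ioi (0:ℝ)
      · have hρ0 : (0:ℝ) < ρ := hρ
        have hm1 : |c| * ρ ∈ Ioi (0:ℝ) := mul_pos hc0 hρ0
        rw [indicator_of_mem hρ, indicator_of_mem hm1]
        have e1 : |c - |c| * ρ| = |c| * |c / |c| - ρ| := by
          rw [← abs_of_pos hc0, ← abs_mul, abs_abs, mul_sub, mul_div_cancel₀ _ hc0.ne']
        rw [e1, ENNReal.ofReal_mul hc0.le, ENNReal.ofReal_mul hc0.le,
          ENNReal.mul_rpow_of_ne_top ENNReal.ofReal_ne_top ENNReal.ofReal_ne_top,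
          ENNReal.mul_rpow_of_ne_top ENNReal.ofReal_ne_top ENNReal.ofReal_ne_top]
        have e2 : ENNReal.ofReal |c| ^ (3 * δ - 1) = ENNReal.ofReal |c| *
            (ENNReal.ofReal |c| ^ (2 * δ - 1) * ENNReal.ofReal |c| ^ (δ - 1)) := by
          have hp : ENNReal.ofReal |c| ≠ 0 := by simpa using hc
          conv_rhs => rw [← ENNReal.rpow_add _ _ hp ENNReal.ofReal_ne_top]
          nth_rewrite 2 [← ENNReal.rpow_one (ENNReal.ofReal |c|)]
          rw [← ENNReal.rpow_add _ _ hp ENNReal.ofReal_ne_top]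
          congr 1
          ring
        rw [e2]
        ring
      · have hm1 : |c| * ρ ∉ Ioi (0:ℝ) := by
          intro hcon
          exact hρ ((mul_pos_iff_of_pos_left hc0).1 hcon)
        rw [indicator_of_notMem hρ, indicator_of_notMem hm1, mul_zero, mul_zero]
    · exact ENNReal.rpow_ne_top_of_ne_zero (by simpa using hc) ENNReal.ofReal_ne_top
  show K c ≤ _
  rw [hsc, mul_comm]
  gcongr
  rcases lt_or_gt_of_ne hc with h | h
  · have : c / |c| = -1 := by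
      rw [abs_of_neg h, div_neg, div_self hc]
    rw [this]
    exact le_add_self
  · have : c / |c| = 1 := by
      rw [abs_of_pos h, div_self hc]
    rw [this]
    exact le_self_add

end Pool.Agent.MSV
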