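import Pool.Agent.MST.JB
import Pool.Agent.MSV.CI

namespace Pool.Agent.MSV

open MeasureTheory Set Pool.Agent.MP_6cbfb8_an Pool.Agent.MST
open scoped ENNReal NNReal Real

/-- `ray_int` with the degenerate case included. -/
theorem hti_ray (δ : ℝ) (hδ : 0 < δ) (hδ1 : δ ≤ 1 / 4) : ∃ C : ℝ≥0∞, C ≠ ∞ ∧ ∀ c : ℝ,
    ∫⁻ ρ in Ioi (0:ℝ), ENNReal.ofReal ρ ^ (2 * δ - 1) * ENNReal.ofReal |c - ρ| ^ (δ - 1) ≤
      C * ENNReal.ofReal |c| ^ (3 * δ - 1) := by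
  obtain ⟨C, hC, h⟩ := ray_int δ hδ hδ1
  refine ⟨C + 1, ENNReal.add_ne_top.2 ⟨hC, by norm_num⟩, fun c => ?_⟩
  by_cases hc : c = 0
  · have h0 : (C + 1) * ENNReal.ofReal |c| ^ (3 * δ - 1) = ∞ := by
      rw [hc, abs_zero, ENNReal.ofReal_zero, ENNReal.zero_rpow_of_neg (by linarith)]
      exact ENNReal.mul_top (by simp)
    rw [h0]
    exact le_top
  · refine (h c hc).trans ?_
    gcongr
    exact le_self_add

/-- The radial integral: for a unit vector `ω` and `g` homogeneous of degree `δ - 1`. -/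
theorem hti_radial (δ : ℝ) (hδ : 0 < δ) (hδ1 : δ ≤ 1 / 4) : ∃ C : ℝ≥0∞, C ≠ ∞ ∧
    ∀ (w ω : E 2), ‖ω‖ = 1 → ∀ g : E 2 → ℝ≥0∞,
      (∀ ρ : ℝ, 0 < ρ → g (ρ • ω) = ENNReal.ofReal ρ ^ (δ - 1) * g ω) →
    ∫⁻ ρ in Ioi (0:ℝ), (g (ρ • ω) *
        ENNReal.ofReal |(inner ℝ (ρ • ω) ((2:ℝ) • w - ρ • ω) : ℝ)| ^ (δ - 1)) *
        ENNReal.ofReal (ρ ^ 1) ≤
      C * (g ω * ENNReal.ofReal |2 * (inner ℝ ω w : ℝ)| ^ (3 * δ - 1)) := by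
  obtain ⟨C, hC, h⟩ := hti_ray δ hδ hδ1
  refine ⟨C, hC, ?_⟩
  intro w ω hω g hg
  have e1 : ∀ ρ ∈ Ioi (0:ℝ), (g (ρ • ω) *
        ENNReal.ofReal |(inner ℝ (ρ • ω) ((2:ℝ) • w - ρ • ω) : ℝ)| ^ (δ - 1)) *
        ENNReal.ofReal (ρ ^ 1) = g ω * (ENNReal.ofReal ρ ^ (2 * δ - 1) *
          ENNReal.ofReal |2 * (inner ℝ ω w : ℝ) - ρ| ^ (δ - 1)) := by
    intro ρ hρ
    have hρ0 : (0:ℝ) < ρ := hρ
    have hne : ENNReal.ofReal ρ ≠ 0 := by simpa using hρ0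
    have e2 : (inner ℝ (ρ • ω) ((2:ℝ) • w - ρ • ω) : ℝ) =
        ρ * (2 * (inner ℝ ω w : ℝ) - ρ) := by
      rw [inner_smul_left, inner_sub_right, inner_smul_right, inner_smul_right,
        real_inner_self_eq_norm_sq, hω]
      simp only [conj_trivial]
      ring
    rw [hg ρ hρ0, e2, abs_mul, abs_of_pos hρ0, ENNReal.ofReal_mul hρ0.le,
      ENNReal.mul_rpow_of_ne_top ENNReal.ofReal_ne_top ENNReal.ofReal_ne_top, pow_one]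
    have e3 : ENNReal.ofReal ρ ^ (2 * δ - 1) =
        ENNReal.ofReal ρ ^ (δ - 1) * (ENNReal.ofReal ρ ^ (δ - 1) * ENNReal.ofReal ρ) := by
      nth_rewrite 4 [← ENNReal.rpow_one (ENNReal.ofReal ρ)]
      rw [← ENNReal.rpow_add _ _ hne ENNReal.ofReal_ne_top,
        ← ENNReal.rpow_add _ _ hne ENNReal.ofReal_ne_top]
      congr 1
      ring
    rw [e3]
    ring
  rw [setLIntegral_congr_fun measurableSet_Ioi e1]
  have hm : Measurable fun ρ : ℝ => ENNReal.ofReal ρ ^ (2 * δ - 1) *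
          ENNReal.ofReal |2 * (inner ℝ ω w : ℝ) - ρ| ^ (δ - 1) := by fun_prop
  rw [lintegral_const_mul _ hm, mul_left_comm]
  exact mul_le_mul' le_rfl (h _)

/-- Polar coordinates in both variables, abstract form. -/
theorem hti_abs (C : ℝ≥0∞) (δ : ℝ) (P : E 2 → E 2 → ℝ≥0∞) (Bf Q : E 2 → ℝ≥0∞)
    (mP : Measurable (Function.uncurry P)) (mB : Measurable Bf) (mQ : Measurable Q)
    (hhom : ∀ (y ω : E 2) (ρ : ℝ), 0 < ρ → P y (ρ • ω) = ENNReal.ofReal ρ ^ (δ - 1) * P y ω)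
    (hhom' : ∀ (y ω : E 2) (ρ : ℝ), 0 < ρ → P (ρ • ω) y = ENNReal.ofReal ρ ^ (δ - 1) * P ω y)
    (hrad : ∀ ω : E 2, ‖ω‖ = 1 → ∀ g : E 2 → ℝ≥0∞,
      (∀ ρ : ℝ, 0 < ρ → g (ρ • ω) = ENNReal.ofReal ρ ^ (δ - 1) * g ω) →
      ∫⁻ ρ in Ioi (0:ℝ), (g (ρ • ω) * Bf (ρ • ω)) * ENNReal.ofReal (ρ ^ 1) ≤ C * (g ω * Q ω)) :
    ∫⁻ y : E 2, ∫⁻ z : E 2, P y z * (Bf y * Bf z) ≤
      C * (C * ∫⁻ ω : S 2, (∫⁻ ω' : S 2, P (ω : E 2) (ω' : E 2) * Q (ω' : E 2) ∂(sm 2)) *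
        Q (ω : E 2) ∂(sm 2)) := by
  have mP1 : ∀ y, Measurable (P y) := fun y => mP.comp (measurable_const.prodMk measurable_id)
  have mcoe : Measurable fun ω : S 2 => (ω : E 2) := measurable_subtype_coe
  -- the integral in z
  have hz : ∀ y : E 2, ∫⁻ z : E 2, P y z * (Bf y * Bf z) ≤
      Bf y * (C * ∫⁻ ω' : S 2, P y (ω' : E 2) * Q (ω' : E 2) ∂(sm 2)) := by
    intro y
    have m1 : Measurable fun z => P y z * Bf z := (mP1 y).mul mB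
    have e1 : ∫⁻ z : E 2, P y z * (Bf y * Bf z) = Bf y * ∫⁻ z : E 2, P y z * Bf z := by
      rw [← lintegral_const_mul _ m1]
      exact lintegral_congr (fun z => by ring)
    rw [e1]
    refine mul_le_mul' le_rfl ?_
    rw [lintegral_polar 1 _ m1]
    have m2 : Measurable fun ω' : S 2 => P y (ω' : E 2) * Q (ω' : E 2) :=
      ((mP1 y).comp mcoe).mul (mQ.comp mcoe)
    rw [← lintegral_const_mul _ m2]
    refine lintegral_mono (fun ω' => ?_)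
    exact hrad (ω' : E 2) (by simp) (P y) (fun ρ hρ => hhom y _ ρ hρ)
  obtain ⟨Ψ, hΨ⟩ : ∃ Ψ : E 2 → ℝ≥0∞, ∀ y, Ψ y =
      ∫⁻ ω' : S 2, P y (ω' : E 2) * Q (ω' : E 2) ∂(sm 2) := ⟨_, fun _ => rfl⟩
  have mPQ : Measurable (Function.uncurry fun (y : E 2) (ω' : S 2) =>
      P y (ω' : E 2) * Q (ω' : E 2)) := by
    have m1 : Measurable fun p : E 2 × S 2 => (p.1, (p.2 : E 2)) :=
      measurable_fst.prodMk (mcoe.comp measurable_snd)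
    exact (mP.comp m1).mul (mQ.comp (mcoe.comp measurable_snd))
  have mΨ : Measurable Ψ := by
    have := mPQ.lintegral_prod_right' (ν := sm 2)
    rwa [show Ψ = fun y => ∫⁻ ω' : S 2, P y (ω' : E 2) * Q (ω' : E 2) ∂(sm 2) from funext hΨ]
  have hΨhom : ∀ (ω : E 2) (ρ : ℝ), 0 < ρ → Ψ (ρ • ω) = ENNReal.ofReal ρ ^ (δ - 1) * Ψ ω := by
    intro ω ρ hρ
    rw [hΨ, hΨ]
    have m2 : Measurable fun ω' : S 2 => P ω (ω' : E 2) * Q (ω' : E 2) :=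
      ((mP1 ω).comp mcoe).mul (mQ.comp mcoe)
    rw [← lintegral_const_mul _ m2]
    refine lintegral_congr (fun ω' => ?_)
    rw [hhom' _ _ _ hρ, mul_assoc]
  have hy : ∫⁻ y : E 2, Ψ y * Bf y ≤
      C * ∫⁻ ω : S 2, Ψ (ω : E 2) * Q (ω : E 2) ∂(sm 2) := by
    have m1 : Measurable fun y => Ψ y * Bf y := mΨ.mul mB
    rw [lintegral_polar 1 _ m1]
    have m2 : Measurable fun ω : S 2 => Ψ (ω : E 2) * Q (ω : E 2) :=
      (mΨ.comp mcoe).mul (mQ.comp mcoe)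
    rw [← lintegral_const_mul _ m2]
    refine lintegral_mono (fun ω => ?_)
    exact hrad (ω : E 2) (by simp) Ψ (fun ρ hρ => hΨhom _ ρ hρ)
  calc ∫⁻ y : E 2, ∫⁻ z : E 2, P y z * (Bf y * Bf z)
      ≤ ∫⁻ y : E 2, C * (Ψ y * Bf y) := by
        refine lintegral_mono (fun y => (hz y).trans (le_of_eq ?_))
        rw [hΨ]
        ring
    _ = C * ∫⁻ y : E 2, Ψ y * Bf y := lintegral_const_mul _ (mΨ.mul mB)
    _ ≤ C * (C * ∫⁻ ω : S 2, Ψ (ω : E 2) * Q (ω : E 2) ∂(sm 2)) := mul_le_mul' le_rfl hy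
    _ = _ := by
        simp only [hΨ]

/-- The double integral over the circle. -/
theorem hti_fin (δ : ℝ) (C3 K : ℝ≥0∞) (hK : K ≠ ∞) (e : E 2) (Q : E 2 → ℝ≥0∞)
    (mQ : Measurable Q)
    (hq : ∀ ω : E 2, Q ω ≤ K * ENNReal.ofReal |(inner ℝ ω e : ℝ)| ^ (3 * δ - 1))
    (htri : ∫⁻ ω : S 2, (∫⁻ ω' : S 2,
        ENNReal.ofReal |(inner ℝ (ω : E 2) (ω' : E 2) : ℝ)| ^ (δ - 1) *
        ENNReal.ofReal |(inner ℝ (ω : E 2) e : ℝ)| ^ (3 * δ - 1) *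
        ENNReal.ofReal |(inner ℝ (ω' : E 2) e : ℝ)| ^ (3 * δ - 1) ∂(sm 2)) ∂(sm 2) ≤ C3) :
    ∫⁻ ω : S 2, (∫⁻ ω' : S 2, ENNReal.ofReal |(inner ℝ (ω : E 2) (ω' : E 2) : ℝ)| ^ (δ - 1) *
      Q (ω' : E 2) ∂(sm 2)) * Q (ω : E 2) ∂(sm 2) ≤ K * K * C3 := by
  have hKK : K * K ≠ ∞ := ENNReal.mul_ne_top hK hK
  refine le_trans ?_ (mul_le_mul' le_rfl htri)
  rw [← lintegral_const_mul' _ _ hKK]
  refine lintegral_mono (fun ω => ?_)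
  have m2 : Measurable fun ω' : S 2 =>
      ENNReal.ofReal |(inner ℝ (ω : E 2) (ω' : E 2) : ℝ)| ^ (δ - 1) * Q (ω' : E 2) := by
    have h2 : Measurable fun p : S 2 => (inner ℝ (ω : E 2) (p : E 2) : ℝ) :=
      Continuous.measurable (by fun_prop)
    exact ((ENNReal.measurable_ofReal.comp (continuous_abs.measurable.comp h2)).pow_const _).mul
      (mQ.comp measurable_subtype_coe)
  rw [← lintegral_mul_const _ m2, ← lintegral_const_mul' _ _ hKK]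
  refine lintegral_mono (fun ω' => ?_)
  calc ENNReal.ofReal |(inner ℝ (ω : E 2) (ω' : E 2) : ℝ)| ^ (δ - 1) * Q (ω' : E 2) * Q (ω : E 2)
      ≤ ENNReal.ofReal |(inner ℝ (ω : E 2) (ω' : E 2) : ℝ)| ^ (δ - 1) * (K *
      ENNReal.ofReal |(inner ℝ (ω' : E 2) e : ℝ)| ^ (3 * δ - 1)) *
      (K * ENNReal.ofReal |(inner ℝ (ω : E 2) e : ℝ)| ^ (3 * δ - 1)) :=
        mul_le_mul' (mul_le_mul' le_rfl (hq ω')) (hq ω)
    _ = _ := by ring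

theorem triple_int (δ : ℝ) (hδ : 0 < δ) (hδ1 : δ ≤ 1 / 4) : ∃ C : ℝ≥0∞, C ≠ ∞ ∧
    ∀ w : E 2, w ≠ 0 →
    ∫⁻ y : E 2, ∫⁻ z : E 2, ENNReal.ofReal |(inner ℝ y z : ℝ)| ^ (δ - 1) *
      (ENNReal.ofReal |(inner ℝ y ((2:ℝ) • w - y) : ℝ)| ^ (δ - 1) *
        ENNReal.ofReal |(inner ℝ z ((2:ℝ) • w - z) : ℝ)| ^ (δ - 1)) ≤
      C * ENNReal.ofReal ‖w‖ ^ (-2 + 6 * δ) := by
  obtain ⟨C, hC, hrad⟩ := hti_radial δ hδ hδ1
  obtain ⟨C3, hC3, htri⟩ := circle_triple δ hδ hδ1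
  refine ⟨C * (C * C3), ENNReal.mul_ne_top hC (ENNReal.mul_ne_top hC hC3), ?_⟩
  intro w hw
  have hw0 : 0 < ‖w‖ := norm_pos_iff.2 hw
  have he1 : ‖(‖w‖⁻¹ • w : E 2)‖ = 1 := by
    rw [norm_smul, norm_inv, norm_norm, inv_mul_cancel₀ hw0.ne']
  have hwe : ∀ ω : E 2, ENNReal.ofReal |2 * (inner ℝ ω w : ℝ)| ^ (3 * δ - 1) ≤
      ENNReal.ofReal ‖w‖ ^ (3 * δ - 1) *
        ENNReal.ofReal |(inner ℝ ω (‖w‖⁻¹ • w : E 2) : ℝ)| ^ (3 * δ - 1) := by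
    intro ω
    rw [← ENNReal.mul_rpow_of_ne_top ENNReal.ofReal_ne_top ENNReal.ofReal_ne_top,
      ← ENNReal.ofReal_mul hw0.le]
    refine hci_antitone (ENNReal.ofReal_le_ofReal ?_) (by linarith)
    have : (inner ℝ ω w : ℝ) = ‖w‖ * inner ℝ ω (‖w‖⁻¹ • w : E 2) := by
      rw [inner_smul_right, ← mul_assoc, mul_inv_cancel₀ hw0.ne', one_mul]
    rw [this, abs_mul, abs_mul, abs_of_pos hw0, abs_of_pos (by norm_num : (0:ℝ) < 2)]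
    have := mul_nonneg hw0.le (abs_nonneg (inner ℝ ω (‖w‖⁻¹ • w : E 2) : ℝ))
    linarith
  have mQ : Measurable fun y : E 2 =>
      ENNReal.ofReal |2 * (inner ℝ y w : ℝ)| ^ (3 * δ - 1) := by fun_prop
  have mB : Measurable fun y : E 2 =>
      ENNReal.ofReal |(inner ℝ y ((2:ℝ) • w - y) : ℝ)| ^ (δ - 1) := by fun_prop
  have mP : Measurable (Function.uncurry fun y z : E 2 =>
      ENNReal.ofReal |(inner ℝ y z : ℝ)| ^ (δ - 1)) := by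
    show Measurable fun p : E 2 × E 2 => ENNReal.ofReal |(inner ℝ p.1 p.2 : ℝ)| ^ (δ - 1)
    fun_prop
  have hA := hti_abs C δ (fun y z : E 2 => ENNReal.ofReal |(inner ℝ y z : ℝ)| ^ (δ - 1))
    (fun y : E 2 => ENNReal.ofReal |(inner ℝ y ((2:ℝ) • w - y) : ℝ)| ^ (δ - 1))
    (fun y : E 2 => ENNReal.ofReal |2 * (inner ℝ y w : ℝ)| ^ (3 * δ - 1)) mP mB mQ
    (by
      intro y ω ρ hρ
      rw [inner_smul_right, abs_mul, abs_of_pos hρ, ENNReal.ofReal_mul hρ.le,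
        ENNReal.mul_rpow_of_ne_top ENNReal.ofReal_ne_top ENNReal.ofReal_ne_top])
    (by
      intro y ω ρ hρ
      rw [inner_smul_left, abs_mul]
      simp only [conj_trivial]
      rw [abs_of_pos hρ, ENNReal.ofReal_mul hρ.le,
        ENNReal.mul_rpow_of_ne_top ENNReal.ofReal_ne_top ENNReal.ofReal_ne_top])
    (fun ω hω g hg => hrad w ω hω g hg)
  refine hA.trans ?_
  have hk : ENNReal.ofReal ‖w‖ ^ (3 * δ - 1) ≠ ∞ :=
    ENNReal.rpow_ne_top_of_ne_zero (by simpa using hw) ENNReal.ofReal_ne_top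
  have hF := hti_fin δ C3 (ENNReal.ofReal ‖w‖ ^ (3 * δ - 1)) hk (‖w‖⁻¹ • w)
    (fun y : E 2 => ENNReal.ofReal |2 * (inner ℝ y w : ℝ)| ^ (3 * δ - 1)) mQ hwe
    (htri _ he1)
  have hsq : ENNReal.ofReal ‖w‖ ^ (-2 + 6 * δ) =
      ENNReal.ofReal ‖w‖ ^ (3 * δ - 1) * ENNReal.ofReal ‖w‖ ^ (3 * δ - 1) := by
    rw [← ENNReal.rpow_add _ _ (by simpa using hw) ENNReal.ofReal_ne_top]
    congr 1
    ring
  rw [hsq]
  refine (mul_le_mul' le_rfl (mul_le_mul' le_rfl hF)).trans (le_of_eq ?_)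
  ring

theorem J_point (δ R : ℝ) (hδ : 0 < δ) (hδ1 : δ ≤ 1 / 4) (hR : 0 < R) : ∃ C : ℝ≥0∞, C ≠ ∞ ∧
    ∀ κ : ℝ, 0 < κ → κ ≤ 1 → ∀ w : E 2, w ≠ 0 → ‖w‖ ≤ R →
    ∫⁻ q in {q : E 2 × E 2 | ‖q.1‖ ≤ R ∧ ‖q.2‖ ≤ R ∧ |2 * (inner ℝ q.1 q.2 : ℝ)| ≤ R * κ ^ 2},
      ENNReal.ofReal (|2 * (inner ℝ q.1 q.2 : ℝ)| / κ ^ 2 +
        |(inner ℝ q.1 ((2:ℝ) • w - q.1) : ℝ)| *
          |(inner ℝ q.2 ((2:ℝ) • w - q.2) : ℝ)| / κ ^ 4) ^ (-(2 - 2 * δ)) ≤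
      C * ENNReal.ofReal (κ ^ (4 - δ)) * ENNReal.ofReal ‖w‖ ^ (-2 + 6 * δ) := by
  obtain ⟨C1, hC1, htr⟩ := triple_int δ hδ hδ1
  have hr := radial_two (δ / 2) R (by linarith)
  set B : Set (E 2) := Metric.closedBall (0 : E 2) R with hB
  set I1 : ℝ≥0∞ := ∫⁻ y in B, ENNReal.ofReal ‖y‖ ^ (δ / 2 - 2) with hI1
  refine ⟨ENNReal.ofReal (R ^ (3 * δ / 2)) * (I1 * I1) * ENNReal.ofReal (R ^ (2 - 6 * δ)) + C1,
    ?_, ?_⟩
  · exact ENNReal.add_ne_top.2 ⟨ENNReal.mul_ne_top (ENNReal.mul_ne_top ENNReal.ofReal_ne_top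
      (ENNReal.mul_ne_top hr.ne hr.ne)) ENNReal.ofReal_ne_top, hC1⟩
  intro κ hκ hκ1 w hw hwR
  have hw0 : 0 < ‖w‖ := norm_pos_iff.2 hw
  set cP : ℝ≥0∞ := ENNReal.ofReal (κ ^ (4 - δ)) with hcP
  set cN : ℝ≥0∞ := ENNReal.ofReal (R ^ (3 * δ / 2)) * cP with hcN
  have hcP0 : cP ≠ 0 := by
    rw [hcP]
    simp only [ne_eq, ENNReal.ofReal_eq_zero, not_le]
    positivity
  have hcN0 : cN ≠ 0 := by
    refine mul_ne_zero ?_ hcP0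
    simp only [ne_eq, ENNReal.ofReal_eq_zero, not_le]
    positivity
  set h : E 2 × E 2 → ℝ≥0∞ := fun p =>
    ENNReal.ofReal ‖p.1‖ ^ (δ / 2 - 2) * ENNReal.ofReal ‖p.2‖ ^ (δ / 2 - 2) with hh
  set W : E 2 × E 2 → ℝ≥0∞ := fun q =>
    ENNReal.ofReal |(inner ℝ q.1 q.2 : ℝ)| ^ (δ - 1) *
    (ENNReal.ofReal |(inner ℝ q.1 ((2:ℝ) • w - q.1) : ℝ)| ^ (δ - 1) *
      ENNReal.ofReal |(inner ℝ q.2 ((2:ℝ) • w - q.2) : ℝ)| ^ (δ - 1)) with hW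
  have mh : Measurable h := by
    rw [hh]; fun_prop
  have mW : Measurable W := by
    rw [hW]; fun_prop
  have key : ∀ q : E 2 × E 2, |2 * (inner ℝ q.1 q.2 : ℝ)| ≤ R * κ ^ 2 →
      ENNReal.ofReal (|2 * (inner ℝ q.1 q.2 : ℝ)| / κ ^ 2 +
        |(inner ℝ q.1 ((2:ℝ) • w - q.1) : ℝ)| *
          |(inner ℝ q.2 ((2:ℝ) • w - q.2) : ℝ)| / κ ^ 4) ^ (-(2 - 2 * δ)) ≤
      cN * h q + cP * W q := by
    intro q hq
    have hp0 : ∀ z : E 2, ENNReal.ofReal ‖z‖ ^ (δ / 2 - 2) ≠ 0 := by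
      intro z h0
      rw [ENNReal.rpow_eq_zero_iff] at h0
      rcases h0 with ⟨_, h0⟩ | ⟨h0, _⟩
      · linarith
      · exact ENNReal.ofReal_ne_top h0
    have hz0 : ENNReal.ofReal ‖(0 : E 2)‖ ^ (δ / 2 - 2) = ∞ := by
      rw [norm_zero, ENNReal.ofReal_zero]
      exact ENNReal.zero_rpow_of_neg (by linarith)
    by_cases hy : q.1 = 0
    · have : h q = ∞ := by
        simp only [hh]
        rw [hy, hz0]
        exact ENNReal.top_mul (hp0 _)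
      rw [this, ENNReal.mul_top hcN0]
      simp
    by_cases hz : q.2 = 0
    · have : h q = ∞ := by
        simp only [hh]
        rw [hz, hz0]
        exact ENNReal.mul_top (hp0 _)
      rw [this, ENNReal.mul_top hcN0]
      simp
    by_cases hP : |(inner ℝ q.1 q.2 : ℝ)| ≤ ‖q.1‖ * ‖q.2‖ / 2
    · refine le_trans ?_ le_add_self
      rw [abs_mul, abs_of_pos (by norm_num : (0:ℝ) < 2)]
      refine (hjb_P δ κ _ _ _ hδ (by linarith) hκ hκ1 (abs_nonneg _) (abs_nonneg _)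
        (abs_nonneg _)).trans (le_of_eq ?_)
      simp only [hW]
      rw [mul_assoc]
    · refine le_trans ?_ le_self_add
      push Not at hP
      refine hjb_N δ R κ _ _ _ _ hδ (by linarith) hR hκ (norm_pos_iff.2 hy) (norm_pos_iff.2 hz) ?_ hq
        (by positivity)
      rw [abs_mul, abs_of_pos (by norm_num : (0:ℝ) < 2)]
      linarith
  have hsub : {q : E 2 × E 2 | ‖q.1‖ ≤ R ∧ ‖q.2‖ ≤ R ∧ |2 * (inner ℝ q.1 q.2 : ℝ)| ≤ R * κ ^ 2} ⊆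
      B ×ˢ B := by
    intro q hq
    obtain ⟨h1, h2, _⟩ := hq
    refine ⟨?_, ?_⟩
    · rw [hB, mem_closedBall_zero_iff]; exact h1
    · rw [hB, mem_closedBall_zero_iff]; exact h2
  have hprod : (volume : Measure (E 2 × E 2)).restrict (B ×ˢ B) =
      (volume.restrict B).prod (volume.restrict B) := by
    rw [Measure.prod_restrict]
    rfl
  have mS : MeasurableSet
      {q : E 2 × E 2 | ‖q.1‖ ≤ R ∧ ‖q.2‖ ≤ R ∧ |2 * (inner ℝ q.1 q.2 : ℝ)| ≤ R * κ ^ 2} := by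
    have m1 : MeasurableSet {q : E 2 × E 2 | ‖q.1‖ ≤ R} :=
      measurableSet_le (by fun_prop) (by fun_prop)
    have m2 : MeasurableSet {q : E 2 × E 2 | ‖q.2‖ ≤ R} :=
      measurableSet_le (by fun_prop) (by fun_prop)
    have m3 : MeasurableSet {q : E 2 × E 2 | |2 * (inner ℝ q.1 q.2 : ℝ)| ≤ R * κ ^ 2} :=
      measurableSet_le (by fun_prop) (by fun_prop)
    exact m1.inter (m2.inter m3)
  have m1 : Measurable fun y : E 2 => ENNReal.ofReal ‖y‖ ^ (δ / 2 - 2) := by fun_prop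
  have hhI : ∫⁻ q in B ×ˢ B, h q = I1 * I1 := by
    rw [hprod, hh]
    exact lintegral_prod_mul (f := fun y : E 2 => ENNReal.ofReal ‖y‖ ^ (δ / 2 - 2))
        (g := fun y : E 2 => ENNReal.ofReal ‖y‖ ^ (δ / 2 - 2)) m1.aemeasurable m1.aemeasurable
  have hWI : ∫⁻ q, W q ≤ C1 * ENNReal.ofReal ‖w‖ ^ (-2 + 6 * δ) := by
    rw [Measure.volume_eq_prod, lintegral_prod _ mW.aemeasurable]
    exact htr w hw
  have hone : (1:ℝ≥0∞) ≤ ENNReal.ofReal (R ^ (2 - 6 * δ)) *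
      ENNReal.ofReal ‖w‖ ^ (-2 + 6 * δ) := by
    rw [ENNReal.ofReal_rpow_of_pos hw0, ← ENNReal.ofReal_mul (by positivity)]
    rw [← ENNReal.ofReal_one]
    refine ENNReal.ofReal_le_ofReal ?_
    have e1 : ‖w‖ ^ (2 - 6 * δ) ≤ R ^ (2 - 6 * δ) :=
      Real.rpow_le_rpow hw0.le hwR (by linarith)
    have e2 : ‖w‖ ^ (2 - 6 * δ) * ‖w‖ ^ (-2 + 6 * δ) = 1 := by
      rw [← Real.rpow_add hw0]
      have : 2 - 6 * δ + (-2 + 6 * δ) = 0 := by ring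
      rw [this, Real.rpow_zero]
    calc (1:ℝ) = ‖w‖ ^ (2 - 6 * δ) * ‖w‖ ^ (-2 + 6 * δ) := e2.symm
      _ ≤ R ^ (2 - 6 * δ) * ‖w‖ ^ (-2 + 6 * δ) :=
          mul_le_mul_of_nonneg_right e1 (by positivity)
  calc _ ≤ ∫⁻ q in {q : E 2 × E 2 | ‖q.1‖ ≤ R ∧ ‖q.2‖ ≤ R ∧
        |2 * (inner ℝ q.1 q.2 : ℝ)| ≤ R * κ ^ 2}, (cN * h q + cP * W q) :=
        setLIntegral_mono' mS fun q hq => key q hq.2.2
    _ ≤ ∫⁻ q in B ×ˢ B, (cN * h q + cP * W q) := lintegral_mono_set hsub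
    _ = cN * (∫⁻ q in B ×ˢ B, h q) + cP * ∫⁻ q in B ×ˢ B, W q := by
        rw [lintegral_add_left (mh.const_mul _), lintegral_const_mul _ mh,
          lintegral_const_mul _ mW]
    _ ≤ cN * (I1 * I1) + cP * (C1 * ENNReal.ofReal ‖w‖ ^ (-2 + 6 * δ)) := by
        rw [hhI]
        refine add_le_add le_rfl (mul_le_mul' le_rfl ?_)
        exact (setLIntegral_le_lintegral _ _).trans hWI
    _ ≤ cN * (I1 * I1) * (ENNReal.ofReal (R ^ (2 - 6 * δ)) *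
        ENNReal.ofReal ‖w‖ ^ (-2 + 6 * δ)) + cP * (C1 * ENNReal.ofReal ‖w‖ ^ (-2 + 6 * δ)) := by
        refine add_le_add ?_ le_rfl
        calc cN * (I1 * I1) = cN * (I1 * I1) * 1 := (mul_one _).symm
          _ ≤ _ := mul_le_mul' le_rfl hone
    _ = _ := by
        rw [hcN]
        ring

end Pool.Agent.MSV
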