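import Pool.Agent.MST.L4
import Pool.Agent.MSV.LQ
import Pool.Agent.MSV.TI

namespace Pool.Agent.MSV

open MeasureTheory Set Pool.Agent.MP_6cbfb8_an Pool.Agent.MST
open scoped ENNReal NNReal Real

theorem strip_S (a : ℝ → ℝ) (ha : Cut a) (s0 s1 : ℝ) (h0 : 0 < s0) (h1 : s0 < s1) (δ : ℝ)
    (hδ : 0 < δ) (hδ1 : δ ≤ 1 / 4) : ∃ C : ℝ≥0∞, C ≠ ∞ ∧ ∀ κ T : ℝ, 0 < κ → κ ≤ 1 → 0 < T →
    ∀ G : E 2 → ℂ, Measurable G → (∀ w, ‖G w‖ ≤ 1) →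
    ∫⁻ l : ℝ × ℝ, (∫⁻ x : E 2, ‖op a κ l.1 l.2 G x‖ₑ ^ (4:ℝ)) ∂((muS s0 s1).prod (muT T)) ≤
      C * ENNReal.ofReal (T ^ (-1 + 2 * δ) * κ ^ (4 + δ)) *
        ∫⁻ w : E 2, ‖G w‖ₑ ^ (2:ℝ) * ENNReal.ofReal ‖w‖ ^ (-2 + 6 * δ) := by
  obtain ⟨A0, hA0, hA⟩ := cut_bdd a ha
  obtain ⟨C1, hC1, hKB⟩ := kernel_bound a ha s0 s1 h0 h1
  obtain ⟨C2, hC2, hJB⟩ := J_point δ (2 * (C1 + 1)) hδ hδ1 (by linarith)
  refine ⟨ENNReal.ofReal C1 * C2, ENNReal.mul_ne_top ENNReal.ofReal_ne_top hC2, ?_⟩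
  intro κ T hκ hκ1 hT G hG hGb
  have := finite_muT T hT
  set A : ℝ × ℝ → E 2 → ℂ := fun l w =>
    if l.1 ∈ Icc s0 s1 then amp a κ l.1 l.2 (‖w‖ ^ 2) else 0 with hAdef
  have hAm : Measurable (Function.uncurry A) := by
    have h2 : MeasurableSet {p : (ℝ × ℝ) × E 2 | p.1.1 ∈ Icc s0 s1} :=
      measurable_fst.fst measurableSet_Icc
    exact Measurable.ite h2 (hl4_meas_amp a ha κ) measurable_const
  have hAB : ∀ l w, ‖A l w‖ ≤ A0 := by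
    intro l w
    simp only [hAdef]
    split_ifs
    · rw [hl4_norm_amp]
      exact hA _
    · rw [norm_zero]
      exact hA0.le
  have hAR : ∀ l w, 1 / s0 + 1 < ‖w‖ → A l w = 0 := by
    intro l w hw
    simp only [hAdef]
    split_ifs with h
    · have h2 : vv κ l.1 (‖w‖ ^ 2) ≤ 1 / 4 := by
        have h3 : 0 < 1 / s0 := by positivity
        have h4 : 1 / s0 ≤ ‖w‖ ^ 2 := by nlinarith
        have h5 : 1 ≤ l.1 * ‖w‖ ^ 2 := by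
          calc (1 : ℝ) = s0 * (1 / s0) := by field_simp
            _ ≤ l.1 * ‖w‖ ^ 2 := mul_le_mul h.1 h4 h3.le (h0.le.trans h.1)
        have h6 : vv κ l.1 (‖w‖ ^ 2) ≤ 0 := by
          unfold vv
          exact div_nonpos_of_nonpos_of_nonneg (by linarith) (by positivity)
        linarith
      unfold amp
      rw [ha.2 _ (Or.inl h2)]
      simp
    · rfl
  have hae := hl4_ae s0 s1 T
  have hLHS : ∫⁻ l : ℝ × ℝ, (∫⁻ x : E 2, ‖op a κ l.1 l.2 G x‖ₑ ^ (4:ℝ)) ∂((muS s0 s1).prod (muT T)) =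
      ∫⁻ l : ℝ × ℝ, (∫⁻ x : E 2, ‖∫ w : E 2, G w * A l w * ex (inner ℝ w x)‖ₑ ^ (4:ℝ))
        ∂((muS s0 s1).prod (muT T)) := by
    apply lintegral_congr_ae
    filter_upwards [hae] with l hl
    unfold op
    simp only [hAdef, if_pos hl]
  rw [hLHS]
  refine (four_linear_sq ((muS s0 s1).prod (muT T)) A hAm A0 (1 / s0 + 1) hAB hAR G hG
    hGb).trans ?_
  have hker : ∀ q : E 2 × E 2 × E 2, ∫ l, A l q.1 * A l (q.1 - q.2.1 - q.2.2) *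
        (starRingEnd ℂ) (A l (q.1 - q.2.1)) * (starRingEnd ℂ) (A l (q.1 - q.2.2))
          ∂((muS s0 s1).prod (muT T)) =
      ((T * KI a κ s0 s1 (T * κ) (‖q.1‖ ^ 2) (‖q.1 - q.2.1 - q.2.2‖ ^ 2) (‖q.1 - q.2.1‖ ^ 2)
        (‖q.1 - q.2.2‖ ^ 2) : ℝ) : ℂ) := by
    intro q
    rw [← kernel_formula a ha κ hκ s0 s1 h1 T hT]
    apply integral_congr_ae
    filter_upwards [hae] with l hl
    simp only [hAdef, if_pos hl]
  simp only [hker]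
  have hTκ : 0 < T * κ := mul_pos hT hκ
  have hκ2 : 0 < C1 * κ ^ 2 := by positivity
  have hpt : ∀ q : E 2 × E 2 × E 2,
      ‖((T * KI a κ s0 s1 (T * κ) (‖q.1‖ ^ 2) (‖q.1 - q.2.1 - q.2.2‖ ^ 2) (‖q.1 - q.2.1‖ ^ 2)
        (‖q.1 - q.2.2‖ ^ 2) : ℝ) : ℂ)‖ₑ ≤
      {q : E 2 × E 2 × E 2 | ‖q.1‖ ≤ 2 * (C1 + 1) ∧ ‖q.2.1‖ ≤ 2 * (C1 + 1) ∧
        ‖q.2.2‖ ≤ 2 * (C1 + 1) ∧ |2 * (inner ℝ q.2.1 q.2.2 : ℝ)| ≤ 2 * (C1 + 1) * κ ^ 2}.indicator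
      (fun q => (ENNReal.ofReal T * ENNReal.ofReal (C1 * κ ^ 2) *
        ENNReal.ofReal (T * κ) ^ (-(2 - 2 * δ))) *
        ENNReal.ofReal (|2 * (inner ℝ q.2.1 q.2.2 : ℝ)| / κ ^ 2 +
        |(inner ℝ q.2.1 ((2:ℝ) • q.1 - q.2.1) : ℝ)| *
          |(inner ℝ q.2.2 ((2:ℝ) • q.1 - q.2.2) : ℝ)| / κ ^ 4) ^ (-(2 - 2 * δ))) q := by
    intro q
    obtain ⟨b1, b2, b3⟩ := hKB κ (T * κ) (‖q.1‖ ^ 2) (‖q.1 - q.2.1 - q.2.2‖ ^ 2)
      (‖q.1 - q.2.1‖ ^ 2) (‖q.1 - q.2.2‖ ^ 2) hκ hκ1 hTκ (by positivity) (by positivity)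
      (by positivity) (by positivity)
    have hin := hl4_inner q.1 q.2.1 q.2.2
    have hdd := dd_eq κ q.1 q.2.1 q.2.2
    set K := KI a κ s0 s1 (T * κ) (‖q.1‖ ^ 2) (‖q.1 - q.2.1 - q.2.2‖ ^ 2) (‖q.1 - q.2.1‖ ^ 2)
        (‖q.1 - q.2.2‖ ^ 2) with hK
    set D := DD κ (‖q.1‖ ^ 2) (‖q.1 - q.2.1 - q.2.2‖ ^ 2) (‖q.1 - q.2.1‖ ^ 2)
        (‖q.1 - q.2.2‖ ^ 2) with hD
    by_cases hK0 : K = 0
    · rw [hK0]
      simp
    · obtain ⟨c1, -, c3, c4, c5⟩ := b3 hK0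
      have hn : ∀ v : E 2, ‖v‖ ^ 2 ≤ C1 → ‖v‖ ≤ C1 + 1 := by
        intro v hv
        by_contra hc
        rw [not_le] at hc
        nlinarith [norm_nonneg v]
      have hw := hn _ c1
      have hwy := hn _ c3
      have hwz := hn _ c4
      have hy : ‖q.2.1‖ ≤ 2 * (C1 + 1) := by
        have h2 : q.2.1 = q.1 - (q.1 - q.2.1) := by abel
        rw [h2]
        refine (norm_sub_le _ _).trans ?_
        linarith
      have hz : ‖q.2.2‖ ≤ 2 * (C1 + 1) := by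
        have h2 : q.2.2 = q.1 - (q.1 - q.2.2) := by abel
        rw [h2]
        refine (norm_sub_le _ _).trans ?_
        linarith
      have hX : |2 * (inner ℝ q.2.1 q.2.2 : ℝ)| ≤ 2 * (C1 + 1) * κ ^ 2 := by
        rw [← hin]
        refine c5.trans ?_
        exact mul_le_mul_of_nonneg_right (by linarith) (by positivity)
      rw [Set.indicator_of_mem (show q ∈ {q : E 2 × E 2 × E 2 | ‖q.1‖ ≤ 2 * (C1 + 1) ∧
        ‖q.2.1‖ ≤ 2 * (C1 + 1) ∧ ‖q.2.2‖ ≤ 2 * (C1 + 1) ∧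
        |2 * (inner ℝ q.2.1 q.2.2 : ℝ)| ≤ 2 * (C1 + 1) * κ ^ 2} from
        ⟨by linarith [norm_nonneg q.1], hy, hz, hX⟩)]
      show _ ≤ (ENNReal.ofReal T * ENNReal.ofReal (C1 * κ ^ 2) *
        ENNReal.ofReal (T * κ) ^ (-(2 - 2 * δ))) *
        ENNReal.ofReal (|2 * (inner ℝ q.2.1 q.2.2 : ℝ)| / κ ^ 2 +
        |(inner ℝ q.2.1 ((2:ℝ) • q.1 - q.2.1) : ℝ)| *
          |(inner ℝ q.2.2 ((2:ℝ) • q.1 - q.2.2) : ℝ)| / κ ^ 4) ^ (-(2 - 2 * δ))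
      rw [← hdd]
      have hD0 : 0 ≤ D := by
        rw [hD]
        unfold DD
        positivity
      have hTK : ‖((T * K : ℝ) : ℂ)‖ₑ = ENNReal.ofReal T * ENNReal.ofReal |K| := by
        rw [← ofReal_norm, Complex.norm_real, Real.norm_eq_abs, abs_mul,
          abs_of_pos hT, ENNReal.ofReal_mul hT.le]
      rw [hTK]
      have hpw := hl4_power (e := 2 - 2 * δ) (by linarith) (by linarith) hκ2
        (mul_nonneg hTκ.le hD0) b1 b2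
      rw [ENNReal.ofReal_mul hTκ.le,
        ENNReal.mul_rpow_of_ne_top ENNReal.ofReal_ne_top ENNReal.ofReal_ne_top] at hpw
      calc ENNReal.ofReal T * ENNReal.ofReal |K| ≤ ENNReal.ofReal T *
            (ENNReal.ofReal (C1 * κ ^ 2) * (ENNReal.ofReal (T * κ) ^ (-(2 - 2 * δ)) *
              ENNReal.ofReal D ^ (-(2 - 2 * δ)))) := by gcongr
        _ = _ := by ring
  set Cst : ℝ≥0∞ := ENNReal.ofReal T * ENNReal.ofReal (C1 * κ ^ 2) *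
        ENNReal.ofReal (T * κ) ^ (-(2 - 2 * δ)) with hCst
  set Sd : Set (E 2 × E 2 × E 2) := {q : E 2 × E 2 × E 2 | ‖q.1‖ ≤ 2 * (C1 + 1) ∧
        ‖q.2.1‖ ≤ 2 * (C1 + 1) ∧
        ‖q.2.2‖ ≤ 2 * (C1 + 1) ∧ |2 * (inner ℝ q.2.1 q.2.2 : ℝ)| ≤ 2 * (C1 + 1) * κ ^ 2} with hSd
  set Sp : Set (E 2 × E 2) := {q : E 2 × E 2 | ‖q.1‖ ≤ 2 * (C1 + 1) ∧ ‖q.2‖ ≤ 2 * (C1 + 1) ∧
        |2 * (inner ℝ q.1 q.2 : ℝ)| ≤ 2 * (C1 + 1) * κ ^ 2} with hSp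
  have mSd : MeasurableSet Sd := by
    have a1 : MeasurableSet {q : E 2 × E 2 × E 2 | ‖q.1‖ ≤ 2 * (C1 + 1)} :=
      measurableSet_le (by fun_prop) measurable_const
    have a2 : MeasurableSet {q : E 2 × E 2 × E 2 | ‖q.2.1‖ ≤ 2 * (C1 + 1)} :=
      measurableSet_le (by fun_prop) measurable_const
    have a3 : MeasurableSet {q : E 2 × E 2 × E 2 | ‖q.2.2‖ ≤ 2 * (C1 + 1)} :=
      measurableSet_le (by fun_prop) measurable_const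
    have a4 : MeasurableSet {q : E 2 × E 2 × E 2 |
        |2 * (inner ℝ q.2.1 q.2.2 : ℝ)| ≤ 2 * (C1 + 1) * κ ^ 2} :=
      measurableSet_le (by fun_prop) measurable_const
    exact a1.inter (a2.inter (a3.inter a4))
  have mSp : MeasurableSet Sp := by
    have a1 : MeasurableSet {q : E 2 × E 2 | ‖q.1‖ ≤ 2 * (C1 + 1)} :=
      measurableSet_le (by fun_prop) measurable_const
    have a2 : MeasurableSet {q : E 2 × E 2 | ‖q.2‖ ≤ 2 * (C1 + 1)} :=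
      measurableSet_le (by fun_prop) measurable_const
    have a4 : MeasurableSet {q : E 2 × E 2 |
        |2 * (inner ℝ q.1 q.2 : ℝ)| ≤ 2 * (C1 + 1) * κ ^ 2} :=
      measurableSet_le (by fun_prop) measurable_const
    exact a1.inter (a2.inter a4)
  have hCtop : Cst ≠ ∞ := by
    rw [hCst, ENNReal.ofReal_rpow_of_pos hTκ]
    exact ENNReal.mul_ne_top (ENNReal.mul_ne_top ENNReal.ofReal_ne_top ENNReal.ofReal_ne_top)
      ENNReal.ofReal_ne_top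
  have mG2 : Measurable fun w : E 2 => ‖G w‖ₑ ^ (2:ℝ) := hG.enorm.pow_const _
  have mF : Measurable fun q : E 2 × E 2 × E 2 => ‖G q.1‖ₑ ^ (2:ℝ) * Sd.indicator
      (fun q => Cst * ENNReal.ofReal (|2 * (inner ℝ q.2.1 q.2.2 : ℝ)| / κ ^ 2 +
        |(inner ℝ q.2.1 ((2:ℝ) • q.1 - q.2.1) : ℝ)| *
          |(inner ℝ q.2.2 ((2:ℝ) • q.1 - q.2.2) : ℝ)| / κ ^ 4) ^ (-(2 - 2 * δ))) q := by
    refine Measurable.mul (mG2.comp measurable_fst) (Measurable.indicator ?_ mSd)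
    fun_prop
  refine (lintegral_mono fun q => mul_le_mul' le_rfl (hpt q)).trans ?_
  have hvol : (volume : Measure (E 2 × E 2 × E 2)) =
      (volume : Measure (E 2)).prod (volume : Measure (E 2 × E 2)) := rfl
  rw [hvol, lintegral_prod _ mF.aemeasurable]
  have hne : ∀ᵐ w : E 2, w ≠ 0 := by
    rw [ae_iff]
    simp
  have hfin : ENNReal.ofReal C1 * C2 * ENNReal.ofReal (T ^ (-1 + 2 * δ) * κ ^ (4 + δ)) =
      Cst * (C2 * ENNReal.ofReal (κ ^ (4 - δ))) := by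
    rw [hCst, ENNReal.ofReal_rpow_of_pos hTκ]
    have hreal : T * (C1 * κ ^ 2) * (T * κ) ^ (-(2 - 2 * δ)) * κ ^ (4 - δ) =
        C1 * (T ^ (-1 + 2 * δ) * κ ^ (4 + δ)) := by
      rw [Real.mul_rpow hT.le hκ.le]
      have e1 : T ^ (-1 + 2 * δ) = T * T ^ (-(2 - 2 * δ)) := by
        rw [show -1 + 2 * δ = 1 + -(2 - 2 * δ) by ring, Real.rpow_add hT, Real.rpow_one]
      have e2 : κ ^ (4 + δ) = κ ^ 2 * κ ^ (-(2 - 2 * δ)) * κ ^ (4 - δ) := by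
        rw [← Real.rpow_two, ← Real.rpow_add hκ, ← Real.rpow_add hκ]
        congr 1
        ring
      rw [e1, e2]
      ring
    symm
    calc ENNReal.ofReal T * ENNReal.ofReal (C1 * κ ^ 2) *
          ENNReal.ofReal ((T * κ) ^ (-(2 - 2 * δ))) * (C2 * ENNReal.ofReal (κ ^ (4 - δ))) =
        C2 * (ENNReal.ofReal T * ENNReal.ofReal (C1 * κ ^ 2) *
          ENNReal.ofReal ((T * κ) ^ (-(2 - 2 * δ))) * ENNReal.ofReal (κ ^ (4 - δ))) := by ring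
      _ = C2 * ENNReal.ofReal (T * (C1 * κ ^ 2) * (T * κ) ^ (-(2 - 2 * δ)) * κ ^ (4 - δ)) := by
        rw [ENNReal.ofReal_mul (q := κ ^ (4 - δ)) (by positivity),
          ENNReal.ofReal_mul (q := (T * κ) ^ (-(2 - 2 * δ))) (by positivity),
          ENNReal.ofReal_mul (q := C1 * κ ^ 2) hT.le]
      _ = C2 * (ENNReal.ofReal C1 * ENNReal.ofReal (T ^ (-1 + 2 * δ) * κ ^ (4 + δ))) := by
        rw [hreal, ENNReal.ofReal_mul hC1.le]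
      _ = _ := by ring
  have mR : Measurable fun w : E 2 => ‖G w‖ₑ ^ (2:ℝ) * ENNReal.ofReal ‖w‖ ^ (-2 + 6 * δ) :=
    mG2.mul (by fun_prop)
  rw [hfin, ← lintegral_const_mul _ mR]
  refine lintegral_mono_ae ?_
  filter_upwards [hne] with w hw
  by_cases hwR : ‖w‖ ≤ 2 * (C1 + 1)
  · have e3 : ∀ y : E 2 × E 2, ‖G (w, y).1‖ₑ ^ (2:ℝ) * Sd.indicator
        (fun q => Cst * ENNReal.ofReal (|2 * (inner ℝ q.2.1 q.2.2 : ℝ)| / κ ^ 2 +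
        |(inner ℝ q.2.1 ((2:ℝ) • q.1 - q.2.1) : ℝ)| *
          |(inner ℝ q.2.2 ((2:ℝ) • q.1 - q.2.2) : ℝ)| / κ ^ 4) ^ (-(2 - 2 * δ))) (w, y) =
        (‖G w‖ₑ ^ (2:ℝ) * Cst) * Sp.indicator
        (fun q => ENNReal.ofReal (|2 * (inner ℝ q.1 q.2 : ℝ)| / κ ^ 2 +
        |(inner ℝ q.1 ((2:ℝ) • w - q.1) : ℝ)| *
          |(inner ℝ q.2 ((2:ℝ) • w - q.2) : ℝ)| / κ ^ 4) ^ (-(2 - 2 * δ))) y := by
      intro y
      by_cases hy : y ∈ Sp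
      · have hy' : (w, y) ∈ Sd := ⟨hwR, hy.1, hy.2.1, hy.2.2⟩
        rw [indicator_of_mem hy, indicator_of_mem hy']
        ring
      · have hy' : (w, y) ∉ Sd := fun h => hy ⟨h.2.1, h.2.2.1, h.2.2.2⟩
        rw [indicator_of_notMem hy, indicator_of_notMem hy']
        simp
    have mI : Measurable (Sp.indicator
        (fun q : E 2 × E 2 => ENNReal.ofReal (|2 * (inner ℝ q.1 q.2 : ℝ)| / κ ^ 2 +
        |(inner ℝ q.1 ((2:ℝ) • w - q.1) : ℝ)| *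
          |(inner ℝ q.2 ((2:ℝ) • w - q.2) : ℝ)| / κ ^ 4) ^ (-(2 - 2 * δ)))) := by
      refine Measurable.indicator ?_ mSp
      fun_prop
    simp only [e3]
    rw [lintegral_const_mul _ mI, lintegral_indicator mSp]
    calc ‖G w‖ₑ ^ (2:ℝ) * Cst * ∫⁻ q in Sp, ENNReal.ofReal (|2 * (inner ℝ q.1 q.2 : ℝ)| / κ ^ 2 +
        |(inner ℝ q.1 ((2:ℝ) • w - q.1) : ℝ)| *
          |(inner ℝ q.2 ((2:ℝ) • w - q.2) : ℝ)| / κ ^ 4) ^ (-(2 - 2 * δ))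
        ≤ ‖G w‖ₑ ^ (2:ℝ) * Cst * (C2 * ENNReal.ofReal (κ ^ (4 - δ)) *
          ENNReal.ofReal ‖w‖ ^ (-2 + 6 * δ)) := mul_le_mul' le_rfl (hJB κ hκ hκ1 w hw hwR)
      _ = _ := by ring
  · have e4 : ∀ y : E 2 × E 2, ‖G (w, y).1‖ₑ ^ (2:ℝ) * Sd.indicator
        (fun q => Cst * ENNReal.ofReal (|2 * (inner ℝ q.2.1 q.2.2 : ℝ)| / κ ^ 2 +
        |(inner ℝ q.2.1 ((2:ℝ) • q.1 - q.2.1) : ℝ)| *
          |(inner ℝ q.2.2 ((2:ℝ) • q.1 - q.2.2) : ℝ)| / κ ^ 4) ^ (-(2 - 2 * δ))) (w, y) = 0 := by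
      intro y
      have hy' : (w, y) ∉ Sd := fun h => hwR h.1
      rw [indicator_of_notMem hy', mul_zero]
    simp only [e4, lintegral_zero]
    exact zero_le


theorem hss_meas_ann (κ : ℝ) : MeasurableSet (ann κ) := by
  have a1 : MeasurableSet {w : E 2 | 1 - 20 * κ ^ 2 ≤ ‖w‖ ^ 2} :=
    measurableSet_le measurable_const (by fun_prop)
  have a2 : MeasurableSet {w : E 2 | ‖w‖ < 1} := measurableSet_lt (by fun_prop) measurable_const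
  exact a1.inter a2

theorem hss_meas_shell (T : ℝ) : MeasurableSet {t : ℝ | T ≤ |t| ∧ |t| ≤ 2 * T} := by
  have a1 : MeasurableSet {t : ℝ | T ≤ |t|} := measurableSet_le measurable_const (by fun_prop)
  have a2 : MeasurableSet {t : ℝ | |t| ≤ 2 * T} := measurableSet_le (by fun_prop) measurable_const
  exact a1.inter a2

theorem hss_density (μ : Measure ℝ) {S : Set ℝ} (hS : MeasurableSet S) {w : ℝ → ℝ≥0∞}
    (hw : Measurable w) (c : ℝ≥0∞) (hc0 : c ≠ 0) (hc : c ≠ ∞) (h : ∀ s ∈ S, c ≤ w s)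
    {F : ℝ → ℝ≥0∞} (hF : Measurable F) :
    ∫⁻ s in S, F s ∂μ ≤ c⁻¹ * ∫⁻ s, F s ∂(μ.withDensity w) := by
  rw [lintegral_withDensity_eq_lintegral_mul μ hw hF]
  calc ∫⁻ s in S, F s ∂μ = c⁻¹ * (c * ∫⁻ s in S, F s ∂μ) := by
        rw [← mul_assoc, ENNReal.inv_mul_cancel hc0 hc, one_mul]
    _ = c⁻¹ * ∫⁻ s in S, c * F s ∂μ := by rw [lintegral_const_mul _ hF]
    _ ≤ c⁻¹ * ∫⁻ s in S, w s * F s ∂μ := by
        refine mul_le_mul' le_rfl (setLIntegral_mono' hS fun s hs => ?_)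
        exact mul_le_mul' (h s hs) le_rfl
    _ ≤ c⁻¹ * ∫⁻ s, (w * F) s ∂μ := mul_le_mul' le_rfl (setLIntegral_le_lintegral _ _)

theorem hss_op (a : ℝ → ℝ) (ha : Cut a) (κ s t : ℝ) (hκ : 0 < κ) (hs : s ∈ Icc (1:ℝ) (1 + 15 * κ ^ 2))
    (G : E 2 → ℂ) (x : E 2) : op a κ s t G x = op a κ s t ((ann κ).indicator G) x := by
  unfold op
  congr 1
  funext w
  by_cases hw : w ∈ ann κ
  · rw [indicator_of_mem hw]
  · rw [indicator_of_notMem hw]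
    have h0 : a (vv κ s (‖w‖ ^ 2)) = 0 := by
      apply ha.2
      by_contra hcon
      push Not at hcon
      obtain ⟨h1, h2⟩ := hcon
      apply hw
      have hκ2 : 0 < κ ^ 2 := by positivity
      unfold vv at h1 h2
      rw [lt_div_iff₀ hκ2] at h1
      rw [div_lt_iff₀ hκ2] at h2
      obtain ⟨hs1, hs2⟩ := hs
      have hn : 0 ≤ ‖w‖ ^ 2 := by positivity
      refine ⟨?_, ?_⟩
      · by_contra hlt
        push Not at hlt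
        have h3 : 0 < 1 - 20 * κ ^ 2 := lt_of_le_of_lt hn hlt
        have h4 : s * ‖w‖ ^ 2 ≤ (1 + 15 * κ ^ 2) * (1 - 20 * κ ^ 2) :=
          mul_le_mul hs2 hlt.le hn (by positivity)
        nlinarith
      · have h5 : ‖w‖ ^ 2 < 1 := by nlinarith
        have h6 := norm_nonneg w
        nlinarith
    unfold amp
    rw [h0]
    simp

theorem window_S (a : ℝ → ℝ) (ha : Cut a) (δ : ℝ) (hδ : 0 < δ) (hδ1 : δ ≤ 1 / 4) :
    ∃ C : ℝ≥0∞, C ≠ ∞ ∧ ∀ κ T : ℝ, 0 < κ → κ ≤ 1 → 0 < T →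
    ∀ G : E 2 → ℂ, Measurable G → (∀ w, ‖G w‖ ≤ 1) →
    ∫⁻ s in Icc (1:ℝ) (1 + 15 * κ ^ 2), ∫⁻ t in {t : ℝ | T ≤ |t| ∧ |t| ≤ 2 * T},
      ∫⁻ x : E 2, ‖op a κ s t G x‖ₑ ^ (4:ℝ) ≤
      C * ENNReal.ofReal (T ^ (-1 + 2 * δ) * κ ^ (4 + δ)) * NN κ δ G := by
  obtain ⟨C, hC, hst⟩ := strip_S a ha (1 / 2) 17 (by norm_num) (by norm_num) δ hδ hδ1
  set c1 : ℝ≥0∞ := ENNReal.ofReal (1 / 8) with hc1
  set c2 : ℝ≥0∞ := ENNReal.ofReal (Real.exp (-(4 * π))) with hc2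
  have c10 : c1 ≠ 0 := by
    rw [hc1, Ne, ENNReal.ofReal_eq_zero, not_le]; norm_num
  have c20 : c2 ≠ 0 := by
    rw [hc2, Ne, ENNReal.ofReal_eq_zero, not_le]; exact Real.exp_pos _
  refine ⟨c1⁻¹ * c2⁻¹ * C, ENNReal.mul_ne_top (ENNReal.mul_ne_top (ENNReal.inv_ne_top.2 c10)
    (ENNReal.inv_ne_top.2 c20)) hC, ?_⟩
  intro κ T hκ hκ1 hT G hG hGb
  set G' : E 2 → ℂ := (ann κ).indicator G with hG'
  have mG' : Measurable G' := hG.indicator (hss_meas_ann κ)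
  have bG' : ∀ w, ‖G' w‖ ≤ 1 := by
    intro w
    by_cases hw : w ∈ ann κ
    · rw [hG', indicator_of_mem hw]; exact hGb w
    · rw [hG', indicator_of_notMem hw, norm_zero]; norm_num
  have hfinT := finite_muT T hT
  set Φ : ℝ × ℝ → ℝ≥0∞ := fun l => ∫⁻ x : E 2, ‖op a κ l.1 l.2 G' x‖ₑ ^ (4:ℝ) with hΦ
  have mΦ : Measurable Φ := by
    have h1 : Measurable fun q : (ℝ × ℝ) × E 2 => ‖op a κ q.1.1 q.1.2 G' q.2‖ₑ ^ (4:ℝ) := by
      have h2 := measurable_op a ha κ G' mG'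
      have h3 : Measurable fun q : (ℝ × ℝ) × E 2 => ((q.1.1, q.1.2, q.2) : ℝ × ℝ × E 2) := by
        fun_prop
      exact ((h2.comp h3).enorm).pow_const _
    exact h1.lintegral_prod_right'
  have hwt : Measurable fun t : ℝ => ENNReal.ofReal ((t / T) ^ 2 * Real.exp (-(π * (t / T) ^ 2))) := by
    fun_prop
  have hbm : Measurable fun s : ℝ => ENNReal.ofReal (bmp (1 / 2) 17 s) := by
    unfold bmp
    fun_prop
  have mshell : MeasurableSet {t : ℝ | T ≤ |t| ∧ |t| ≤ 2 * T} := hss_meas_shell T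
  have hκ2 : κ ^ 2 ≤ 1 := by nlinarith
  have st1 : ∀ s ∈ Icc (1:ℝ) (1 + 15 * κ ^ 2), ∫⁻ t in {t : ℝ | T ≤ |t| ∧ |t| ≤ 2 * T},
      ∫⁻ x : E 2, ‖op a κ s t G x‖ₑ ^ (4:ℝ) ≤ c2⁻¹ * ∫⁻ t, Φ (s, t) ∂(muT T) := by
    intro s hs
    have e1 : ∀ t, ∫⁻ x : E 2, ‖op a κ s t G x‖ₑ ^ (4:ℝ) = Φ (s, t) := by
      intro t
      rw [hΦ]
      refine lintegral_congr fun x => ?_
      rw [hss_op a ha κ s t hκ hs G x]
    have e2 : Measurable fun t : ℝ => Φ (s, t) := mΦ.comp (measurable_const.prodMk measurable_id)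
    have e3 : ∫⁻ t in {t : ℝ | T ≤ |t| ∧ |t| ≤ 2 * T}, ∫⁻ x : E 2, ‖op a κ s t G x‖ₑ ^ (4:ℝ) =
        ∫⁻ t in {t : ℝ | T ≤ |t| ∧ |t| ≤ 2 * T}, Φ (s, t) := lintegral_congr fun t => e1 t
    rw [e3]
    refine hss_density volume mshell hwt c2 c20 ENNReal.ofReal_ne_top ?_ e2
    intro t ht
    apply ENNReal.ofReal_le_ofReal
    have h1 : 1 ≤ (t / T) ^ 2 := by
      rw [← sq_abs, abs_div, abs_of_pos hT]
      have : 1 ≤ |t| / T := by rw [le_div_iff₀ hT, one_mul]; exact ht.1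
      nlinarith
    have h2 : (t / T) ^ 2 ≤ 4 := by
      rw [← sq_abs, abs_div, abs_of_pos hT]
      have h3 : |t| / T ≤ 2 := by rw [div_le_iff₀ hT]; exact ht.2
      have h4 : 0 ≤ |t| / T := by positivity
      nlinarith
    have h5 : Real.exp (-(4 * π)) ≤ Real.exp (-(π * (t / T) ^ 2)) := by
      apply Real.exp_le_exp.2
      have := Real.pi_pos
      nlinarith
    have h6 := Real.exp_pos (-(π * (t / T) ^ 2))
    calc Real.exp (-(4 * π)) ≤ 1 * Real.exp (-(π * (t / T) ^ 2)) := by rw [one_mul]; exact h5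
      _ ≤ (t / T) ^ 2 * Real.exp (-(π * (t / T) ^ 2)) := mul_le_mul_of_nonneg_right h1 h6.le
  have mH : Measurable fun s : ℝ => ∫⁻ t, Φ (s, t) ∂(muT T) := mΦ.lintegral_prod_right'
  have hsub : Icc (1:ℝ) (1 + 15 * κ ^ 2) ⊆ Icc (1 / 2 : ℝ) 17 := by
    intro s hs
    exact ⟨by linarith [hs.1], by linarith [hs.2]⟩
  calc ∫⁻ s in Icc (1:ℝ) (1 + 15 * κ ^ 2), ∫⁻ t in {t : ℝ | T ≤ |t| ∧ |t| ≤ 2 * T},
      ∫⁻ x : E 2, ‖op a κ s t G x‖ₑ ^ (4:ℝ)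
      ≤ ∫⁻ s in Icc (1:ℝ) (1 + 15 * κ ^ 2), c2⁻¹ * ∫⁻ t, Φ (s, t) ∂(muT T) :=
        setLIntegral_mono' measurableSet_Icc st1
    _ = c2⁻¹ * ∫⁻ s in Icc (1:ℝ) (1 + 15 * κ ^ 2), ∫⁻ t, Φ (s, t) ∂(muT T) := by
        rw [lintegral_const_mul _ mH]
    _ = c2⁻¹ * ∫⁻ s in Icc (1:ℝ) (1 + 15 * κ ^ 2), ∫⁻ t, Φ (s, t) ∂(muT T)
          ∂((volume : Measure ℝ).restrict (Icc (1 / 2 : ℝ) 17)) := by
        rw [Measure.restrict_restrict_of_subset hsub]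
    _ ≤ c2⁻¹ * (c1⁻¹ * ∫⁻ s, ∫⁻ t, Φ (s, t) ∂(muT T) ∂(muS (1 / 2) 17)) := by
        refine mul_le_mul' le_rfl ?_
        refine hss_density _ measurableSet_Icc hbm c1 c10 ENNReal.ofReal_ne_top ?_ mH
        intro s hs
        apply ENNReal.ofReal_le_ofReal
        unfold bmp
        have h1 : (1 / 2 : ℝ) ≤ (s - 1 / 2) * (17 - s) := by
          have g1 : (1 / 2 : ℝ) ≤ s - 1 / 2 := by linarith [hs.1]
          have g2 : (1 : ℝ) ≤ 17 - s := by linarith [hs.2]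
          nlinarith
        calc (1 / 8 : ℝ) = (1 / 2) ^ 3 := by norm_num
          _ ≤ ((s - 1 / 2) * (17 - s)) ^ 3 := pow_le_pow_left₀ (by norm_num) h1 3
    _ = c2⁻¹ * (c1⁻¹ * ∫⁻ l, Φ l ∂((muS (1 / 2) 17).prod (muT T))) := by
        rw [lintegral_prod _ mΦ.aemeasurable]
    _ ≤ c2⁻¹ * (c1⁻¹ * (C * ENNReal.ofReal (T ^ (-1 + 2 * δ) * κ ^ (4 + δ)) *
        ∫⁻ w : E 2, ‖G' w‖ₑ ^ (2:ℝ) * ENNReal.ofReal ‖w‖ ^ (-2 + 6 * δ))) := by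
        refine mul_le_mul' le_rfl (mul_le_mul' le_rfl ?_)
        exact hst κ T hκ hκ1 hT G' mG' bG'
    _ = c1⁻¹ * c2⁻¹ * C * ENNReal.ofReal (T ^ (-1 + 2 * δ) * κ ^ (4 + δ)) * NN κ δ G := by
        have e2 : ∫⁻ w : E 2, ‖G' w‖ₑ ^ (2:ℝ) * ENNReal.ofReal ‖w‖ ^ (-2 + 6 * δ) = NN κ δ G := by
          unfold NN
          rw [← lintegral_indicator (hss_meas_ann κ)]
          refine lintegral_congr fun w => ?_
          by_cases hw : w ∈ ann κ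
          · rw [hG', indicator_of_mem hw, indicator_of_mem hw]
          · rw [hG', indicator_of_notMem hw, indicator_of_notMem hw]
            simp
        rw [e2]
        ring

end Pool.Agent.MSV
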