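import Pool.Agent.MSV.AV
import Pool.Agent.MSV.SS

namespace Pool.Agent.MSV

open MeasureTheory Set Pool.Agent.MP_6cbfb8_an Pool.Agent.MST
open scoped ENNReal NNReal Real

/-- Jensen's inequality for the fourth power. -/
theorem ha4_jensen {X : Type*} [MeasurableSpace X] (μ : Measure X) (f : X → ℝ≥0∞)
    (hf : AEMeasurable f μ) :
    (∫⁻ x, f x ∂μ) ^ (4:ℝ) ≤ μ univ ^ (3:ℝ) * ∫⁻ x, f x ^ (4:ℝ) ∂μ := by
  have hpq : (4:ℝ).HolderConjugate (4 / 3) := by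
    rw [Real.holderConjugate_iff]
    norm_num
  have h := ENNReal.lintegral_mul_le_Lp_mul_Lq μ hpq hf (g := fun _ => 1) aemeasurable_const
  simp only [Pi.mul_apply, mul_one, ENNReal.one_rpow, lintegral_const, one_mul] at h
  have h2 := ENNReal.rpow_le_rpow h (z := 4) (by norm_num)
  rw [ENNReal.mul_rpow_of_nonneg _ _ (by norm_num), ← ENNReal.rpow_mul, ← ENNReal.rpow_mul,
    show (1:ℝ) / 4 * 4 = 1 by norm_num, show (1:ℝ) / (4 / 3) * 4 = 3 by norm_num,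
    ENNReal.rpow_one, mul_comm] at h2
  exact h2

/-- Joint measurability of the integrand. -/
theorem ha4_meas_integrand (a : ℝ → ℝ) (ha : Cut a) (κ c : ℝ) (G : E 2 → ℂ) (hG : Measurable G) :
    Measurable fun p : (ℝ × ℝ × E 2) × E 2 =>
      G (fl c p.1.1 p.2) * amp a κ 1 p.1.2.1 (‖p.2‖ ^ 2) * ex (inner ℝ p.2 p.1.2.2) := by
  have hac : Measurable a := ha.1.continuous.measurable
  have hm : Measurable fun p : (ℝ × ℝ × E 2) × E 2 => vv κ 1 (‖p.2‖ ^ 2) := by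
    unfold vv
    fun_prop
  have h1 : Measurable fun p : (ℝ × ℝ × E 2) × E 2 =>
      ((a (vv κ 1 (‖p.2‖ ^ 2)) : ℝ) : ℂ) :=
    Complex.measurable_ofReal.comp (hac.comp hm)
  have h2 : Measurable fun p : (ℝ × ℝ × E 2) × E 2 => √(vv κ 1 (‖p.2‖ ^ 2)) := hm.sqrt
  have h3 : Measurable fun p : (ℝ × ℝ × E 2) × E 2 => (inner ℝ p.2 p.1.2.2 : ℝ) :=
    measurable_snd.inner (measurable_snd.comp (measurable_snd.comp measurable_fst))
  have h4' : Measurable fun p : (ℝ × ℝ × E 2) × E 2 => (p.1.1, p.2) :=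
    (measurable_fst.comp measurable_fst).prodMk measurable_snd
  have h4 : Measurable fun p : (ℝ × ℝ × E 2) × E 2 => G (fl c p.1.1 p.2) :=
    hG.comp ((continuous_fl c).measurable.comp h4')
  have mex : Measurable ex := by
    unfold ex
    fun_prop
  have h5 : Measurable fun p : (ℝ × ℝ × E 2) × E 2 => p.1.2.1 * (κ * √(vv κ 1 (‖p.2‖ ^ 2))) := by
    have h6 : Measurable fun p : (ℝ × ℝ × E 2) × E 2 => p.1.2.1 := by fun_prop
    exact h6.mul (measurable_const.mul h2)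
  exact (h4.mul (h1.mul (mex.comp h5))).mul (mex.comp h3)

theorem ha4_meas_op (a : ℝ → ℝ) (ha : Cut a) (κ c : ℝ) (G : E 2 → ℂ) (hG : Measurable G) :
    Measurable fun p : ℝ × ℝ × E 2 => op a κ 1 p.2.1 (fun w => G (fl c p.1 w)) p.2.2 :=
  ((ha4_meas_integrand a ha κ c G hG).stronglyMeasurable.integral_prod_right'
    (ν := (volume : Measure (E 2)))).measurable

/-- Abstract form of Fubini. -/
theorem ha4_swap {X : Type*} [MeasurableSpace X] (ν : Measure X) [SFinite ν] (μ : Measure ℝ)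
    [IsFiniteMeasure μ] (u : ℝ → ℂ) (g : X → ℝ → ℂ) (φ : X → ℂ) (ψ : X → ℝ)
    (hψ : Integrable ψ ν)
    (mF : Measurable (Function.uncurry fun (w : X) (τ : ℝ) => u τ * (g w τ * φ w)))
    (hbd : ∀ w τ, ‖u τ * (g w τ * φ w)‖ ≤ ψ w) (k : ℂ) :
    ∫ w, (k * ∫ τ, u τ * g w τ ∂μ) * φ w ∂ν =
      k * ∫ τ, (u τ * ∫ w, g w τ * φ w ∂ν) ∂μ := by
  have hFint : Integrable (Function.uncurry fun (w : X) (τ : ℝ) => u τ * (g w τ * φ w))
      (ν.prod μ) := by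
    have hone : Integrable (fun _ : ℝ => (1:ℝ)) μ := integrable_const _
    refine (hψ.mul_prod hone).mono' mF.aestronglyMeasurable
      (Filter.Eventually.of_forall fun p => ?_)
    rw [mul_one]
    exact hbd p.1 p.2
  have e2 : ∀ w : X, (k * ∫ τ, u τ * g w τ ∂μ) * φ w =
      k * ∫ τ, (u τ * (g w τ * φ w)) ∂μ := by
    intro w
    rw [mul_assoc, ← integral_mul_const]
    congr 1
    refine integral_congr_ae (Filter.Eventually.of_forall fun τ => ?_)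
    simp only
    ring
  simp_rw [e2]
  rw [integral_const_mul, integral_integral_swap hFint]
  congr 1
  refine integral_congr_ae (Filter.Eventually.of_forall fun τ => ?_)
  simp only
  rw [integral_const_mul]

theorem ha4_norm_tw (b τ : ℝ) : ‖tw b τ‖ = 1 := by
  unfold tw
  rw [Complex.norm_exp_ofReal_mul_I]

/-- Fubini: the operator of an average is the average of the operators. -/
theorem ha4_fubini_eq (a : ℝ → ℝ) (ha : Cut a) (κ : ℝ) (hκ : 0 < κ) (hκ1 : κ ≤ 1) (b c h t : ℝ)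
    (hh : 0 < h) (G : E 2 → ℂ) (hG : Measurable G) (hb : ∀ w, ‖G w‖ ≤ 1) (x : E 2) :
    op a κ 1 t (av b c h G) x = ((h⁻¹ : ℝ) : ℂ) * ∫ τ in Ioc (0:ℝ) h,
      (tw b τ * op a κ 1 t (fun w => G (fl c τ w)) x) := by
  obtain ⟨A, hA, hAb⟩ := cut_bdd a ha
  have hvol := hob_volS κ 1 1 hκ hκ1 one_pos le_rfl
  have hfin : volume (hobS κ 1) ≠ ∞ := ne_top_of_le_ne_top ENNReal.ofReal_ne_top hvol
  have hint : Integrable ((hobS κ 1).indicator (fun _ => A)) :=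
    (integrable_indicator_iff (hob_measS κ 1)).2 (integrableOn_const hfin)
  have mtw : Measurable (tw b) := by
    unfold tw
    fun_prop
  have mF : Measurable (Function.uncurry fun (w : E 2) (τ : ℝ) =>
      tw b τ * (G (fl c τ w) * (amp a κ 1 t (‖w‖ ^ 2) * ex (inner ℝ w x)))) := by
    have m1 := ha4_meas_integrand a ha κ c G hG
    have m2 : Measurable fun p : E 2 × ℝ => (((p.2, t, x), p.1) : (ℝ × ℝ × E 2) × E 2) := by
      fun_prop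
    have m3 := (mtw.comp measurable_snd).mul (m1.comp m2)
    have e : (Function.uncurry fun (w : E 2) (τ : ℝ) =>
      tw b τ * (G (fl c τ w) * (amp a κ 1 t (‖w‖ ^ 2) * ex (inner ℝ w x)))) =
      fun p : E 2 × ℝ => tw b p.2 *
        (G (fl c p.2 p.1) * amp a κ 1 t (‖p.1‖ ^ 2) * ex (inner ℝ p.1 x)) := by
      funext p
      simp only [Function.uncurry, mul_assoc]
    rw [e]
    exact m3
  have hsw := ha4_swap (volume : Measure (E 2)) (volume.restrict (Ioc (0:ℝ) h)) (tw b)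
    (fun w τ => G (fl c τ w)) (fun w => amp a κ 1 t (‖w‖ ^ 2) * ex (inner ℝ w x))
    ((hobS κ 1).indicator (fun _ => A)) hint mF (fun w τ => by
      have hn := hob_norm A hA a ha hAb κ 1 t (fun w => G (fl c τ w)) (fun w => hb _) w
      rw [norm_mul, ha4_norm_tw, one_mul, ← mul_assoc, norm_mul]
      have hexn : ‖ex (inner ℝ w x)‖ = 1 := by
        unfold ex
        rw [Complex.norm_exp_ofReal_mul_I]
      rw [hexn, mul_one]
      exact hn) ((h⁻¹ : ℝ) : ℂ)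
  have e1 : op a κ 1 t (av b c h G) x = ∫ w : E 2, (((h⁻¹ : ℝ) : ℂ) *
      ∫ τ in Ioc (0:ℝ) h, tw b τ * G (fl c τ w)) *
        (amp a κ 1 t (‖w‖ ^ 2) * ex (inner ℝ w x)) := by
    unfold op av
    refine integral_congr_ae (Filter.Eventually.of_forall fun w => ?_)
    simp only
    rw [intervalIntegral.integral_of_le hh.le, mul_assoc]
  rw [e1, hsw]
  congr 1
  refine integral_congr_ae (Filter.Eventually.of_forall fun τ => ?_)
  simp only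
  unfold op
  congr 1
  refine integral_congr_ae (Filter.Eventually.of_forall fun w => ?_)
  simp only
  rw [mul_assoc]

theorem ha4_fubini (a : ℝ → ℝ) (ha : Cut a) (κ : ℝ) (hκ : 0 < κ) (hκ1 : κ ≤ 1) (b c h t : ℝ)
    (hh : 0 < h) (G : E 2 → ℂ) (hG : Measurable G) (hb : ∀ w, ‖G w‖ ≤ 1) (x : E 2) :
    ‖op a κ 1 t (av b c h G) x‖ₑ ≤ ENNReal.ofReal h⁻¹ *
      ∫⁻ τ in Ioc (0:ℝ) h, ‖op a κ 1 t (fun w => G (fl c τ w)) x‖ₑ := by
  rw [ha4_fubini_eq a ha κ hκ hκ1 b c h t hh G hG hb x, enorm_mul]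
  have e3 : ‖((h⁻¹ : ℝ) : ℂ)‖ₑ = ENNReal.ofReal h⁻¹ := by
    rw [← ofReal_norm, Complex.norm_real, Real.norm_eq_abs, abs_of_pos (inv_pos.2 hh)]
  rw [e3]
  refine mul_le_mul' le_rfl ((enorm_integral_le_lintegral_enorm _).trans (le_of_eq ?_))
  refine lintegral_congr (fun τ => ?_)
  rw [enorm_mul]
  have e4 : ‖tw b τ‖ₑ = 1 := by
    rw [← ofReal_norm, ha4_norm_tw, ENNReal.ofReal_one]
  rw [e4, one_mul]

/-- The fourth power. -/
theorem ha4_four (a : ℝ → ℝ) (ha : Cut a) (κ : ℝ) (hκ : 0 < κ) (hκ1 : κ ≤ 1) (b c h t : ℝ)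
    (hh : 0 < h) (G : E 2 → ℂ) (hG : Measurable G) (hb : ∀ w, ‖G w‖ ≤ 1) (x : E 2) :
    ‖op a κ 1 t (av b c h G) x‖ₑ ^ (4:ℝ) ≤ ENNReal.ofReal h⁻¹ *
      ∫⁻ τ in Ioc (0:ℝ) h, ‖op a κ 1 t (fun w => G (fl c τ w)) x‖ₑ ^ (4:ℝ) := by
  have m2 : Measurable fun τ : ℝ => ((τ, t, x) : ℝ × ℝ × E 2) := by fun_prop
  have m1 : Measurable fun τ : ℝ => ‖op a κ 1 t (fun w => G (fl c τ w)) x‖ₑ :=
    ((ha4_meas_op a ha κ c G hG).comp m2).enorm
  have h1 := ENNReal.rpow_le_rpow (ha4_fubini a ha κ hκ hκ1 b c h t hh G hG hb x)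
    (z := 4) (by norm_num)
  refine h1.trans ?_
  rw [ENNReal.mul_rpow_of_nonneg _ _ (by norm_num)]
  refine (mul_le_mul' le_rfl (ha4_jensen _ _ m1.aemeasurable)).trans (le_of_eq ?_)
  rw [Measure.restrict_apply_univ, Real.volume_Ioc, sub_zero, ← mul_assoc]
  congr 1
  rw [ENNReal.ofReal_rpow_of_pos (inv_pos.2 hh), ENNReal.ofReal_rpow_of_pos hh,
    ← ENNReal.ofReal_mul (by positivity)]
  congr 1
  rw [show (4:ℝ) = ((4:ℕ) : ℝ) by norm_num, show (3:ℝ) = ((3:ℕ) : ℝ) by norm_num,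
    Real.rpow_natCast, Real.rpow_natCast]
  field_simp

/-- The elementary bound `exp (2 τ) ≤ 1 + 15 τ` for `0 ≤ τ ≤ 1`. -/
theorem ha4_exp (τ : ℝ) (h0 : 0 ≤ τ) (h1 : τ ≤ 1) : Real.exp (2 * τ) ≤ 1 + 15 * τ := by
  have e1 : 1 - 2 * τ ≤ Real.exp (-(2 * τ)) := by
    have := Real.add_one_le_exp (-(2 * τ))
    linarith
  have e2 : Real.exp (2 * τ) * Real.exp (-(2 * τ)) = 1 := by
    rw [← Real.exp_add]
    simp
  have e3 : Real.exp (2 * τ) ≤ Real.exp 2 := Real.exp_le_exp.2 (by linarith)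
  have e4 : Real.exp 2 ≤ 7.5 := by
    have h2 : Real.exp 2 = Real.exp 1 * Real.exp 1 := by
      rw [← Real.exp_add]; norm_num
    have h3 := Real.exp_one_lt_d9
    have h4 := Real.exp_pos 1
    rw [h2]
    nlinarith
  have e5 := Real.exp_pos (2 * τ)
  have e6 : Real.exp (2 * τ) * (1 - 2 * τ) ≤ 1 :=
    (mul_le_mul_of_nonneg_left e1 e5.le).trans e2.le
  nlinarith

/-- Substitution `s = exp (2 τ)`. -/
theorem ha4_subst (h κ : ℝ) (hκ : 0 < κ) (hκ1 : κ ≤ 1) (hhκ : h ≤ κ ^ 2)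
    (Ψ : ℝ → ℝ≥0∞) :
    ∫⁻ τ in Ioc (0:ℝ) h, ENNReal.ofReal (Real.exp (6 * τ)) * Ψ (Real.exp (2 * τ)) ≤
      ENNReal.ofReal (Real.exp 6) * ∫⁻ s in Icc (1:ℝ) (1 + 15 * κ ^ 2), Ψ s := by
  have hκ2 : κ ^ 2 ≤ 1 := by nlinarith
  have hinj : InjOn (fun τ : ℝ => Real.exp (2 * τ)) (Ioc (0:ℝ) h) := by
    intro x _ y _ hxy
    have := Real.exp_injective hxy
    linarith
  have hder : ∀ x ∈ Ioc (0:ℝ) h, HasDerivWithinAt (fun τ : ℝ => Real.exp (2 * τ))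
      (Real.exp (2 * x) * 2) (Ioc (0:ℝ) h) x := by
    intro x _
    have h1 : HasDerivAt (fun τ : ℝ => 2 * τ) 2 x := by
      simpa using (hasDerivAt_id x).const_mul (2:ℝ)
    exact (h1.exp).hasDerivWithinAt
  have hcv := lintegral_image_eq_lintegral_abs_deriv_mul measurableSet_Ioc hder hinj Ψ
  have himg : (fun τ : ℝ => Real.exp (2 * τ)) '' Ioc (0:ℝ) h ⊆ Icc (1:ℝ) (1 + 15 * κ ^ 2) := by
    rintro s ⟨τ, hτ, rfl⟩
    refine ⟨?_, ?_⟩
    · show (1:ℝ) ≤ Real.exp (2 * τ)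
      rw [← Real.exp_zero]
      exact Real.exp_le_exp.2 (by linarith [hτ.1])
    · refine (ha4_exp τ hτ.1.le (by linarith [hτ.2])).trans ?_
      have := hτ.2
      linarith
  have hk : ENNReal.ofReal (Real.exp 6) ≠ ∞ := ENNReal.ofReal_ne_top
  calc ∫⁻ τ in Ioc (0:ℝ) h, ENNReal.ofReal (Real.exp (6 * τ)) * Ψ (Real.exp (2 * τ))
      ≤ ∫⁻ τ in Ioc (0:ℝ) h, ENNReal.ofReal (Real.exp 6) *
        (ENNReal.ofReal |Real.exp (2 * τ) * 2| * Ψ (Real.exp (2 * τ))) := by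
        refine setLIntegral_mono' measurableSet_Ioc (fun τ hτ => ?_)
        rw [← mul_assoc, ← ENNReal.ofReal_mul (Real.exp_pos _).le]
        refine mul_le_mul' (ENNReal.ofReal_le_ofReal ?_) le_rfl
        have h1 : (1:ℝ) ≤ Real.exp (2 * τ) := by
          rw [← Real.exp_zero]
          exact Real.exp_le_exp.2 (by linarith [hτ.1])
        have h2 : Real.exp (6 * τ) ≤ Real.exp 6 :=
          Real.exp_le_exp.2 (by linarith [hτ.2])
        have h3 : (1:ℝ) ≤ |Real.exp (2 * τ) * 2| := by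
          rw [abs_of_pos (by positivity)]
          linarith
        calc Real.exp (6 * τ) ≤ Real.exp 6 * 1 := by rw [mul_one]; exact h2
          _ ≤ Real.exp 6 * |Real.exp (2 * τ) * 2| :=
            mul_le_mul_of_nonneg_left h3 (Real.exp_pos _).le
    _ = ENNReal.ofReal (Real.exp 6) * ∫⁻ s in (fun τ : ℝ => Real.exp (2 * τ)) '' Ioc (0:ℝ) h,
        Ψ s := by
        rw [lintegral_const_mul' _ _ hk, hcv]
    _ ≤ _ := mul_le_mul' le_rfl (lintegral_mono_set himg)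

theorem av_L4 (a : ℝ → ℝ) (ha : Cut a) (δ : ℝ) (hδ : 0 < δ) (hδ1 : δ ≤ 1 / 4) :
    ∃ C : ℝ≥0∞, C ≠ ∞ ∧ ∀ κ T : ℝ, 0 < κ → κ ≤ 1 → 0 < T → ∀ b c h : ℝ, 0 < h → h ≤ κ ^ 2 →
    ∀ G : E 2 → ℂ, Measurable G → (∀ w, ‖G w‖ ≤ 1) →
    ∫⁻ t in {t : ℝ | T ≤ |t| ∧ |t| ≤ 2 * T},
      ∫⁻ x : E 2, ‖op a κ 1 t (av b c h G) x‖ₑ ^ (4:ℝ) ≤
      C * ENNReal.ofReal (h⁻¹ * (T ^ (-1 + 2 * δ) * κ ^ (4 + δ))) * NN κ δ G := by
  obtain ⟨C, hC, hw⟩ := window_S a ha δ hδ hδ1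
  refine ⟨ENNReal.ofReal (Real.exp 6) * C, ENNReal.mul_ne_top ENNReal.ofReal_ne_top hC, ?_⟩
  intro κ T hκ hκ1 hT b c h hh hhκ G hG hb
  have hW := hw κ T hκ hκ1 hT G hG hb
  set Sh : Set ℝ := {t : ℝ | T ≤ |t| ∧ |t| ≤ 2 * T} with hSh
  have mop := ha4_meas_op a ha κ c G hG
  have hk : ENNReal.ofReal h⁻¹ ≠ ∞ := ENNReal.ofReal_ne_top
  -- measurability of the fourth power in all the variables
  have m3 : Measurable fun p : (ℝ × E 2) × ℝ =>
      ‖op a κ 1 p.1.1 (fun w => G (fl c p.2 w)) p.1.2‖ₑ ^ (4:ℝ) := by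
    have m2 : Measurable fun p : (ℝ × E 2) × ℝ => ((p.2, p.1.1, p.1.2) : ℝ × ℝ × E 2) := by
      fun_prop
    exact (mop.comp m2).enorm.pow_const _
  have m4 : Measurable fun p : (ℝ × ℝ) × E 2 =>
      ‖op a κ 1 p.1.2 (fun w => G (fl c p.1.1 w)) p.2‖ₑ ^ (4:ℝ) := by
    have m2 : Measurable fun p : (ℝ × ℝ) × E 2 => ((p.1.1, p.1.2, p.2) : ℝ × ℝ × E 2) := by
      fun_prop
    exact (mop.comp m2).enorm.pow_const _
  calc ∫⁻ t in Sh, ∫⁻ x : E 2, ‖op a κ 1 t (av b c h G) x‖ₑ ^ (4:ℝ)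
      ≤ ∫⁻ t in Sh, ∫⁻ x : E 2, ENNReal.ofReal h⁻¹ *
        ∫⁻ τ in Ioc (0:ℝ) h, ‖op a κ 1 t (fun w => G (fl c τ w)) x‖ₑ ^ (4:ℝ) :=
        lintegral_mono fun t => lintegral_mono fun x => ha4_four a ha κ hκ hκ1 b c h t hh G hG hb x
    _ = ENNReal.ofReal h⁻¹ * ∫⁻ t in Sh, ∫⁻ x : E 2, ∫⁻ τ in Ioc (0:ℝ) h,
        ‖op a κ 1 t (fun w => G (fl c τ w)) x‖ₑ ^ (4:ℝ) := by
        rw [← lintegral_const_mul' _ _ hk]
        refine lintegral_congr (fun t => ?_)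
        rw [lintegral_const_mul' _ _ hk]
    _ = ENNReal.ofReal h⁻¹ * ∫⁻ t in Sh, ∫⁻ τ in Ioc (0:ℝ) h, ∫⁻ x : E 2,
        ‖op a κ 1 t (fun w => G (fl c τ w)) x‖ₑ ^ (4:ℝ) := by
        congr 1
        refine lintegral_congr (fun t => ?_)
        refine lintegral_lintegral_swap ?_
        have m5 : Measurable fun p : E 2 × ℝ => (((t, p.1), p.2) : (ℝ × E 2) × ℝ) := by fun_prop
        exact (m3.comp m5).aemeasurable
    _ = ENNReal.ofReal h⁻¹ * ∫⁻ τ in Ioc (0:ℝ) h, ∫⁻ t in Sh, ∫⁻ x : E 2,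
        ‖op a κ 1 t (fun w => G (fl c τ w)) x‖ₑ ^ (4:ℝ) := by
        congr 1
        refine lintegral_lintegral_swap ?_
        have m5 : Measurable fun p : ℝ × ℝ => ∫⁻ x : E 2,
            ‖op a κ 1 p.2 (fun w => G (fl c p.1 w)) x‖ₑ ^ (4:ℝ) := m4.lintegral_prod_right'
        exact (m5.comp measurable_swap).aemeasurable
    _ = ENNReal.ofReal h⁻¹ * ∫⁻ τ in Ioc (0:ℝ) h, ENNReal.ofReal (Real.exp (6 * τ)) *
        ∫⁻ t in Sh, ∫⁻ x : E 2, ‖op a κ (Real.exp (2 * τ)) t G x‖ₑ ^ (4:ℝ) := by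
        congr 1
        refine lintegral_congr (fun τ => ?_)
        rw [← lintegral_const_mul' _ _ ENNReal.ofReal_ne_top]
        refine lintegral_congr (fun t => ?_)
        exact op_fl a κ t c τ G
    _ ≤ ENNReal.ofReal h⁻¹ * (ENNReal.ofReal (Real.exp 6) *
        ∫⁻ s in Icc (1:ℝ) (1 + 15 * κ ^ 2), ∫⁻ t in Sh, ∫⁻ x : E 2,
          ‖op a κ s t G x‖ₑ ^ (4:ℝ)) :=
        mul_le_mul' le_rfl (ha4_subst h κ hκ hκ1 hhκ
          (fun s => ∫⁻ t in Sh, ∫⁻ x : E 2, ‖op a κ s t G x‖ₑ ^ (4:ℝ)))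
    _ ≤ ENNReal.ofReal h⁻¹ * (ENNReal.ofReal (Real.exp 6) *
        (C * ENNReal.ofReal (T ^ (-1 + 2 * δ) * κ ^ (4 + δ)) * NN κ δ G)) :=
        mul_le_mul' le_rfl (mul_le_mul' le_rfl hW)
    _ = _ := by
        rw [ENNReal.ofReal_mul (inv_pos.2 hh).le]
        ring

end Pool.Agent.MSV
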