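import Pool.Agent.MSV.Defs

namespace Pool.Agent.MSV

open MeasureTheory Set Pool.Agent.MP_6cbfb8_an Pool.Agent.MST
open scoped ENNReal NNReal Real

/-- the rotation, as a function -/
noncomputable def hfl_f (θ : ℝ) (w : E 2) : E 2 :=
  !₂[Real.cos θ * w 0 + Real.sin θ * w 1, Real.cos θ * w 1 - Real.sin θ * w 0]

theorem hfl_f0 (θ : ℝ) (w : E 2) : hfl_f θ w 0 = Real.cos θ * w 0 + Real.sin θ * w 1 := rfl

theorem hfl_f1 (θ : ℝ) (w : E 2) : hfl_f θ w 1 = Real.cos θ * w 1 - Real.sin θ * w 0 := rfl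

theorem hfl_ext {v w : E 2} (h0 : v 0 = w 0) (h1 : v 1 = w 1) : v = w := by
  ext i
  fin_cases i
  · exact h0
  · exact h1

theorem hfl_ff (θ θ' : ℝ) (w : E 2) : hfl_f θ (hfl_f θ' w) = hfl_f (θ + θ') w := by
  apply hfl_ext
  · rw [hfl_f0, hfl_f0, hfl_f0, hfl_f1, Real.cos_add, Real.sin_add]
    ring
  · rw [hfl_f1, hfl_f1, hfl_f0, hfl_f1, Real.cos_add, Real.sin_add]
    ring

theorem hfl_zero (w : E 2) : hfl_f 0 w = w := by
  apply hfl_ext
  · rw [hfl_f0, Real.cos_zero, Real.sin_zero]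
    ring
  · rw [hfl_f1, Real.cos_zero, Real.sin_zero]
    ring

theorem hfl_norm (θ : ℝ) (w : E 2) : ‖hfl_f θ w‖ = ‖w‖ := by
  rw [EuclideanSpace.norm_eq, EuclideanSpace.norm_eq]
  congr 1
  rw [Fin.sum_univ_two, Fin.sum_univ_two, hfl_f0, hfl_f1]
  simp only [Real.norm_eq_abs, sq_abs]
  linear_combination (w 0 ^ 2 + w 1 ^ 2) * Real.sin_sq_add_cos_sq θ

/-- the rotation -/
noncomputable def hfl_R (θ : ℝ) : E 2 ≃ₗᵢ[ℝ] E 2 where
  toFun := hfl_f θ
  map_add' v w := by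
    apply hfl_ext
    · simp only [PiLp.add_apply, hfl_f0]
      ring
    · simp only [PiLp.add_apply, hfl_f1]
      ring
  map_smul' r w := by
    apply hfl_ext
    · simp only [PiLp.smul_apply, hfl_f0, smul_eq_mul, RingHom.id_apply]
      ring
    · simp only [PiLp.smul_apply, hfl_f1, smul_eq_mul, RingHom.id_apply]
      ring
  invFun := hfl_f (-θ)
  left_inv w := by rw [hfl_ff, neg_add_cancel, hfl_zero]
  right_inv w := by rw [hfl_ff, add_neg_cancel, hfl_zero]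
  norm_map' := hfl_norm θ

theorem hfl_R_apply (θ : ℝ) (w : E 2) : hfl_R θ w = hfl_f θ w := rfl

theorem hfl_eq (c τ : ℝ) (w : E 2) : fl c τ w = Real.exp (-τ) • hfl_R (c * τ) w := rfl

theorem hfl_inner (θ : ℝ) (u x : E 2) :
    inner ℝ (hfl_R (-θ) u) x = inner ℝ u (hfl_R θ x) := by
  rw [← (hfl_R θ).inner_map_map (hfl_R (-θ) u) x]
  congr 1
  rw [hfl_R_apply, hfl_R_apply, hfl_ff, add_neg_cancel, hfl_zero]

theorem hfl_scale (c τ : ℝ) : |(Real.exp (-τ) ^ Module.finrank ℝ (E 2))⁻¹| = Real.exp (2 * τ) := by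
  have h : Module.finrank ℝ (E 2) = 2 := finrank_euclideanSpace_fin
  rw [h, ← Real.exp_nat_mul, ← Real.exp_neg, Real.abs_exp]
  congr 1
  push_cast
  ring

/-- change of variables, no measurability needed -/
theorem hfl_lint (c τ : ℝ) (φ : E 2 → ℝ≥0∞) :
    ∫⁻ w, φ (fl c τ w) = ENNReal.ofReal (Real.exp (2 * τ)) * ∫⁻ w, φ w := by
  have hr : Real.exp (-τ) ≠ 0 := (Real.exp_pos _).ne'
  have h1 : ∫⁻ w, φ (fl c τ w) = ∫⁻ w : E 2, φ (Real.exp (-τ) • w) :=
    (hfl_R (c * τ)).measurePreserving.lintegral_comp_emb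
      (hfl_R (c * τ)).toHomeomorph.measurableEmbedding fun w => φ (Real.exp (-τ) • w)
  have h2 := lintegral_map_equiv (μ := (volume : Measure (E 2))) φ
    (Homeomorph.smulOfNeZero (α := E 2) (Real.exp (-τ)) hr).toMeasurableEquiv
  have h3 : Measure.map (fun w : E 2 => Real.exp (-τ) • w) volume =
      ENNReal.ofReal (Real.exp (2 * τ)) • (volume : Measure (E 2)) := by
    rw [← hfl_scale c τ]
    exact Measure.map_addHaar_smul (volume : Measure (E 2)) hr
  rw [h1]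
  change ∫⁻ a, φ a ∂(Measure.map (fun w : E 2 => Real.exp (-τ) • w) volume) =
    ∫⁻ w : E 2, φ (Real.exp (-τ) • w) at h2
  rw [← h2, h3, lintegral_smul_measure]
  rfl

theorem hfl_int (c τ : ℝ) (f : E 2 → ℂ) :
    ∫ w, f (fl c τ w) = (Real.exp (2 * τ) : ℂ) * ∫ w, f w := by
  have h1 : ∫ w, f (fl c τ w) = ∫ w : E 2, f (Real.exp (-τ) • w) :=
    (hfl_R (c * τ)).measurePreserving.integral_comp
      (hfl_R (c * τ)).toHomeomorph.measurableEmbedding fun w => f (Real.exp (-τ) • w)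
  rw [h1, Measure.integral_comp_smul, hfl_scale c τ, Complex.real_smul]

theorem hfl_amp (a : ℝ → ℝ) (κ t s ρ : ℝ) : amp a κ 1 t (s * ρ) = amp a κ s t ρ := by
  have h : vv κ 1 (s * ρ) = vv κ s ρ := by
    unfold vv
    rw [one_mul]
  unfold amp
  rw [h]

/-
ROW FL (1 h). The flow fl c τ (elementary).
norm_fl, fl_fl: EuclideanSpace.norm_eq / ext on the two coordinates, addition theorems for cos (c(τ+τ')), exp. Define the rotation
O : E 2 ≃ₗᵢ[ℝ] E 2 (or use LinearIsometry.toLinearIsometryEquiv of the linear isometry given by the matrix), fl c τ w = exp(-τ) • O w.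
lintegral_fl: O preserves the volume (LinearIsometryEquiv.measurePreserving), and w ↦ exp(-τ) • w scales it:
Measure.lintegral_comp_smul / `MeasureTheory.Measure.addHaar_smul`-type lemma (map_addHaar_smul), finrank (E 2) = 2.
op_fl: with f u := G u * amp a κ 1 t (exp(2τ) ‖u‖²) * ex (inner (exp τ • O⁻¹ u) x), the integrand at w is f (fl c τ w) (w = exp τ • O⁻¹ (fl c τ w),
‖w‖² = exp(2τ) ‖fl c τ w‖²), so op a κ 1 t (G ∘ fl c τ) x = exp(2τ) ∫ f (Bochner versions: LinearIsometryEquiv.measurePreserving.integral_comp',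
Measure.integral_comp_smul). vv κ 1 (exp(2τ) ρ) = vv κ (exp(2τ)) ρ, so amp a κ 1 t (exp(2τ)ρ) = amp a κ (exp(2τ)) t ρ, and
inner (exp τ • O⁻¹ u) x = inner u (exp τ • O x). Hence = exp(2τ) op a κ (exp(2τ)) t G (exp τ • O x). Fourth power: exp(8τ), and the change of variables
x ↦ exp τ • O x gives exp(-2τ).
-/
theorem norm_fl (c τ : ℝ) (w : E 2) : ‖fl c τ w‖ = Real.exp (-τ) * ‖w‖ := by
  rw [hfl_eq, norm_smul, Real.norm_eq_abs, Real.abs_exp, LinearIsometryEquiv.norm_map]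

theorem fl_fl (c τ τ' : ℝ) (w : E 2) : fl c τ (fl c τ' w) = fl c (τ + τ') w := by
  rw [hfl_eq, hfl_eq, hfl_eq, map_smul, smul_smul, ← Real.exp_add, hfl_R_apply, hfl_R_apply,
    hfl_R_apply, hfl_ff]
  congr 2
  · ring
  · ring

theorem continuous_fl (c : ℝ) : Continuous fun q : ℝ × E 2 => fl c q.1 q.2 := by
  have h0 : Continuous fun q : ℝ × E 2 => q.2 0 :=
    (EuclideanSpace.proj (𝕜 := ℝ) (0 : Fin 2)).continuous.comp continuous_snd
  have h1 : Continuous fun q : ℝ × E 2 => q.2 1 :=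
    (EuclideanSpace.proj (𝕜 := ℝ) (1 : Fin 2)).continuous.comp continuous_snd
  have hc : Continuous fun q : ℝ × E 2 => Real.cos (c * q.1) := by fun_prop
  have hs : Continuous fun q : ℝ × E 2 => Real.sin (c * q.1) := by fun_prop
  have he : Continuous fun q : ℝ × E 2 => Real.exp (-q.1) := by fun_prop
  unfold fl
  refine he.smul ?_
  refine (PiLp.continuous_toLp 2 (fun _ : Fin 2 => ℝ)).comp (continuous_pi fun i => ?_)
  fin_cases i
  · exact (hc.mul h0).add (hs.mul h1)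
  · exact (hc.mul h1).sub (hs.mul h0)

theorem lintegral_fl (c τ : ℝ) (φ : E 2 → ℝ≥0∞) (hφ : Measurable φ) :
    ∫⁻ w, φ (fl c τ w) = ENNReal.ofReal (Real.exp (2 * τ)) * ∫⁻ w, φ w := by
  exact hfl_lint c τ φ

theorem op_fl (a : ℝ → ℝ) (κ t c τ : ℝ) (G : E 2 → ℂ) :
    ∫⁻ x : E 2, ‖op a κ 1 t (fun w => G (fl c τ w)) x‖ₑ ^ (4:ℝ) =
      ENNReal.ofReal (Real.exp (6 * τ)) *
        ∫⁻ x : E 2, ‖op a κ (Real.exp (2 * τ)) t G x‖ₑ ^ (4:ℝ) := by
  have key : ∀ x : E 2, op a κ 1 t (fun w => G (fl c τ w)) x =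
      (Real.exp (2 * τ) : ℂ) * op a κ (Real.exp (2 * τ)) t G (fl (-c) (-τ) x) := by
    intro x
    unfold op
    rw [← hfl_int c τ]
    refine integral_congr_ae (Filter.Eventually.of_forall fun w => ?_)
    simp only
    have h1 : ‖w‖ ^ 2 = Real.exp (2 * τ) * ‖fl c τ w‖ ^ 2 := by
      rw [norm_fl, mul_pow, ← mul_assoc, ← Real.exp_nat_mul, ← Real.exp_add]
      have : 2 * τ + ((2 : ℕ) : ℝ) * -τ = 0 := by
        push_cast
        ring
      rw [this, Real.exp_zero, one_mul]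
    have h2 : inner ℝ (fl c τ w) (fl (-c) (-τ) x) = inner ℝ w x := by
      have e1 : -c * -τ = c * τ := by ring
      rw [hfl_eq, hfl_eq, e1, real_inner_smul_left, real_inner_smul_right,
        LinearIsometryEquiv.inner_map_map, ← mul_assoc, ← Real.exp_add]
      simp
    rw [h2, h1, hfl_amp]
  have h3 : ∀ x : E 2, ‖op a κ 1 t (fun w => G (fl c τ w)) x‖ₑ ^ (4:ℝ) =
      ENNReal.ofReal (Real.exp (8 * τ)) *
        ‖op a κ (Real.exp (2 * τ)) t G (fl (-c) (-τ) x)‖ₑ ^ (4:ℝ) := by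
    intro x
    rw [key, enorm_mul, ENNReal.mul_rpow_of_nonneg _ _ (by norm_num)]
    congr 1
    rw [← ofReal_norm, Complex.norm_real, Real.norm_eq_abs, Real.abs_exp,
      ENNReal.ofReal_rpow_of_pos (Real.exp_pos _), ← Real.exp_mul]
    congr 2
    ring
  rw [lintegral_congr h3, lintegral_const_mul' _ _ ENNReal.ofReal_ne_top,
    hfl_lint (-c) (-τ) fun x => ‖op a κ (Real.exp (2 * τ)) t G x‖ₑ ^ (4:ℝ), ← mul_assoc,
    ← ENNReal.ofReal_mul (Real.exp_pos _).le, ← Real.exp_add]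
  congr 3
  ring

end Pool.Agent.MSV
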