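import Pool.Agent.MST.OB
import Pool.Agent.MSV.FL

namespace Pool.Agent.MSV

open MeasureTheory Set Pool.Agent.MP_6cbfb8_an Pool.Agent.MST
open scoped ENNReal NNReal Real

theorem hav_norm_tw (b τ : ℝ) : ‖tw b τ‖ = 1 := by
  unfold tw
  exact Complex.norm_exp_ofReal_mul_I _

theorem hav_enorm_tw (b τ : ℝ) : ‖tw b τ‖ₑ = 1 := by
  rw [← ofReal_norm, hav_norm_tw, ENNReal.ofReal_one]

theorem hav_continuous_tw (b : ℝ) : Continuous (tw b) := by
  unfold tw
  fun_prop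

theorem hav_tw_add (b τ τ' : ℝ) : tw b (τ + τ') = tw b τ * tw b τ' := by
  unfold tw
  rw [← Complex.exp_add]
  congr 1
  push_cast
  ring

/-- joint measurability of the integrand -/
theorem hav_meas2 (b c : ℝ) (G : E 2 → ℂ) (hG : Measurable G) :
    Measurable fun q : E 2 × ℝ => tw b q.2 * G (fl c q.2 q.1) := by
  have h1 : Measurable fun q : E 2 × ℝ => tw b q.2 :=
    (hav_continuous_tw b).measurable.comp measurable_snd
  have h2 : Measurable fun q : E 2 × ℝ => fl c q.2 q.1 := by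
    have h3 : Continuous fun q : E 2 × ℝ => fl c q.2 q.1 :=
      (continuous_fl c).comp (continuous_snd.prodMk continuous_fst)
    exact h3.measurable
  exact h1.mul (hG.comp h2)

theorem hav_measτ (c : ℝ) (w : E 2) : Measurable fun τ : ℝ => fl c τ w := by
  have h : Continuous fun τ : ℝ => fl c τ w :=
    (continuous_fl c).comp (continuous_id.prodMk continuous_const)
  exact h.measurable

theorem hav_meas1 (b c : ℝ) (G : E 2 → ℂ) (hG : Measurable G) (w : E 2) :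
    Measurable fun τ : ℝ => tw b τ * G (fl c τ w) :=
  (hav_continuous_tw b).measurable.mul (hG.comp (hav_measτ c w))

theorem hav_int (b c B x y : ℝ) (G : E 2 → ℂ) (hG : Measurable G) (hb : ∀ w, ‖G w‖ ≤ B)
    (w : E 2) : IntervalIntegrable (fun τ => tw b τ * G (fl c τ w)) volume x y := by
  refine (intervalIntegrable_const (c := B)).mono_fun'
    (hav_meas1 b c G hG w).aestronglyMeasurable ?_
  refine Filter.Eventually.of_forall fun τ => ?_
  change ‖tw b τ * G (fl c τ w)‖ ≤ B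
  rw [norm_mul, hav_norm_tw, one_mul]
  exact hb _

/-- Cauchy–Schwarz -/
theorem hav_cs {α : Type*} [MeasurableSpace α] (μ : Measure α) (f : α → ℝ≥0∞)
    (hf : AEMeasurable f μ) : (∫⁻ x, f x ∂μ) ^ (2:ℝ) ≤ μ univ * ∫⁻ x, f x ^ (2:ℝ) ∂μ := by
  have hpq : (2:ℝ).HolderConjugate 2 := Real.HolderConjugate.two_two
  have h := ENNReal.lintegral_mul_le_Lp_mul_Lq μ hpq hf (aemeasurable_const (b := (1 : ℝ≥0∞)))
  simp only [Pi.mul_apply, mul_one, ENNReal.one_rpow, lintegral_one] at h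
  calc (∫⁻ x, f x ∂μ) ^ (2:ℝ)
      ≤ ((∫⁻ x, f x ^ (2:ℝ) ∂μ) ^ (1 / 2 : ℝ) * (μ univ) ^ (1 / 2 : ℝ)) ^ (2:ℝ) :=
        ENNReal.rpow_le_rpow h (by norm_num)
    _ = μ univ * ∫⁻ x, f x ^ (2:ℝ) ∂μ := by
        rw [ENNReal.mul_rpow_of_nonneg _ _ (by norm_num), ← ENNReal.rpow_mul, ← ENNReal.rpow_mul]
        norm_num
        rw [mul_comm]

/-
ROW AV (1 h). Averages along the flow (elementary).
measurable_av: the integrand (w, τ) ↦ tw b τ * G (fl c τ w) is measurable (continuous_fl), StronglyMeasurable.integral_prod_right' for the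
measure volume.restrict (Ioc 0 h) (intervalIntegral with 0 ≤ h; for h < 0 use Ioc h 0; or write intervalIntegral as a difference of two).
norm_av_le: ‖tw‖ = 1, ‖∫‖ ≤ h·1.
av_telescope: h⁻¹ ∫_0^h = h⁻¹ ∫_0^{h/2} + h⁻¹ ∫_{h/2}^h, and in the second τ = h/2 + τ': tw b (h/2+τ') = tw b τ' tw b (h/2),
fl c (h/2+τ') w = fl c (h/2) (fl c τ' w); so av h G = (1/2) av (h/2) (G + U G), U G w = tw b (h/2) * G (fl c (h/2) w), and
av (h/2) G - av h G = av (h/2) ((G - U G)/2). Integrability: bounded measurable on a bounded interval.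
av_sq: Jensen / Cauchy–Schwarz: ‖av b c h F w‖ₑ^2 ≤ h⁻¹ ∫⁻ τ in Ioc 0 h, ‖F (fl c τ w)‖ₑ^2 (enorm_integral_le_lintegral_enorm and
ENNReal Hölder, or `ENNReal.lintegral_mul_norm_pow_le`...; the same for the fourth power, av_four).
-/
theorem measurable_av (b c h : ℝ) (G : E 2 → ℂ) (hG : Measurable G) : Measurable (av b c h G) := by
  have hm := (hav_meas2 b c G hG).stronglyMeasurable
  have h1 : Measurable fun w : E 2 => ∫ τ in Ioc (0:ℝ) h, tw b τ * G (fl c τ w) :=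
    (hm.integral_prod_right' (ν := volume.restrict (Ioc (0:ℝ) h))).measurable
  have h2 : Measurable fun w : E 2 => ∫ τ in Ioc h (0:ℝ), tw b τ * G (fl c τ w) :=
    (hm.integral_prod_right' (ν := volume.restrict (Ioc h (0:ℝ)))).measurable
  unfold av intervalIntegral
  exact (h1.sub h2).const_mul _

theorem norm_av_le (b c h : ℝ) (hh : 0 < h) (G : E 2 → ℂ) (hb : ∀ w, ‖G w‖ ≤ 1)
    (w : E 2) : ‖av b c h G w‖ ≤ 1 := by
  unfold av
  have h1 : ‖∫ τ in (0:ℝ)..h, tw b τ * G (fl c τ w)‖ ≤ 1 * |h - 0| := by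
    apply intervalIntegral.norm_integral_le_of_norm_le_const
    intro τ _
    rw [norm_mul, hav_norm_tw, one_mul]
    exact hb _
  rw [sub_zero, abs_of_pos hh, one_mul] at h1
  rw [norm_mul, Complex.norm_real, Real.norm_of_nonneg (inv_nonneg.2 hh.le)]
  calc h⁻¹ * ‖∫ τ in (0:ℝ)..h, tw b τ * G (fl c τ w)‖ ≤ h⁻¹ * h :=
        mul_le_mul_of_nonneg_left h1 (inv_nonneg.2 hh.le)
    _ = 1 := inv_mul_cancel₀ hh.ne'

theorem av_telescope (b c h : ℝ) (hh : 0 < h) (G : E 2 → ℂ) (hG : Measurable G)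
    (hb : ∀ w, ‖G w‖ ≤ 1) (w : E 2) :
    av b c (h / 2) G w - av b c h G w =
      av b c (h / 2) (fun u => (G u - tw b (h / 2) * G (fl c (h / 2) u)) / 2) w := by
  have hfl : Measurable (fl c (h / 2)) := by
    have h3 : Continuous (fl c (h / 2)) :=
      (continuous_fl c).comp (continuous_const.prodMk continuous_id)
    exact h3.measurable
  have hG2 : Measurable fun u => tw b (h / 2) * G (fl c (h / 2) u) :=
    (hG.comp hfl).const_mul _
  have hb2 : ∀ u, ‖tw b (h / 2) * G (fl c (h / 2) u)‖ ≤ 1 := by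
    intro u
    rw [norm_mul, hav_norm_tw, one_mul]
    exact hb _
  have i1 := hav_int b c 1 0 (h / 2) G hG hb w
  have i2 := hav_int b c 1 (h / 2) h G hG hb w
  have i3 := hav_int b c 1 0 (h / 2) _ hG2 hb2 w
  -- the second half
  have e1 : ∫ τ in (h / 2)..h, tw b τ * G (fl c τ w) =
      ∫ τ in (0:ℝ)..(h / 2), tw b τ * (tw b (h / 2) * G (fl c (h / 2) (fl c τ w))) := by
    have e2 := intervalIntegral.integral_comp_add_right
      (fun τ => tw b τ * G (fl c τ w)) (h / 2) (a := 0) (b := h / 2)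
    have e3 : h / 2 + h / 2 = h := by ring
    rw [zero_add, e3] at e2
    rw [← e2]
    apply intervalIntegral.integral_congr
    intro τ _
    change tw b (τ + h / 2) * G (fl c (τ + h / 2) w) =
      tw b τ * (tw b (h / 2) * G (fl c (h / 2) (fl c τ w)))
    rw [hav_tw_add, fl_fl, add_comm (h / 2) τ]
    ring
  have e4 : ∫ τ in (0:ℝ)..h, tw b τ * G (fl c τ w) =
      (∫ τ in (0:ℝ)..(h / 2), tw b τ * G (fl c τ w)) +
      ∫ τ in (0:ℝ)..(h / 2), tw b τ * (tw b (h / 2) * G (fl c (h / 2) (fl c τ w))) := by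
    rw [← e1, intervalIntegral.integral_add_adjacent_intervals i1 i2]
  have e5 : ∫ τ in (0:ℝ)..(h / 2), tw b τ *
        ((G (fl c τ w) - tw b (h / 2) * G (fl c (h / 2) (fl c τ w))) / 2) =
      ((∫ τ in (0:ℝ)..(h / 2), tw b τ * G (fl c τ w)) -
      ∫ τ in (0:ℝ)..(h / 2), tw b τ * (tw b (h / 2) * G (fl c (h / 2) (fl c τ w)))) / 2 := by
    rw [← intervalIntegral.integral_sub i1 i3, ← intervalIntegral.integral_div]
    apply intervalIntegral.integral_congr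
    intro τ _
    change _ = (tw b τ * G (fl c τ w) - tw b τ * (tw b (h / 2) * G (fl c (h / 2) (fl c τ w)))) / 2
    ring
  unfold av
  rw [e4, e5]
  generalize (∫ τ in (0:ℝ)..(h / 2), tw b τ * G (fl c τ w)) = I1
  generalize (∫ τ in (0:ℝ)..(h / 2),
    tw b τ * (tw b (h / 2) * G (fl c (h / 2) (fl c τ w)))) = I2
  have hh0 : (h : ℂ) ≠ 0 := Complex.ofReal_ne_zero.2 hh.ne'
  push_cast
  field_simp
  ring

theorem av_sq (b c h : ℝ) (hh : 0 < h) (G : E 2 → ℂ) (hG : Measurable G)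
    (hb : ∀ w, ‖G w‖ ≤ 2) (w : E 2) :
    ‖av b c h G w‖ₑ ^ (2:ℝ) ≤
      ENNReal.ofReal h⁻¹ * ∫⁻ τ in Ioc (0:ℝ) h, ‖G (fl c τ w)‖ₑ ^ (2:ℝ) := by
  have hm : Measurable fun τ : ℝ => ‖G (fl c τ w)‖ₑ := (hG.comp (hav_measτ c w)).enorm
  have h1 : ‖av b c h G w‖ₑ ≤ ENNReal.ofReal h⁻¹ * ∫⁻ τ in Ioc (0:ℝ) h, ‖G (fl c τ w)‖ₑ := by
    unfold av
    rw [enorm_mul, intervalIntegral.integral_of_le hh.le]
    have h2 : ‖((h⁻¹ : ℝ) : ℂ)‖ₑ = ENNReal.ofReal h⁻¹ := by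
      rw [← ofReal_norm, Complex.norm_real, Real.norm_of_nonneg (inv_nonneg.2 hh.le)]
    rw [h2]
    refine mul_le_mul_right ?_ _
    refine (enorm_integral_le_lintegral_enorm _).trans (le_of_eq ?_)
    refine lintegral_congr fun τ => ?_
    rw [enorm_mul, hav_enorm_tw, one_mul]
  have h3 := hav_cs (volume.restrict (Ioc (0:ℝ) h)) (fun τ => ‖G (fl c τ w)‖ₑ) hm.aemeasurable
  rw [Measure.restrict_apply_univ, Real.volume_Ioc, sub_zero] at h3
  calc ‖av b c h G w‖ₑ ^ (2:ℝ)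
      ≤ (ENNReal.ofReal h⁻¹ * ∫⁻ τ in Ioc (0:ℝ) h, ‖G (fl c τ w)‖ₑ) ^ (2:ℝ) :=
        ENNReal.rpow_le_rpow h1 (by norm_num)
    _ = ENNReal.ofReal h⁻¹ ^ (2:ℝ) * (∫⁻ τ in Ioc (0:ℝ) h, ‖G (fl c τ w)‖ₑ) ^ (2:ℝ) :=
        ENNReal.mul_rpow_of_nonneg _ _ (by norm_num)
    _ ≤ ENNReal.ofReal h⁻¹ ^ (2:ℝ) *
        (ENNReal.ofReal h * ∫⁻ τ in Ioc (0:ℝ) h, ‖G (fl c τ w)‖ₑ ^ (2:ℝ)) :=
        mul_le_mul_right h3 _
    _ = ENNReal.ofReal h⁻¹ * ∫⁻ τ in Ioc (0:ℝ) h, ‖G (fl c τ w)‖ₑ ^ (2:ℝ) := by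
        rw [← mul_assoc]
        congr 1
        have e1 : ENNReal.ofReal h⁻¹ ^ (2:ℝ) = ENNReal.ofReal h⁻¹ * ENNReal.ofReal h⁻¹ := by
          rw [ENNReal.rpow_two, sq]
        rw [e1, mul_assoc, ← ENNReal.ofReal_mul (inv_nonneg.2 hh.le), inv_mul_cancel₀ hh.ne',
          ENNReal.ofReal_one, mul_one]

end Pool.Agent.MSV
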