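import Pool.Agent.MSV.SH
import Pool.Agent.MST.OB

namespace Pool.Agent.MSV

open MeasureTheory Set Pool.Agent.MP_6cbfb8_an Pool.Agent.MST
open scoped ENNReal NNReal Real

theorem hsv_cover (g : ℝ → ℝ≥0∞) (R : ℝ) (hR : 0 < R) : ∫⁻ t : ℝ, g t ≤
    (∫⁻ t in {t : ℝ | |t| ≤ R}, g t) +
    ∑' i : ℕ, ∫⁻ t in {t : ℝ | 2 ^ i * R ≤ |t| ∧ |t| ≤ 2 * (2 ^ i * R)}, g t := by
  have h1 : (univ : Set ℝ) ⊆ {t : ℝ | |t| ≤ R} ∪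
      ⋃ i : ℕ, {t : ℝ | 2 ^ i * R ≤ |t| ∧ |t| ≤ 2 * (2 ^ i * R)} := by
    intro t _
    by_cases ht : |t| ≤ R
    · exact Or.inl ht
    · right
      rw [not_le] at ht
      rw [mem_iUnion]
      have h2 : 1 ≤ |t| / R := by
        rw [le_div_iff₀ hR, one_mul]
        exact ht.le
      obtain ⟨n, hn1, hn2⟩ := exists_nat_pow_near h2 (one_lt_two (α := ℝ))
      rw [le_div_iff₀ hR] at hn1
      rw [div_lt_iff₀ hR, pow_succ] at hn2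
      refine ⟨n, hn1, ?_⟩
      linarith
  calc ∫⁻ t : ℝ, g t = ∫⁻ t in univ, g t := by rw [Measure.restrict_univ]
    _ ≤ ∫⁻ t in ({t : ℝ | |t| ≤ R} ∪ ⋃ i : ℕ,
          {t : ℝ | 2 ^ i * R ≤ |t| ∧ |t| ≤ 2 * (2 ^ i * R)}), g t := lintegral_mono_set h1
    _ ≤ (∫⁻ t in {t : ℝ | |t| ≤ R}, g t) +
        ∫⁻ t in (⋃ i : ℕ, {t : ℝ | 2 ^ i * R ≤ |t| ∧ |t| ≤ 2 * (2 ^ i * R)}), g t :=
        lintegral_union_le _ _ _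
    _ ≤ _ := by
        gcongr
        exact lintegral_iUnion_le _ _

theorem hsv_enorm {z : ℂ} {r : ℝ} (h : ‖z‖ ≤ r) : ‖z‖ₑ ≤ ENNReal.ofReal r := by
  rw [← ofReal_norm]
  exact ENNReal.ofReal_le_ofReal h

theorem hsv_meas0 (O : ℝ → ℝ → E 2 → ℂ) (h : Measurable fun q : ℝ × ℝ × E 2 => O q.1 q.2.1 q.2.2)
    (s t : ℝ) : Measurable fun x : E 2 => ‖O s t x‖ₑ := by
  have h1 : Measurable fun x : E 2 => ((s : ℝ), t, x) := by fun_prop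
  have h2 : Measurable fun x : E 2 => O s t x := h.comp h1
  exact h2.enorm

theorem hsv_meas (a : ℝ → ℝ) (ha : Cut a) (κ t : ℝ) (G : E 2 → ℂ) (hG : Measurable G) :
    Measurable fun x : E 2 => ‖op a κ 1 t G x‖ₑ :=
  hsv_meas0 (fun s t x => op a κ s t G x) (measurable_op a ha κ G hG) 1 t

/-- the case `3 < p < 4` -/
theorem hsv_case (a : ℝ → ℝ) (ha : Cut a) (p : ℝ) (hp : 3 < p) (hp4 : p < 4) (A : ℝ → ℝ≥0) :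
    ∃ C : ℝ≥0∞, C ≠ ∞ ∧ ∀ κ : ℝ, 0 < κ → κ ≤ 1 →
    ∀ (b c : ℝ) (G : E 2 → ℂ), Measurable G → (∀ w, ‖G w‖ ≤ 1) → RV A b c G →
    ∫⁻ t : ℝ, ∫⁻ x : E 2, ‖op a κ 1 t G x‖ₑ ^ p ≤
      C * ENNReal.ofReal (κ ^ (p + (p - 3) / 16)) := by
  obtain ⟨C1, hC1, hsup⟩ := strip_sup a ha 1 one_pos
  obtain ⟨C2, hC2, hL2⟩ := strip_L2 a ha 1 one_pos
  obtain ⟨C3, hC3, hsh⟩ := shell_V a ha p hp hp4 A
  obtain ⟨ρ, hρ⟩ : ∃ ρ : ℝ, ρ = (2:ℝ) ^ (-((p - 3) / 8)) := ⟨_, rfl⟩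
  have hρ0 : 0 < ρ := by rw [hρ]; positivity
  have hρ1 : ρ < 1 := by
    rw [hρ]
    exact Real.rpow_lt_one_of_one_lt_of_neg one_lt_two (by linarith)
  refine ⟨ENNReal.ofReal (2 * C1 ^ (p - 2) * C2) + C3 * (1 - ENNReal.ofReal ρ)⁻¹, ?_, ?_⟩
  · refine ENNReal.add_ne_top.2 ⟨ENNReal.ofReal_ne_top, ENNReal.mul_ne_top hC3 ?_⟩
    rw [ENNReal.inv_ne_top, Ne, tsub_eq_zero_iff_le, not_le]
    exact ENNReal.ofReal_lt_one.2 hρ1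
  intro κ hκ hκ1 b c G hG hb hRV
  have hκi : 0 < κ⁻¹ := inv_pos.2 hκ
  have hκi1 : 1 ≤ κ⁻¹ := (one_le_inv₀ hκ).2 hκ1
  -- small times
  have hpt : ∀ t : ℝ, ∫⁻ x : E 2, ‖op a κ 1 t G x‖ₑ ^ p ≤
      ENNReal.ofReal (C1 ^ (p - 2) * C2 * κ ^ (2 * p - 2)) := by
    intro t
    refine (lintegral_rpow_le_sup _ (hsv_meas a ha κ t G hG) zero_le_two (by linarith)
      (ENNReal.ofReal (C1 * κ ^ 2))
      (fun x => hsv_enorm (hsup κ 1 t hκ hκ1 le_rfl G hG hb x))).trans ?_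
    refine (mul_le_mul_right (hL2 κ 1 t hκ hκ1 le_rfl G hG hb) _).trans ?_
    rw [ENNReal.ofReal_rpow_of_pos (by positivity), ← ENNReal.ofReal_mul (by positivity)]
    apply le_of_eq
    congr 1
    rw [Real.mul_rpow hC1.le (by positivity)]
    have e1 : (κ ^ 2) ^ (p - 2) * κ ^ 2 = κ ^ (2 * p - 2) := by
      rw [← Real.rpow_natCast κ 2, ← Real.rpow_mul hκ.le, ← Real.rpow_add hκ]
      congr 1
      push_cast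
      ring
    calc C1 ^ (p - 2) * (κ ^ 2) ^ (p - 2) * (C2 * κ ^ 2)
        = C1 ^ (p - 2) * C2 * ((κ ^ 2) ^ (p - 2) * κ ^ 2) := by ring
      _ = _ := by rw [e1]
  have hvol : volume {t : ℝ | |t| ≤ κ⁻¹} = ENNReal.ofReal (2 * κ⁻¹) := by
    have h4 : {t : ℝ | |t| ≤ κ⁻¹} = Icc (-κ⁻¹) κ⁻¹ := by
      ext t
      rw [mem_ofPred_eq, mem_Icc]
      exact abs_le
    rw [h4, Real.volume_Icc]
    congr 1
    ring
  have hsmall : ∫⁻ t in {t : ℝ | |t| ≤ κ⁻¹}, ∫⁻ x : E 2, ‖op a κ 1 t G x‖ₑ ^ p ≤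
      ENNReal.ofReal (2 * C1 ^ (p - 2) * C2) * ENNReal.ofReal (κ ^ (p + (p - 3) / 16)) := by
    calc ∫⁻ t in {t : ℝ | |t| ≤ κ⁻¹}, ∫⁻ x : E 2, ‖op a κ 1 t G x‖ₑ ^ p
        ≤ ∫⁻ _t in {t : ℝ | |t| ≤ κ⁻¹}, ENNReal.ofReal (C1 ^ (p - 2) * C2 * κ ^ (2 * p - 2)) :=
          lintegral_mono hpt
      _ = ENNReal.ofReal (C1 ^ (p - 2) * C2 * κ ^ (2 * p - 2)) * ENNReal.ofReal (2 * κ⁻¹) := by
          rw [setLIntegral_const, hvol]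
      _ ≤ _ := by
          rw [← ENNReal.ofReal_mul (by positivity), ← ENNReal.ofReal_mul (by positivity)]
          apply ENNReal.ofReal_le_ofReal
          have e1 : κ ^ (2 * p - 2) * κ⁻¹ = κ ^ (2 * p - 3) := by
            rw [← Real.rpow_neg_one κ, ← Real.rpow_add hκ]
            congr 1
            ring
          have e2 : κ ^ (2 * p - 3) ≤ κ ^ (p + (p - 3) / 16) :=
            Real.rpow_le_rpow_of_exponent_ge hκ hκ1 (by linarith)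
          calc C1 ^ (p - 2) * C2 * κ ^ (2 * p - 2) * (2 * κ⁻¹)
              = 2 * C1 ^ (p - 2) * C2 * (κ ^ (2 * p - 2) * κ⁻¹) := by ring
            _ = 2 * C1 ^ (p - 2) * C2 * κ ^ (2 * p - 3) := by rw [e1]
            _ ≤ _ := mul_le_mul_of_nonneg_left e2 (by positivity)
  -- shells
  have hshell : ∀ i : ℕ, ∫⁻ t in {t : ℝ | 2 ^ i * κ⁻¹ ≤ |t| ∧ |t| ≤ 2 * (2 ^ i * κ⁻¹)},
      ∫⁻ x : E 2, ‖op a κ 1 t G x‖ₑ ^ p ≤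
      C3 * ENNReal.ofReal (κ ^ (p + (p - 3) / 16)) * ENNReal.ofReal ρ ^ i := by
    intro i
    have h2i : (1:ℝ) ≤ 2 ^ i := one_le_pow₀ one_le_two
    have hT : 1 ≤ 2 ^ i * κ⁻¹ := by nlinarith
    refine (hsh κ (2 ^ i * κ⁻¹) hκ hκ1 hT b c G hG hb hRV).trans ?_
    rw [mul_assoc]
    apply le_of_eq
    congr 1
    rw [← ENNReal.ofReal_pow hρ0.le, ← ENNReal.ofReal_mul (by positivity)]
    congr 1
    rw [Real.mul_rpow (by positivity) hκi.le, hρ]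
    have e1 : ((2:ℝ) ^ i) ^ (-((p - 3) / 8)) = ((2:ℝ) ^ (-((p - 3) / 8))) ^ i := by
      rw [← Real.rpow_natCast 2 i, ← Real.rpow_natCast ((2:ℝ) ^ (-((p - 3) / 8))) i,
        ← Real.rpow_mul zero_le_two, ← Real.rpow_mul zero_le_two, mul_comm]
    have e2 : κ⁻¹ ^ (-((p - 3) / 8)) * κ ^ (p - (p - 3) / 16) = κ ^ (p + (p - 3) / 16) := by
      rw [Real.inv_rpow hκ.le, ← Real.rpow_neg hκ.le, neg_neg, ← Real.rpow_add hκ]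
      congr 1
      ring
    rw [e1, ← e2]
    ring
  calc ∫⁻ t : ℝ, ∫⁻ x : E 2, ‖op a κ 1 t G x‖ₑ ^ p
      ≤ (∫⁻ t in {t : ℝ | |t| ≤ κ⁻¹}, ∫⁻ x : E 2, ‖op a κ 1 t G x‖ₑ ^ p) +
        ∑' i : ℕ, ∫⁻ t in {t : ℝ | 2 ^ i * κ⁻¹ ≤ |t| ∧ |t| ≤ 2 * (2 ^ i * κ⁻¹)},
          ∫⁻ x : E 2, ‖op a κ 1 t G x‖ₑ ^ p := hsv_cover _ _ hκi
    _ ≤ ENNReal.ofReal (2 * C1 ^ (p - 2) * C2) * ENNReal.ofReal (κ ^ (p + (p - 3) / 16)) +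
        ∑' i : ℕ, C3 * ENNReal.ofReal (κ ^ (p + (p - 3) / 16)) * ENNReal.ofReal ρ ^ i :=
        add_le_add hsmall (ENNReal.tsum_le_tsum hshell)
    _ = _ := by
        rw [ENNReal.tsum_mul_left, ENNReal.tsum_geometric]
        ring

/-
ROW SV (1 h). The bound for one strip.
Case 3 < p < 4: cover ℝ by {|t| < 1/κ} and the shells T = 2^j/κ ≥ 1, j ∈ ℕ (lintegral_iUnion_le, see the proof of time_sum in
Pool/Agent/MST/TS.lean). Shells: shell_V gives C Σ_j (2^j/κ)^(-(p-3)/8) κ^(p-(p-3)/16) ≤ C' κ^(p+(p-3)/16) (geometric series). |t| < 1/κ: for each t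
 ∫⁻ x ‖op‖^p ≤ (Cκ²)^(p-2) Cκ² (strip_sup, strip_L2 of OB.lean with s0 = s = 1), and the length is 2/κ: C κ^(2p-3) = C κ^(p+(p-3)) ≤ C κ^(p+(p-3)/16).
Case p ≥ 4: ‖op‖^p ≤ (Cκ²)^(p-7/2) ‖op‖^(7/2) (strip_sup) and the first case for 7/2: κ^(2p-7) κ^(7/2+1/32) ≤ κ^(p+1/32) as 2p-7+7/2 ≥ p, κ ≤ 1.
-/
theorem strip_V (a : ℝ → ℝ) (ha : Cut a) (p : ℝ) (hp : 3 < p) (A : ℝ → ℝ≥0) :
    ∃ C : ℝ≥0∞, C ≠ ∞ ∧ ∃ ε : ℝ, 0 < ε ∧ ∀ κ : ℝ, 0 < κ → κ ≤ 1 →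
    ∀ (b c : ℝ) (G : E 2 → ℂ), Measurable G → (∀ w, ‖G w‖ ≤ 1) → RV A b c G →
    ∫⁻ t : ℝ, ∫⁻ x : E 2, ‖op a κ 1 t G x‖ₑ ^ p ≤ C * ENNReal.ofReal (κ ^ (p + ε)) := by
  by_cases hp4 : p < 4
  · obtain ⟨C, hC, h⟩ := hsv_case a ha p hp hp4 A
    exact ⟨C, hC, (p - 3) / 16, by linarith, h⟩
  push Not at hp4
  obtain ⟨C, hC, h⟩ := hsv_case a ha (7 / 2) (by norm_num) (by norm_num) A
  obtain ⟨C1, hC1, hsup⟩ := strip_sup a ha 1 one_pos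
  refine ⟨ENNReal.ofReal (C1 ^ (p - 7 / 2)) * C, ENNReal.mul_ne_top ENNReal.ofReal_ne_top hC,
    1 / 32, by norm_num, ?_⟩
  intro κ hκ hκ1 b c G hG hb hRV
  have hpt : ∀ t : ℝ, ∫⁻ x : E 2, ‖op a κ 1 t G x‖ₑ ^ p ≤
      ENNReal.ofReal (C1 * κ ^ 2) ^ (p - 7 / 2) *
        ∫⁻ x : E 2, ‖op a κ 1 t G x‖ₑ ^ (7 / 2 : ℝ) := by
    intro t
    exact lintegral_rpow_le_sup _ (hsv_meas a ha κ t G hG) (by norm_num) (by linarith)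
      (ENNReal.ofReal (C1 * κ ^ 2))
      (fun x => hsv_enorm (hsup κ 1 t hκ hκ1 le_rfl G hG hb x))
  have hfin : ENNReal.ofReal (C1 * κ ^ 2) ^ (p - 7 / 2) ≠ ∞ :=
    ENNReal.rpow_ne_top_of_nonneg (by linarith) ENNReal.ofReal_ne_top
  calc ∫⁻ t : ℝ, ∫⁻ x : E 2, ‖op a κ 1 t G x‖ₑ ^ p
      ≤ ∫⁻ t : ℝ, ENNReal.ofReal (C1 * κ ^ 2) ^ (p - 7 / 2) *
        ∫⁻ x : E 2, ‖op a κ 1 t G x‖ₑ ^ (7 / 2 : ℝ) := lintegral_mono hpt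
    _ = ENNReal.ofReal (C1 * κ ^ 2) ^ (p - 7 / 2) *
        ∫⁻ t : ℝ, ∫⁻ x : E 2, ‖op a κ 1 t G x‖ₑ ^ (7 / 2 : ℝ) := lintegral_const_mul' _ _ hfin
    _ ≤ ENNReal.ofReal (C1 * κ ^ 2) ^ (p - 7 / 2) *
        (C * ENNReal.ofReal (κ ^ ((7 / 2 : ℝ) + ((7 / 2 : ℝ) - 3) / 16))) :=
        mul_le_mul_right (h κ hκ hκ1 b c G hG hb hRV) _
    _ ≤ _ := by
        rw [ENNReal.ofReal_rpow_of_pos (by positivity)]
        have e1 : (C1 * κ ^ 2) ^ (p - 7 / 2) * κ ^ ((7 / 2 : ℝ) + ((7 / 2 : ℝ) - 3) / 16) ≤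
            C1 ^ (p - 7 / 2) * κ ^ (p + 1 / 32) := by
          rw [Real.mul_rpow hC1.le (by positivity), mul_assoc]
          apply mul_le_mul_of_nonneg_left _ (by positivity)
          rw [← Real.rpow_natCast κ 2, ← Real.rpow_mul hκ.le, ← Real.rpow_add hκ]
          apply Real.rpow_le_rpow_of_exponent_ge hκ hκ1
          push_cast
          linarith
        calc ENNReal.ofReal ((C1 * κ ^ 2) ^ (p - 7 / 2)) *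
            (C * ENNReal.ofReal (κ ^ ((7 / 2 : ℝ) + ((7 / 2 : ℝ) - 3) / 16)))
            = C * (ENNReal.ofReal ((C1 * κ ^ 2) ^ (p - 7 / 2)) *
              ENNReal.ofReal (κ ^ ((7 / 2 : ℝ) + ((7 / 2 : ℝ) - 3) / 16))) := by ring
          _ = C * ENNReal.ofReal ((C1 * κ ^ 2) ^ (p - 7 / 2) *
              κ ^ ((7 / 2 : ℝ) + ((7 / 2 : ℝ) - 3) / 16)) := by
              rw [← ENNReal.ofReal_mul (by positivity)]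
          _ ≤ C * ENNReal.ofReal (C1 ^ (p - 7 / 2) * κ ^ (p + 1 / 32)) :=
              mul_le_mul_right (ENNReal.ofReal_le_ofReal e1) _
          _ = _ := by
              rw [ENNReal.ofReal_mul (by positivity)]
              ring

end Pool.Agent.MSV
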