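import Pool.Agent.MST.CO
import Pool.Agent.MST.DE
import Pool.Agent.MSV.SV

namespace Pool.Agent.MSV

open MeasureTheory Set Pool.Agent.MP_6cbfb8_an Pool.Agent.MST
open scoped ENNReal NNReal Real

/-
ROW CV (1 h). Sum over the strips at r = 1 (a simpler version of `core`, Pool/Agent/MST/CO.lean, complete: adapt it).
∫⁻ ξ ‖extn (up 1 G) ξ‖^p = ∫⁻ X ∫⁻ t ‖extn (up 1 G) (join X t)‖^p (`lintegral_join`). Insert strip_sum with r = 1 (a from `dyadic`; (1^2)⁻¹ = 1,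
1⁻¹ • X = X) and `tsum_rpow_le` (Planar.lean) with weights w_k = ofReal (2^(-η k)), η = ε/(2p):
 ‖·‖^p ≤ (Σ w)^p Σ_k (2^k ‖op a (1/2)^k 1 t G X‖)^p / w_k^p. Tonelli; strip_V bounds the k-th integral by C κ_k^(p+ε), κ_k = 2^(-k):
 (2^k)^p κ_k^(p+ε) w_k^(-p) = 2^(-εk/2): geometric series.
base_V: dens_le (DE.lean) with r = 1: dens 1 G = fun x => G (fstE x) (one_smul).
-/
theorem core_V (p : ℝ) (hp : 3 < p) (A : ℝ → ℝ≥0) : ∃ C : ℝ≥0∞, C ≠ ∞ ∧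
    ∀ (b c : ℝ) (G : E 2 → ℂ), Measurable G → (∀ w, ‖G w‖ ≤ 1) → RV A b c G →
    ∫⁻ ξ : E 3, ‖extn (up 1 G) ξ‖ₑ ^ p ≤ C := by
  obtain ⟨a, ha, hs⟩ := dyadic
  have hp0 : 0 < p := by linarith
  obtain ⟨C0, hC0, ε, hε, hstrip⟩ := strip_V a ha p hp A
  -- the weights
  set ρ : ℝ := (1 / 2) ^ (ε / (2 * p)) with hρ
  have hρ0 : 0 < ρ := by positivity
  have hρ1 : ρ < 1 := Real.rpow_lt_one (by norm_num) (by norm_num) (by positivity)
  set w : ℕ → ℝ≥0∞ := fun k => ENNReal.ofReal ρ ^ k with hw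
  have hwne : ENNReal.ofReal ρ ≠ 0 := (ENNReal.ofReal_pos.2 hρ0).ne'
  have hw0 : ∀ k, w k ≠ 0 := fun k => pow_ne_zero k hwne
  have hwt : ∀ k, w k ≠ ∞ := fun k => ENNReal.pow_ne_top ENNReal.ofReal_ne_top
  have hWt : ∑' k, w k ≠ ∞ := by
    rw [hw, ENNReal.tsum_geometric]
    refine ENNReal.inv_ne_top.2 ?_
    rw [Ne, tsub_eq_zero_iff_le, not_le, ← ENNReal.ofReal_one]
    exact (ENNReal.ofReal_lt_ofReal_iff one_pos).2 hρ1
  -- the ratio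
  set θ : ℝ≥0∞ := 2 ^ p / ENNReal.ofReal ρ ^ p * ENNReal.ofReal ((1 / 2) ^ (p + ε)) with hθ
  have hθ1 : θ < 1 := by
    have e2 : (2 : ℝ≥0∞) ^ p = ENNReal.ofReal (2 ^ p) := by
      rw [← ENNReal.ofReal_rpow_of_pos (by norm_num : (0:ℝ) < 2)]
      norm_num
    rw [hθ, e2, ENNReal.ofReal_rpow_of_pos hρ0, ← ENNReal.ofReal_div_of_pos (by positivity),
      ← ENNReal.ofReal_mul (by positivity), ← ENNReal.ofReal_one]
    refine (ENNReal.ofReal_lt_ofReal_iff one_pos).2 ?_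
    have e3 : (2:ℝ) ^ p / ρ ^ p * (1 / 2) ^ (p + ε) = (1 / 2) ^ (ε / 2) := by
      have e4 : ρ ^ p = (1 / 2) ^ (ε / 2) := by
        rw [hρ, ← Real.rpow_mul (by norm_num)]
        congr 1
        field_simp
      have e5 : (2:ℝ) ^ p = ((1 / 2 : ℝ) ^ p)⁻¹ := by
        rw [← Real.inv_rpow (by norm_num)]
        norm_num
      rw [e4, e5, Real.rpow_add (by norm_num) p ε]
      have e6 : (1 / 2 : ℝ) ^ ε = (1 / 2) ^ (ε / 2) * (1 / 2) ^ (ε / 2) := by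
        rw [← Real.rpow_add (by norm_num)]
        congr 1
        ring
      rw [e6]
      have e7 : (0:ℝ) < (1 / 2) ^ p := by positivity
      have e8 : (0:ℝ) < (1 / 2) ^ (ε / 2) := by positivity
      field_simp
    rw [e3]
    exact Real.rpow_lt_one (by norm_num) (by norm_num) (by positivity)
  have hck : ∀ k : ℕ, (2 ^ k : ℝ≥0∞) ^ p / w k ^ p *
      ENNReal.ofReal (((1 / 2 : ℝ) ^ k) ^ (p + ε)) = θ ^ k := by
    intro k
    have e1 : ∀ (x : ℝ≥0∞), (x ^ k) ^ p = (x ^ p) ^ k := by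
      intro x
      rw [← ENNReal.rpow_natCast, ← ENNReal.rpow_mul, ← ENNReal.rpow_natCast, ← ENNReal.rpow_mul,
        mul_comm]
    have e2 : ((1 / 2 : ℝ) ^ k) ^ (p + ε) = ((1 / 2) ^ (p + ε)) ^ k := by
      rw [← Real.rpow_natCast, ← Real.rpow_mul (by norm_num), ← Real.rpow_natCast,
        ← Real.rpow_mul (by norm_num), mul_comm]
    rw [e2, ENNReal.ofReal_pow (by positivity), hw]
    simp only
    rw [e1, e1, hθ, mul_pow, ENNReal.div_eq_inv_mul, ENNReal.div_eq_inv_mul, mul_pow,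
      ENNReal.inv_pow]
  -- the constant
  set D : ℝ≥0∞ := (∑' k, w k) ^ p with hD
  have hDt : D ≠ ∞ := ENNReal.rpow_ne_top_of_nonneg hp0.le hWt
  refine ⟨D * (C0 * (1 - θ)⁻¹), ?_, ?_⟩
  · refine ENNReal.mul_ne_top hDt (ENNReal.mul_ne_top hC0 ?_)
    refine ENNReal.inv_ne_top.2 ?_
    rw [Ne, tsub_eq_zero_iff_le, not_le]
    exact hθ1
  intro b c G hG hb hRV
  have h1 := hco_point a ha hs p hp0 w hw0 hwt 1 one_pos G hG hb
  have e1 : ((1:ℝ) ^ 2)⁻¹ = 1 := by norm_num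
  have e2 : (1:ℝ) ^ 2 = 1 := by norm_num
  rw [e1, e2, ENNReal.ofReal_one, ENNReal.one_rpow, one_mul, mul_one] at h1
  refine h1.trans ?_
  calc (∑' k, w k) ^ p * ∑' k : ℕ, (2 ^ k) ^ p / w k ^ p *
        ∫⁻ t : ℝ, ∫⁻ x : E 2, ‖op a ((1 / 2) ^ k) 1 t G x‖ₑ ^ p
      ≤ D * ∑' k : ℕ, C0 * θ ^ k := by
        refine mul_le_mul_right (ENNReal.tsum_le_tsum fun k => ?_) D
        calc (2 ^ k) ^ p / w k ^ p * ∫⁻ t : ℝ, ∫⁻ x : E 2, ‖op a ((1 / 2) ^ k) 1 t G x‖ₑ ^ p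
            ≤ (2 ^ k) ^ p / w k ^ p *
                (C0 * ENNReal.ofReal (((1 / 2 : ℝ) ^ k) ^ (p + ε))) := by
              gcongr
              exact hstrip ((1 / 2) ^ k) (by positivity)
                (pow_le_one₀ (by norm_num) (by norm_num)) b c G hG hb hRV
          _ = _ := by
              rw [← hck k]
              ring
    _ = _ := by
        rw [ENNReal.tsum_mul_left, ENNReal.tsum_geometric]

theorem base_V (p : ℝ) (hp : 3 < p) (A : ℝ → ℝ≥0) : ∃ C : ℝ≥0∞, C ≠ ∞ ∧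
    ∀ (b c : ℝ) (G : E 2 → ℂ), Measurable G → (∀ w, ‖G w‖ ≤ 1) → RV A b c G →
    ∫⁻ ξ : E 3, ‖extn (fun x : E 3 => G (fstE (k := 2) (l := 1) x)) ξ‖ₑ ^ p ≤ C := by
  obtain ⟨C, hC, h⟩ := core_V p hp A
  refine ⟨2 ^ (p + 1) * C, ENNReal.mul_ne_top ?_ hC, ?_⟩
  · exact ENNReal.rpow_ne_top_of_nonneg (by linarith) (by norm_num)
  intro b c G hG hb hRV
  have h1 := dens_le p (by linarith) 1 G hG hb
  have h2 : dens 1 G = fun x : E 3 => G (fstE (k := 2) (l := 1) x) := by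
    funext x
    unfold dens
    rw [one_smul]
  rw [h2] at h1
  refine h1.trans ?_
  gcongr
  exact h b c G hG hb hRV

end Pool.Agent.MSV
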