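import Pool.Agent.MST.TR
import Pool.Agent.MSV.CV

namespace Pool.Agent.MSV

open MeasureTheory Set Pool.Agent.MP_6cbfb8_an Pool.Agent.MST
open scoped ENNReal NNReal Real

/-
ROW FV (0.8 h). Final assembly: `transfer` (Pool/Agent/MST/TR.lean) with the class cls G' := ∃ b c, RV A b c G' (H from base_V), then `lintegral_mix_le`
exactly as in RoughLongitude.result (Pool/Agent/Results/MP_6cbfb8_an/RoughLongitude.lean); see also the complete proof of `spirals`,
Pool/Agent/MST/FS.lean. No measurability of b, c in w is needed (they are used only through ∃ b c). Measurability of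
(w, x) ↦ G w (fstE x): composition with fstE (see hde_fst_meas in DE.lean or the lemmas of FS.lean).
-/
theorem quarter (l : ℕ) (hl : 1 ≤ l) (N : ℕ) (p : ℝ) (hp : 2 * ((l : ℝ) + 2) / (l + 1) < p)
    (A : ℝ → ℝ≥0) :
    ∃ C : ℝ≥0∞, C ≠ ∞ ∧ ∀ (W : Type) (_ : MeasurableSpace W) (ν : Measure W)
      (_ : IsFiniteMeasure ν) (R : W → (E (2 + l) ≃ₗᵢ[ℝ] E (2 + l))) (η : W → E (2 + l))
      (b c : W → ℝ) (G : W → E 2 → ℂ) (v : W → Fin N → E (2 + l)) (d : W → Fin N → ℝ),
      (Measurable fun q : W × E (2 + l) => R q.1 q.2) → Measurable η →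
      (Measurable fun q : W × E 2 => G q.1 q.2) → Measurable v → Measurable d →
      (∀ w x, ‖G w x‖ ≤ 1) → (∀ w, RV A (b w) (c w) (G w)) →
      ∫⁻ ξ, ‖extn (mix ν R η fun w x =>
        G w (fstE x) * ∏ i, hsn (d w i) (v w i) x) ξ‖ₑ ^ p ≤ C * ν univ ^ p := by
  obtain ⟨C, hC, H⟩ := transfer (fun G' => ∃ b c : ℝ, RV A b c G') (fun p hp => by
      obtain ⟨C, hC, H⟩ := base_V p hp A
      refine ⟨C, hC, ?_⟩
      rintro G hm hb ⟨b, c, h⟩
      exact H b c G hm hb h) l hl N p hp
  refine ⟨C, hC, ?_⟩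
  intro W _ ν _ R η b c G v d hR hη hG hv hd hb hRV
  have hp1 : 1 ≤ p := by
    have hl1 : (1:ℝ) ≤ l := by exact_mod_cast hl
    refine le_trans ?_ hp.le
    rw [le_div_iff₀ (by linarith)]
    linarith
  refine lintegral_mix_le hp1 (fun g => ∃ (G' : E 2 → ℂ) (b' c' : ℝ) (v' : Fin N → E (2 + l))
    (d' : Fin N → ℝ), Measurable G' ∧ (∀ x, ‖G' x‖ ≤ 1) ∧ RV A b' c' G' ∧
    g = fun x => G' (fstE x) * ∏ i, hsn (d' i) (v' i) x) ?_ ν R η _ hR hη ?_ ?_ ?_
  · rintro g - - ⟨G', b', c', v', d', hm', hb', hr', rfl⟩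
    exact H G' hm' hb' ⟨b', c', hr'⟩ v' d'
  · have h1 : Measurable fun q : W × E (2 + l) => G q.1 (fstE q.2) :=
      hG.comp (measurable_fst.prodMk (continuous_fstE.measurable.comp measurable_snd))
    have h2 : Measurable fun q : W × E (2 + l) => ∏ i, hsn (d q.1 i) (v q.1 i) q.2 := by
      refine Finset.measurable_prod _ fun i _ => ?_
      unfold hsn
      refine Measurable.ite ?_ measurable_const measurable_const
      have h3 : Measurable fun q : W × E (2 + l) => d q.1 i :=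
        (measurable_pi_iff.1 hd i).comp measurable_fst
      have h4 : Measurable fun q : W × E (2 + l) => v q.1 i :=
        (measurable_pi_iff.1 hv i).comp measurable_fst
      exact measurableSet_lt h3 (measurable_snd.inner h4)
    exact h1.mul h2
  · intro w x
    rw [norm_mul]
    exact mul_le_one₀ (hb w _) (norm_nonneg _) (norm_prod_hsn_le _ _ _)
  · intro w
    exact ⟨G w, b w, c w, v w, d w, hG.comp (f := fun z : E 2 => (w, z)) (by fun_prop), hb w,
      hRV w, rfl⟩

end Pool.Agent.MSV
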