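import Pool.Agent.MSV.AV

namespace Pool.Agent.MSV

open MeasureTheory Set Pool.Agent.MP_6cbfb8_an Pool.Agent.MST
open scoped ENNReal NNReal Real

theorem hnr_meas_ann (κ : ℝ) : MeasurableSet (ann κ) := by
  have hn : Measurable fun w : E 2 => ‖w‖ := measurable_norm
  exact (measurableSet_le measurable_const (hn.pow_const 2)).inter
    (measurableSet_lt hn measurable_const)

theorem hnr_ann_sub (κ : ℝ) : ann κ ⊆ Metric.ball (0 : E 2) 1 := by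
  rintro w ⟨-, hw⟩
  rw [mem_ball_zero_iff]
  exact hw

theorem hnr_pt (κ δ : ℝ) (hκ : 0 < κ) (hδ : 0 < δ) (w : E 2) (hw : w ∈ ann κ) (hw0 : w ≠ 0) :
    ENNReal.ofReal ‖w‖ ^ (-2 + 6 * δ) ≤
      ENNReal.ofReal (5 * κ) * ENNReal.ofReal ((‖w‖ ^ 2 * √(1 - ‖w‖ ^ 2))⁻¹) := by
  obtain ⟨h1, h2⟩ := hw
  have hn : 0 < ‖w‖ := norm_pos_iff.2 hw0
  have h3 : 0 < 1 - ‖w‖ ^ 2 := by nlinarith
  have hs : 0 < √(1 - ‖w‖ ^ 2) := Real.sqrt_pos.2 h3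
  have hs5 : √(1 - ‖w‖ ^ 2) ≤ 5 * κ := by
    rw [Real.sqrt_le_left (by positivity)]
    nlinarith
  rw [ENNReal.ofReal_rpow_of_pos hn, ← ENNReal.ofReal_mul (by positivity)]
  apply ENNReal.ofReal_le_ofReal
  calc ‖w‖ ^ (-2 + 6 * δ) ≤ ‖w‖ ^ (-2 : ℝ) :=
        Real.rpow_le_rpow_of_exponent_ge hn h2.le (by linarith)
    _ = (‖w‖ ^ 2)⁻¹ := by
        rw [Real.rpow_neg hn.le, Real.rpow_two]
    _ = √(1 - ‖w‖ ^ 2) * (‖w‖ ^ 2 * √(1 - ‖w‖ ^ 2))⁻¹ := by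
        field_simp
    _ ≤ 5 * κ * (‖w‖ ^ 2 * √(1 - ‖w‖ ^ 2))⁻¹ := by
        apply mul_le_mul_of_nonneg_right hs5
        positivity

theorem hnr_NN (D : E 2 → ℂ) (κ δ : ℝ) (hκ : 0 < κ) (hδ : 0 < δ) :
    NN κ δ D ≤ ENNReal.ofReal (5 * κ) * ∫⁻ w in Metric.ball (0 : E 2) 1, ‖D w‖ₑ ^ (2:ℝ) *
      ENNReal.ofReal ((‖w‖ ^ 2 * √(1 - ‖w‖ ^ 2))⁻¹) := by
  unfold NN
  have h0 : ∀ᵐ w : E 2 ∂(volume.restrict (ann κ)), w ≠ 0 := by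
    apply ae_restrict_of_ae
    have : volume ({0} : Set (E 2)) = 0 := measure_singleton 0
    rw [ae_iff]
    simp
  have h1 : ∀ᵐ w : E 2 ∂(volume.restrict (ann κ)), w ∈ ann κ := ae_restrict_mem (hnr_meas_ann κ)
  rw [← lintegral_const_mul' _ _ ENNReal.ofReal_ne_top]
  calc ∫⁻ w in ann κ, ‖D w‖ₑ ^ (2:ℝ) * ENNReal.ofReal ‖w‖ ^ (-2 + 6 * δ)
      ≤ ∫⁻ w in ann κ, ENNReal.ofReal (5 * κ) * (‖D w‖ₑ ^ (2:ℝ) *
          ENNReal.ofReal ((‖w‖ ^ 2 * √(1 - ‖w‖ ^ 2))⁻¹)) := by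
        refine lintegral_mono_ae ?_
        filter_upwards [h0, h1] with w hw0 hw1
        calc ‖D w‖ₑ ^ (2:ℝ) * ENNReal.ofReal ‖w‖ ^ (-2 + 6 * δ)
            ≤ ‖D w‖ₑ ^ (2:ℝ) * (ENNReal.ofReal (5 * κ) *
                ENNReal.ofReal ((‖w‖ ^ 2 * √(1 - ‖w‖ ^ 2))⁻¹)) :=
              mul_le_mul_right (hnr_pt κ δ hκ hδ w hw1 hw0) _
          _ = _ := by rw [mul_left_comm]
    _ ≤ _ := lintegral_mono_set (hnr_ann_sub κ)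

/-
ROW NR (0.8 h). The class RV controls differences on a strip.
On ann κ, w ≠ 0 (almost everywhere): 0 < 1-‖w‖² ≤ 20κ², so 0 < √(1-‖w‖²) ≤ 5κ and ‖w‖^(-2+6δ) ≤ ‖w‖^(-2) ≤ 5κ (‖w‖² √(1-‖w‖²))⁻¹; hence
NN κ δ D ≤ 5κ ∫⁻ w in ball 0 1, ‖D w‖² (‖w‖² √(1-‖w‖²))⁻¹ for every D (ann κ ⊂ ball 0 1): NN_diff.
NN_av: G w - av b c h G w = h⁻¹ ∫ τ in 0..h, (G w - tw b τ * G (fl c τ w)), so (Cauchy–Schwarz in τ, as av_sq)
 ‖G w - av b c h G w‖ₑ^2 ≤ h⁻¹ ∫⁻ τ in Ioc 0 h, ‖G w - tw b τ * G (fl c τ w)‖ₑ^2; Tonelli and the first part: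
 ≤ h⁻¹ ∫⁻ τ in Ioc 0 h, 5κ A(ε) τ^(1/2-ε) dτ ≤ 5κ A(ε) h^(1/2-ε).
-/
theorem NN_diff (A : ℝ → ℝ≥0) (b c : ℝ) (G : E 2 → ℂ) (hG : Measurable G) (hA : RV A b c G)
    (κ δ ε h : ℝ) (hκ : 0 < κ) (hδ : 0 < δ) (hδ1 : δ ≤ 1 / 4) (hε : 0 < ε) (hε1 : ε < 1 / 2)
    (hh : 0 < h) (hh1 : h < 1) :
    NN κ δ (fun w => G w - tw b h * G (fl c h w)) ≤
      ENNReal.ofReal (5 * κ) * (A ε * ENNReal.ofReal (h ^ (1 / 2 - ε))) :=
  (hnr_NN _ κ δ hκ hδ).trans (mul_le_mul_right (hA ε h hε hε1 hh hh1) _)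

/-- the square of the difference of `G` and its average -/
theorem hnr_sq (b c h : ℝ) (hh : 0 < h) (G : E 2 → ℂ) (hG : Measurable G)
    (hb : ∀ w, ‖G w‖ ≤ 1) (w : E 2) :
    ‖G w - av b c h G w‖ₑ ^ (2:ℝ) ≤
      ENNReal.ofReal h⁻¹ * ∫⁻ τ in Ioc (0:ℝ) h, ‖G w - tw b τ * G (fl c τ w)‖ₑ ^ (2:ℝ) := by
  have hmF := hav_meas1 b c G hG w
  have hm : Measurable fun τ : ℝ => ‖G w - tw b τ * G (fl c τ w)‖ₑ :=
    (measurable_const.sub hmF).enorm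
  have hi := hav_int b c 1 0 h G hG hb w
  have hh0 : (h : ℂ) ≠ 0 := Complex.ofReal_ne_zero.2 hh.ne'
  have e1 : G w - av b c h G w =
      ((h⁻¹ : ℝ) : ℂ) * ∫ τ in (0:ℝ)..h, (G w - tw b τ * G (fl c τ w)) := by
    rw [intervalIntegral.integral_sub intervalIntegrable_const hi,
      intervalIntegral.integral_const, sub_zero, mul_sub]
    congr 1
    rw [Complex.real_smul]
    push_cast
    field_simp
  have h1 : ‖G w - av b c h G w‖ₑ ≤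
      ENNReal.ofReal h⁻¹ * ∫⁻ τ in Ioc (0:ℝ) h, ‖G w - tw b τ * G (fl c τ w)‖ₑ := by
    rw [e1, enorm_mul, intervalIntegral.integral_of_le hh.le]
    have h2 : ‖((h⁻¹ : ℝ) : ℂ)‖ₑ = ENNReal.ofReal h⁻¹ := by
      rw [← ofReal_norm, Complex.norm_real, Real.norm_of_nonneg (inv_nonneg.2 hh.le)]
    rw [h2]
    exact mul_le_mul_right (enorm_integral_le_lintegral_enorm _) _
  have h3 := hav_cs (volume.restrict (Ioc (0:ℝ) h))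
    (fun τ => ‖G w - tw b τ * G (fl c τ w)‖ₑ) hm.aemeasurable
  rw [Measure.restrict_apply_univ, Real.volume_Ioc, sub_zero] at h3
  calc ‖G w - av b c h G w‖ₑ ^ (2:ℝ)
      ≤ (ENNReal.ofReal h⁻¹ * ∫⁻ τ in Ioc (0:ℝ) h, ‖G w - tw b τ * G (fl c τ w)‖ₑ) ^ (2:ℝ) :=
        ENNReal.rpow_le_rpow h1 (by norm_num)
    _ = ENNReal.ofReal h⁻¹ ^ (2:ℝ) *
        (∫⁻ τ in Ioc (0:ℝ) h, ‖G w - tw b τ * G (fl c τ w)‖ₑ) ^ (2:ℝ) :=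
        ENNReal.mul_rpow_of_nonneg _ _ (by norm_num)
    _ ≤ ENNReal.ofReal h⁻¹ ^ (2:ℝ) *
        (ENNReal.ofReal h * ∫⁻ τ in Ioc (0:ℝ) h, ‖G w - tw b τ * G (fl c τ w)‖ₑ ^ (2:ℝ)) :=
        mul_le_mul_right h3 _
    _ = ENNReal.ofReal h⁻¹ * ∫⁻ τ in Ioc (0:ℝ) h, ‖G w - tw b τ * G (fl c τ w)‖ₑ ^ (2:ℝ) := by
        rw [← mul_assoc]
        congr 1
        have e1 : ENNReal.ofReal h⁻¹ ^ (2:ℝ) = ENNReal.ofReal h⁻¹ * ENNReal.ofReal h⁻¹ := by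
          rw [ENNReal.rpow_two, sq]
        rw [e1, mul_assoc, ← ENNReal.ofReal_mul (inv_nonneg.2 hh.le), inv_mul_cancel₀ hh.ne',
          ENNReal.ofReal_one, mul_one]

theorem NN_av (A : ℝ → ℝ≥0) (b c : ℝ) (G : E 2 → ℂ) (hG : Measurable G) (hb : ∀ w, ‖G w‖ ≤ 1)
    (hA : RV A b c G) (κ δ ε h : ℝ) (hκ : 0 < κ) (hδ : 0 < δ) (hδ1 : δ ≤ 1 / 4) (hε : 0 < ε)
    (hε1 : ε < 1 / 2) (hh : 0 < h) (hh1 : h < 1) :
    NN κ δ (fun w => G w - av b c h G w) ≤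
      ENNReal.ofReal (5 * κ) * (A ε * ENNReal.ofReal (h ^ (1 / 2 - ε))) := by
  have hm2 := hav_meas2 b c G hG
  have hm3 : Measurable fun q : E 2 × ℝ => ‖G q.1 - tw b q.2 * G (fl c q.2 q.1)‖ₑ ^ (2:ℝ) :=
    ((hG.comp measurable_fst).sub hm2).enorm.pow_const 2
  have hmW : Measurable fun q : E 2 × ℝ => ENNReal.ofReal ‖q.1‖ ^ (-2 + 6 * δ) :=
    (measurable_fst.norm.ennreal_ofReal).pow_const _
  have hm4 : Measurable (Function.uncurry fun (w : E 2) (τ : ℝ) =>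
      ‖G w - tw b τ * G (fl c τ w)‖ₑ ^ (2:ℝ) * ENNReal.ofReal ‖w‖ ^ (-2 + 6 * δ)) :=
    hm3.mul hmW
  have hmτ : ∀ w : E 2, Measurable fun τ : ℝ => ‖G w - tw b τ * G (fl c τ w)‖ₑ ^ (2:ℝ) := by
    intro w
    exact (measurable_const.sub (hav_meas1 b c G hG w)).enorm.pow_const 2
  calc NN κ δ (fun w => G w - av b c h G w)
      ≤ ∫⁻ w in ann κ, ENNReal.ofReal h⁻¹ * ∫⁻ τ in Ioc (0:ℝ) h,
          ‖G w - tw b τ * G (fl c τ w)‖ₑ ^ (2:ℝ) * ENNReal.ofReal ‖w‖ ^ (-2 + 6 * δ) := by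
        unfold NN
        refine lintegral_mono fun w => ?_
        simp only
        rw [lintegral_mul_const _ (hmτ w), ← mul_assoc]
        exact mul_le_mul_left (hnr_sq b c h hh G hG hb w) _
    _ = ENNReal.ofReal h⁻¹ * ∫⁻ τ in Ioc (0:ℝ) h, ∫⁻ w in ann κ,
          ‖G w - tw b τ * G (fl c τ w)‖ₑ ^ (2:ℝ) * ENNReal.ofReal ‖w‖ ^ (-2 + 6 * δ) := by
        rw [lintegral_const_mul' _ _ ENNReal.ofReal_ne_top,
          lintegral_lintegral_swap hm4.aemeasurable]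
    _ ≤ ENNReal.ofReal h⁻¹ * ∫⁻ _τ in Ioc (0:ℝ) h,
          ENNReal.ofReal (5 * κ) * (A ε * ENNReal.ofReal (h ^ (1 / 2 - ε))) := by
        refine mul_le_mul_right ?_ _
        refine setLIntegral_mono' measurableSet_Ioc fun τ hτ => ?_
        refine (NN_diff A b c G hG hA κ δ ε τ hκ hδ hδ1 hε hε1 hτ.1
          (lt_of_le_of_lt hτ.2 hh1)).trans ?_
        refine mul_le_mul_right (mul_le_mul_right (ENNReal.ofReal_le_ofReal ?_) _) _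
        exact Real.rpow_le_rpow hτ.1.le hτ.2 (by linarith)
    _ = ENNReal.ofReal (5 * κ) * (A ε * ENNReal.ofReal (h ^ (1 / 2 - ε))) := by
        rw [setLIntegral_const, Real.volume_Ioc, sub_zero, mul_comm _ (ENNReal.ofReal h),
          ← mul_assoc, ← ENNReal.ofReal_mul (inv_nonneg.2 hh.le), inv_mul_cancel₀ hh.ne',
          ENNReal.ofReal_one, one_mul]

end Pool.Agent.MSV
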