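import Pool.Agent.MST.OB
import Pool.Agent.MSV.FL
import Pool.Agent.MSV.AV
import Pool.Agent.MST.J1

namespace Pool.Agent.MSV

open MeasureTheory Set Pool.Agent.MP_6cbfb8_an Pool.Agent.MST
open scoped ENNReal NNReal Real

theorem hol_meas_ann (κ : ℝ) : MeasurableSet (ann κ) := by
  have hn : Measurable fun w : E 2 => ‖w‖ := measurable_norm
  exact (measurableSet_le measurable_const (hn.pow_const 2)).inter
    (measurableSet_lt hn measurable_const)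

theorem hol_meas_sst (κ : ℝ) : MeasurableSet (sst κ) := by
  have hn : Measurable fun w : E 2 => ‖w‖ := measurable_norm
  exact (measurableSet_le measurable_const (hn.pow_const 2)).inter
    (measurableSet_lt hn measurable_const)

theorem hol_sub (κ : ℝ) (hκ : 0 < κ) : hobS κ 1 ⊆ sst κ := by
  rintro w ⟨h1, h2⟩
  have hκ2 : 0 < κ ^ 2 := by positivity
  unfold vv at h1 h2
  rw [one_mul, lt_div_iff₀ hκ2] at h1
  rw [one_mul, div_lt_iff₀ hκ2] at h2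
  refine ⟨by linarith, ?_⟩
  have h3 : ‖w‖ ^ 2 < 1 := by linarith
  have h4 := norm_nonneg w
  nlinarith

theorem hol_enorm_ex (b : ℝ) : ‖ex b‖ₑ = 1 := by
  rw [← ofReal_norm]
  unfold ex
  rw [Complex.norm_exp_ofReal_mul_I, ENNReal.ofReal_one]

theorem hol_pt (A : ℝ) (a : ℝ → ℝ) (ha : Cut a) (hb : ∀ v, |a v| ≤ A) (κ t : ℝ)
    (F : E 2 → ℂ) (w : E 2) :
    ‖F w * amp a κ 1 t (‖w‖ ^ 2)‖ₑ ≤
      (hobS κ 1).indicator (fun w => ENNReal.ofReal A * ‖F w‖ₑ) w := by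
  by_cases hw : w ∈ hobS κ 1
  · rw [indicator_of_mem hw, enorm_mul, mul_comm]
    refine mul_le_mul_left ?_ _
    unfold amp
    rw [enorm_mul, hol_enorm_ex, mul_one, ← ofReal_norm, Complex.norm_real, Real.norm_eq_abs]
    exact ENNReal.ofReal_le_ofReal (hb _)
  · rw [indicator_of_notMem hw]
    have h0 : a (vv κ 1 (‖w‖ ^ 2)) = 0 := by
      apply ha.2
      by_contra hcon
      push Not at hcon
      exact hw hcon
    unfold amp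
    rw [h0]
    simp

/-
ROW OL (1.2 h). L^2 and sup bounds; norms on the strip.
op_L2: amp a κ 1 t (‖w‖²) ≠ 0 implies w ∈ sst κ (1/4 < (1-‖w‖²)/κ² < 4), |amp| ≤ A (`cut_bdd`). `bessel` (Bessel.lean) with Ω = E 2, Ψ = id, A = 1,
F := G w * amp ... gives ∫⁻ x ‖op‖² ≤ ∫⁻ w ‖G w * amp‖² ≤ A² ∫⁻ w in sst κ ‖G w‖² (see strip_L2 in OB.lean).
op_sup: ‖op‖ₑ ≤ A ∫⁻ w in sst κ ‖G w‖ₑ, Cauchy–Schwarz, volume (sst κ) ≤ 4π κ² (volume of balls of E 2; polar coordinates).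
NN_ge: for w ∈ ann κ, w ≠ 0: ‖w‖ < 1 and -2+6δ ≤ 0, so ‖w‖^(-2+6δ) ≥ 1 (at w = 0 it is ∞ as -2+6δ < 0).
NN_le: if 40κ² ≤ 1 then ann κ ⊂ {‖w‖² ≥ 1/2}, ‖w‖^(-2+6δ) ≤ (1/2)^(-1) = 2 and the area of ann κ is ≤ 20π κ²; if 40κ² > 1 use
∫_{ball} ‖w‖^(-2+6δ) < ∞ (`radial_two`, J1.lean, with η = 6δ) ≤ C ≤ 40 C κ².
av_L2: by av_sq (row AV) and Tonelli: ∫⁻ w in sst κ ‖av b c h F w‖² ≤ h⁻¹ ∫⁻ τ in Ioc 0 h, ∫⁻ w in sst κ ‖F (fl c τ w)‖²; for 0 ≤ τ ≤ h ≤ κ² ≤ 1, w ∈ sst κ implies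
fl c τ w ∈ ann κ (norm_fl: exp(-2τ)(1-4κ²) ≥ (1-2κ²)(1-4κ²) ≥ 1-6κ² if 4κ² ≤ 1; otherwise 1-20κ² < 0), so lintegral_fl with φ u = 1_{ann κ} ‖F u‖²
gives ≤ exp(2τ) ∫⁻ u in ann κ ‖F u‖² and exp 2 ≤ 9.
-/
theorem op_L2 (a : ℝ → ℝ) (ha : Cut a) : ∃ C : ℝ≥0∞, C ≠ ∞ ∧
    ∀ κ t : ℝ, 0 < κ → κ ≤ 1 → ∀ F : E 2 → ℂ, Measurable F → (∀ w, ‖F w‖ ≤ 2) →
    ∫⁻ x, ‖op a κ 1 t F x‖ₑ ^ (2:ℝ) ≤ C * ∫⁻ w in sst κ, ‖F w‖ₑ ^ (2:ℝ) := by
  obtain ⟨A, hA, hb⟩ := cut_bdd a ha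
  have hpi := Real.pi_pos
  refine ⟨ENNReal.ofReal A ^ (2:ℝ), ENNReal.rpow_ne_top_of_nonneg (by norm_num)
    ENNReal.ofReal_ne_top, fun κ t hκ hκ1 F hFm hF2 => ?_⟩
  have hvol := hob_volS κ 1 1 hκ hκ1 one_pos le_rfl
  have hfin : volume (hobS κ 1) ≠ ∞ := ne_top_of_le_ne_top ENNReal.ofReal_ne_top hvol
  have hint : Integrable ((hobS κ 1).indicator (fun _ : E 2 => 2 * A)) :=
    (integrable_indicator_iff (hob_measS κ 1)).2 (integrableOn_const hfin)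
  have hptm := hol_pt A a ha hb κ t F
  have hF : Integrable (fun w : E 2 => F w * amp a κ 1 t (‖w‖ ^ 2)) := by
    refine hint.mono' ((hFm.mul (hob_meas_amp a ha κ 1 t)).aestronglyMeasurable)
      (Filter.Eventually.of_forall fun w => ?_)
    have h1 := hptm w
    by_cases hw : w ∈ hobS κ 1
    · rw [indicator_of_mem hw] at h1 ⊢
      have h2 : ENNReal.ofReal A * ‖F w‖ₑ ≤ ENNReal.ofReal (2 * A) := by
        rw [mul_comm 2 A, ENNReal.ofReal_mul hA.le, ← ofReal_norm (F w)]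
        exact mul_le_mul_right (ENNReal.ofReal_le_ofReal (hF2 w)) _
      have h3 := h1.trans h2
      rw [← ofReal_norm] at h3
      exact (ENNReal.ofReal_le_ofReal_iff (by positivity)).1 h3
    · rw [indicator_of_notMem hw] at h1 ⊢
      rw [nonpos_iff_eq_zero, enorm_eq_zero] at h1
      rw [h1, norm_zero]
  have hB := bessel (volume : Measure (E 2)) (fun w : E 2 => w) measurable_id 1 ENNReal.one_ne_top
    (fun φ _ => by simp) (fun w : E 2 => F w * amp a κ 1 t (‖w‖ ^ 2)) hF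
  rw [one_mul] at hB
  refine le_trans (le_of_eq ?_) (hB.trans ?_)
  · rfl
  · calc ∫⁻ w : E 2, ‖F w * amp a κ 1 t (‖w‖ ^ 2)‖ₑ ^ (2:ℝ)
        ≤ ∫⁻ w : E 2, (sst κ).indicator
            (fun w => ENNReal.ofReal A ^ (2:ℝ) * ‖F w‖ₑ ^ (2:ℝ)) w := by
          refine lintegral_mono fun w => ?_
          have h1 := hptm w
          by_cases hw : w ∈ hobS κ 1
          · rw [indicator_of_mem hw] at h1
            simp only [indicator_of_mem (hol_sub κ hκ hw)]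
            rw [← ENNReal.mul_rpow_of_nonneg _ _ (by norm_num)]
            exact ENNReal.rpow_le_rpow h1 (by norm_num)
          · rw [indicator_of_notMem hw, nonpos_iff_eq_zero] at h1
            rw [h1, ENNReal.zero_rpow_of_pos (by norm_num)]
            exact zero_le
      _ = ENNReal.ofReal A ^ (2:ℝ) * ∫⁻ w in sst κ, ‖F w‖ₑ ^ (2:ℝ) := by
          rw [lintegral_indicator (hol_meas_sst κ), lintegral_const_mul' _ _
            (ENNReal.rpow_ne_top_of_nonneg (by norm_num) ENNReal.ofReal_ne_top)]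

theorem op_sup (a : ℝ → ℝ) (ha : Cut a) : ∃ C : ℝ≥0∞, C ≠ ∞ ∧
    ∀ κ t : ℝ, 0 < κ → κ ≤ 1 → ∀ F : E 2 → ℂ, Measurable F → (∀ w, ‖F w‖ ≤ 2) → ∀ x,
    ‖op a κ 1 t F x‖ₑ ^ (2:ℝ) ≤ C * ENNReal.ofReal (κ ^ 2) * ∫⁻ w in sst κ, ‖F w‖ₑ ^ (2:ℝ) := by
  obtain ⟨A, hA, hb⟩ := cut_bdd a ha
  have hpi := Real.pi_pos
  refine ⟨ENNReal.ofReal A ^ (2:ℝ) * ENNReal.ofReal (4 * π), ENNReal.mul_ne_top
    (ENNReal.rpow_ne_top_of_nonneg (by norm_num) ENNReal.ofReal_ne_top) ENNReal.ofReal_ne_top,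
    fun κ t hκ hκ1 F hFm hF2 x => ?_⟩
  have hvol := hob_volS κ 1 1 hκ hκ1 one_pos le_rfl
  have h1 : ‖op a κ 1 t F x‖ₑ ≤ ENNReal.ofReal A * ∫⁻ w in hobS κ 1, ‖F w‖ₑ := by
    unfold op
    calc ‖∫ w : E 2, F w * amp a κ 1 t (‖w‖ ^ 2) * ex (inner ℝ w x)‖ₑ
        ≤ ∫⁻ w : E 2, ‖F w * amp a κ 1 t (‖w‖ ^ 2) * ex (inner ℝ w x)‖ₑ :=
          enorm_integral_le_lintegral_enorm _
      _ ≤ ∫⁻ w : E 2, (hobS κ 1).indicator (fun w => ENNReal.ofReal A * ‖F w‖ₑ) w := by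
          refine lintegral_mono fun w => ?_
          rw [enorm_mul, hol_enorm_ex, mul_one]
          exact hol_pt A a ha hb κ t F w
      _ = ENNReal.ofReal A * ∫⁻ w in hobS κ 1, ‖F w‖ₑ := by
          rw [lintegral_indicator (hob_measS κ 1), lintegral_const_mul' _ _ ENNReal.ofReal_ne_top]
  have h2 := hav_cs (volume.restrict (hobS κ 1)) (fun w => ‖F w‖ₑ) hFm.enorm.aemeasurable
  rw [Measure.restrict_apply_univ] at h2
  calc ‖op a κ 1 t F x‖ₑ ^ (2:ℝ)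
      ≤ (ENNReal.ofReal A * ∫⁻ w in hobS κ 1, ‖F w‖ₑ) ^ (2:ℝ) :=
        ENNReal.rpow_le_rpow h1 (by norm_num)
    _ = ENNReal.ofReal A ^ (2:ℝ) * (∫⁻ w in hobS κ 1, ‖F w‖ₑ) ^ (2:ℝ) :=
        ENNReal.mul_rpow_of_nonneg _ _ (by norm_num)
    _ ≤ ENNReal.ofReal A ^ (2:ℝ) * (volume (hobS κ 1) * ∫⁻ w in hobS κ 1, ‖F w‖ₑ ^ (2:ℝ)) :=
        mul_le_mul_right h2 _
    _ ≤ ENNReal.ofReal A ^ (2:ℝ) * (ENNReal.ofReal (4 * π / 1 * κ ^ 2) *
          ∫⁻ w in sst κ, ‖F w‖ₑ ^ (2:ℝ)) :=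
        mul_le_mul_right (mul_le_mul' hvol (lintegral_mono_set (hol_sub κ hκ))) _
    _ = ENNReal.ofReal A ^ (2:ℝ) * ENNReal.ofReal (4 * π) * ENNReal.ofReal (κ ^ 2) *
          ∫⁻ w in sst κ, ‖F w‖ₑ ^ (2:ℝ) := by
        rw [div_one, ENNReal.ofReal_mul (by positivity)]
        ring

theorem NN_ge (κ δ : ℝ) (hδ : 0 < δ) (hδ1 : δ ≤ 1 / 4) (G : E 2 → ℂ) :
    ∫⁻ w in ann κ, ‖G w‖ₑ ^ (2:ℝ) ≤ NN κ δ G := by
  unfold NN
  refine setLIntegral_mono' (hol_meas_ann κ) fun w hw => ?_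
  have h1 : (1 : ℝ≥0∞) ≤ ENNReal.ofReal ‖w‖ ^ (-2 + 6 * δ) := by
    rcases eq_or_ne w 0 with h0 | h0
    · rw [h0, norm_zero, ENNReal.ofReal_zero, ENNReal.zero_rpow_of_neg (by linarith)]
      exact le_top
    · refine ENNReal.one_le_rpow_of_pos_of_le_one_of_neg ?_ ?_ (by linarith)
      · rw [ENNReal.ofReal_pos]
        exact norm_pos_iff.2 h0
      · rw [ENNReal.ofReal_le_one]
        exact hw.2.le
  calc ‖G w‖ₑ ^ (2:ℝ) = ‖G w‖ₑ ^ (2:ℝ) * 1 := (mul_one _).symm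
    _ ≤ ‖G w‖ₑ ^ (2:ℝ) * ENNReal.ofReal ‖w‖ ^ (-2 + 6 * δ) := mul_le_mul_right h1 _

theorem hol_vol_ann (κ : ℝ) (hκ2 : 40 * κ ^ 2 ≤ 1) :
    volume (ann κ) ≤ ENNReal.ofReal (20 * π * κ ^ 2) := by
  have hpi := Real.pi_pos
  have hr : 0 ≤ 1 - 20 * κ ^ 2 := by linarith
  have vb : ∀ r : ℝ, 0 ≤ r → volume (Metric.ball (0 : E 2) (√r)) = ENNReal.ofReal (π * r) := by
    intro r hr
    rw [EuclideanSpace.volume_ball_fin_two]
    rw [← ENNReal.ofReal_pow (Real.sqrt_nonneg _), Real.sq_sqrt hr, mul_comm,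
      ← NNReal.coe_real_pi, ENNReal.ofReal_mul (by positivity)]
  have hsub : ann κ ⊆ Metric.ball (0 : E 2) (√1) \ Metric.ball (0 : E 2) (√(1 - 20 * κ ^ 2)) := by
    rintro w ⟨h1, h2⟩
    refine ⟨?_, ?_⟩
    · rw [Real.sqrt_one, mem_ball_zero_iff]
      exact h2
    · rw [mem_ball_zero_iff, not_lt]
      exact Real.sqrt_le_iff.2 ⟨norm_nonneg w, h1⟩
  refine (measure_mono hsub).trans ?_
  have hsub2 : Metric.ball (0 : E 2) (√(1 - 20 * κ ^ 2)) ⊆ Metric.ball (0 : E 2) (√1) := by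
    apply Metric.ball_subset_ball
    apply Real.sqrt_le_sqrt
    have := sq_nonneg κ
    linarith
  rw [measure_sdiff hsub2 measurableSet_ball.nullMeasurableSet
    (by rw [vb _ hr]; exact ENNReal.ofReal_ne_top)]
  rw [vb _ zero_le_one, vb _ hr, ← ENNReal.ofReal_sub _ (by positivity)]
  apply ENNReal.ofReal_le_ofReal
  linarith

theorem NN_le (δ : ℝ) (hδ : 0 < δ) (hδ1 : δ ≤ 1 / 4) : ∃ C : ℝ≥0∞, C ≠ ∞ ∧ ∀ κ : ℝ, 0 < κ →
    κ ≤ 1 → ∀ G : E 2 → ℂ, (∀ w, ‖G w‖ ≤ 1) → NN κ δ G ≤ C * ENNReal.ofReal (κ ^ 2) := by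
  have hpi := Real.pi_pos
  have hI := radial_two (6 * δ) 1 (by positivity)
  obtain ⟨I, hIdef⟩ : ∃ I : ℝ≥0∞, I = ∫⁻ y in Metric.closedBall (0 : E 2) 1,
    ENNReal.ofReal ‖y‖ ^ (6 * δ - 2) := ⟨_, rfl⟩
  rw [← hIdef] at hI
  refine ⟨ENNReal.ofReal (40 * π) + ENNReal.ofReal 40 * I, ENNReal.add_ne_top.2
    ⟨ENNReal.ofReal_ne_top, ENNReal.mul_ne_top ENNReal.ofReal_ne_top hI.ne⟩,
    fun κ hκ hκ1 G hG => ?_⟩
  have h0 : NN κ δ G ≤ ∫⁻ w in ann κ, ENNReal.ofReal ‖w‖ ^ (-2 + 6 * δ) := by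
    unfold NN
    refine lintegral_mono fun w => ?_
    have h1 : ‖G w‖ₑ ^ (2:ℝ) ≤ 1 := by
      have h2 : ‖G w‖ₑ ≤ 1 := by
        rw [← ofReal_norm, ENNReal.ofReal_le_one]
        exact hG w
      calc ‖G w‖ₑ ^ (2:ℝ) ≤ 1 ^ (2:ℝ) := ENNReal.rpow_le_rpow h2 (by norm_num)
        _ = 1 := ENNReal.one_rpow _
    calc ‖G w‖ₑ ^ (2:ℝ) * ENNReal.ofReal ‖w‖ ^ (-2 + 6 * δ)
        ≤ 1 * ENNReal.ofReal ‖w‖ ^ (-2 + 6 * δ) := mul_le_mul_left h1 _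
      _ = ENNReal.ofReal ‖w‖ ^ (-2 + 6 * δ) := one_mul _
  by_cases hκ2 : 40 * κ ^ 2 ≤ 1
  · calc NN κ δ G ≤ ∫⁻ w in ann κ, ENNReal.ofReal ‖w‖ ^ (-2 + 6 * δ) := h0
      _ ≤ ∫⁻ _w in ann κ, ENNReal.ofReal 2 := by
          refine setLIntegral_mono' (hol_meas_ann κ) fun w hw => ?_
          obtain ⟨h1, h2⟩ := hw
          have h3 : 1 / 2 ≤ ‖w‖ ^ 2 := by linarith
          have h4 : 0 < ‖w‖ := by
            rcases (norm_nonneg w).eq_or_lt with h | h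
            · rw [← h] at h3
              norm_num at h3
            · exact h
          rw [ENNReal.ofReal_rpow_of_pos h4]
          apply ENNReal.ofReal_le_ofReal
          calc ‖w‖ ^ (-2 + 6 * δ) ≤ ‖w‖ ^ (-2 : ℝ) :=
                Real.rpow_le_rpow_of_exponent_ge h4 h2.le (by linarith)
            _ = (‖w‖ ^ 2)⁻¹ := by rw [Real.rpow_neg h4.le, Real.rpow_two]
            _ ≤ (1 / 2)⁻¹ := inv_anti₀ (by norm_num) h3
            _ = 2 := by norm_num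
      _ = ENNReal.ofReal 2 * volume (ann κ) := setLIntegral_const _ _
      _ ≤ ENNReal.ofReal 2 * ENNReal.ofReal (20 * π * κ ^ 2) :=
          mul_le_mul_right (hol_vol_ann κ hκ2) _
      _ = ENNReal.ofReal (40 * π) * ENNReal.ofReal (κ ^ 2) := by
          rw [← ENNReal.ofReal_mul (by norm_num), ← ENNReal.ofReal_mul (by positivity)]
          congr 1
          ring
      _ ≤ (ENNReal.ofReal (40 * π) + ENNReal.ofReal 40 * I) * ENNReal.ofReal (κ ^ 2) :=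
          mul_le_mul_left le_self_add _
  · push Not at hκ2
    have hsub : ann κ ⊆ Metric.closedBall (0 : E 2) 1 := by
      rintro w ⟨-, h2⟩
      rw [mem_closedBall_zero_iff]
      exact h2.le
    calc NN κ δ G ≤ ∫⁻ w in ann κ, ENNReal.ofReal ‖w‖ ^ (-2 + 6 * δ) := h0
      _ ≤ ∫⁻ w in Metric.closedBall (0 : E 2) 1, ENNReal.ofReal ‖w‖ ^ (-2 + 6 * δ) :=
          lintegral_mono_set hsub
      _ = I := by
          rw [hIdef]
          have : -2 + 6 * δ = 6 * δ - 2 := by ring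
          rw [this]
      _ = 1 * I := (one_mul I).symm
      _ ≤ ENNReal.ofReal (40 * κ ^ 2) * I := by
          refine mul_le_mul_left ?_ _
          rw [ENNReal.one_le_ofReal]
          exact hκ2.le
      _ = ENNReal.ofReal 40 * I * ENNReal.ofReal (κ ^ 2) := by
          rw [ENNReal.ofReal_mul (by norm_num)]
          ring
      _ ≤ (ENNReal.ofReal (40 * π) + ENNReal.ofReal 40 * I) * ENNReal.ofReal (κ ^ 2) :=
          mul_le_mul_left le_add_self _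

theorem hol_fl_mem (κ c h τ : ℝ) (hκ : 0 < κ) (hh1 : h ≤ κ ^ 2) (hτ : τ ∈ Ioc (0:ℝ) h) (w : E 2)
    (hw : w ∈ sst κ) : fl c τ w ∈ ann κ := by
  obtain ⟨h1, h2⟩ := hw
  obtain ⟨h3, h4⟩ := hτ
  have hn := norm_nonneg w
  have he : Real.exp (-τ) < 1 := by
    rw [Real.exp_lt_one_iff]
    linarith
  have he0 := Real.exp_pos (-τ)
  constructor
  · rw [norm_fl, mul_pow]
    by_cases hk : 4 * κ ^ 2 ≤ 1
    · have h5 : 1 - 2 * τ ≤ Real.exp (-τ) ^ 2 := by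
        have h6 := Real.add_one_le_exp (-(2 * τ))
        have h7 : Real.exp (-τ) ^ 2 = Real.exp (-(2 * τ)) := by
          rw [← Real.exp_nat_mul]
          congr 1
          push_cast
          ring
        rw [h7]
        linarith
      have h8 : 1 - 2 * κ ^ 2 ≤ Real.exp (-τ) ^ 2 := by linarith
      calc 1 - 20 * κ ^ 2 ≤ (1 - 2 * κ ^ 2) * (1 - 4 * κ ^ 2) := by
            have := sq_nonneg (κ ^ 2)
            nlinarith [sq_nonneg κ]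
        _ ≤ Real.exp (-τ) ^ 2 * ‖w‖ ^ 2 := mul_le_mul h8 h1 (by linarith) (by positivity)
    · push Not at hk
      have : 0 ≤ Real.exp (-τ) ^ 2 * ‖w‖ ^ 2 := by positivity
      linarith
  · rw [norm_fl]
    nlinarith

theorem av_L2 (κ b c h : ℝ) (hκ : 0 < κ) (hκ1 : κ ≤ 1) (hh : 0 < h) (hh1 : h ≤ κ ^ 2)
    (F : E 2 → ℂ) (hF : Measurable F) (hb : ∀ w, ‖F w‖ ≤ 2) :
    ∫⁻ w in sst κ, ‖av b c h F w‖ₑ ^ (2:ℝ) ≤ 9 * ∫⁻ w in ann κ, ‖F w‖ₑ ^ (2:ℝ) := by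
  have hm4 : Measurable (Function.uncurry fun (w : E 2) (τ : ℝ) => ‖F (fl c τ w)‖ₑ ^ (2:ℝ)) := by
    have h2 : Measurable fun q : E 2 × ℝ => fl c q.2 q.1 := by
      have h3 : Continuous fun q : E 2 × ℝ => fl c q.2 q.1 :=
        (continuous_fl c).comp (continuous_snd.prodMk continuous_fst)
      exact h3.measurable
    exact (hF.comp h2).enorm.pow_const 2
  have hstep : ∀ τ ∈ Ioc (0:ℝ) h, ∫⁻ w in sst κ, ‖F (fl c τ w)‖ₑ ^ (2:ℝ) ≤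
      9 * ∫⁻ w in ann κ, ‖F w‖ₑ ^ (2:ℝ) := by
    intro τ hτ
    obtain ⟨φ, hφ⟩ : ∃ φ : E 2 → ℝ≥0∞, φ = (ann κ).indicator (fun u => ‖F u‖ₑ ^ (2:ℝ)) := ⟨_, rfl⟩
    have hφm : Measurable φ := by
      rw [hφ]
      exact (hF.enorm.pow_const 2).indicator (hol_meas_ann κ)
    calc ∫⁻ w in sst κ, ‖F (fl c τ w)‖ₑ ^ (2:ℝ)
        ≤ ∫⁻ w in sst κ, φ (fl c τ w) := by
          refine setLIntegral_mono' (hol_meas_sst κ) fun w hw => ?_
          rw [hφ, indicator_of_mem (hol_fl_mem κ c h τ hκ hh1 hτ w hw)]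
      _ ≤ ∫⁻ w, φ (fl c τ w) := setLIntegral_le_lintegral _ _
      _ = ENNReal.ofReal (Real.exp (2 * τ)) * ∫⁻ w, φ w := lintegral_fl c τ φ hφm
      _ ≤ 9 * ∫⁻ w, φ w := by
          refine mul_le_mul_left ?_ _
          have h1 : Real.exp (2 * τ) ≤ 9 := by
            have h2 : Real.exp (2 * τ) ≤ Real.exp 2 := by
              apply Real.exp_le_exp.2
              have : τ ≤ 1 := by
                have := hτ.2
                nlinarith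
              linarith
            have h3 : Real.exp 2 = Real.exp 1 * Real.exp 1 := by
              rw [← Real.exp_add]
              norm_num
            have h4 := Real.exp_one_lt_d9
            have h5 := Real.exp_pos 1
            nlinarith
          calc ENNReal.ofReal (Real.exp (2 * τ)) ≤ ENNReal.ofReal 9 := ENNReal.ofReal_le_ofReal h1
            _ = 9 := ENNReal.ofReal_ofNat 9
      _ = 9 * ∫⁻ w in ann κ, ‖F w‖ₑ ^ (2:ℝ) := by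
          rw [hφ, lintegral_indicator (hol_meas_ann κ)]
  calc ∫⁻ w in sst κ, ‖av b c h F w‖ₑ ^ (2:ℝ)
      ≤ ∫⁻ w in sst κ, ENNReal.ofReal h⁻¹ * ∫⁻ τ in Ioc (0:ℝ) h, ‖F (fl c τ w)‖ₑ ^ (2:ℝ) :=
        lintegral_mono fun w => av_sq b c h hh F hF hb w
    _ = ENNReal.ofReal h⁻¹ * ∫⁻ τ in Ioc (0:ℝ) h, ∫⁻ w in sst κ, ‖F (fl c τ w)‖ₑ ^ (2:ℝ) := by
        rw [lintegral_const_mul' _ _ ENNReal.ofReal_ne_top,
          lintegral_lintegral_swap hm4.aemeasurable]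
    _ ≤ ENNReal.ofReal h⁻¹ * ∫⁻ _τ in Ioc (0:ℝ) h, 9 * ∫⁻ w in ann κ, ‖F w‖ₑ ^ (2:ℝ) :=
        mul_le_mul_right (setLIntegral_mono' measurableSet_Ioc hstep) _
    _ = 9 * ∫⁻ w in ann κ, ‖F w‖ₑ ^ (2:ℝ) := by
        rw [setLIntegral_const, Real.volume_Ioc, sub_zero, mul_comm _ (ENNReal.ofReal h),
          ← mul_assoc, ← ENNReal.ofReal_mul (inv_nonneg.2 hh.le), inv_mul_cancel₀ hh.ne',
          ENNReal.ofReal_one, one_mul]

end Pool.Agent.MSV
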