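import Pool.Agent.MSV.A4
import Pool.Agent.MSV.OL
import Pool.Agent.MSV.NR

namespace Pool.Agent.MSV

open MeasureTheory Set Pool.Agent.MP_6cbfb8_an Pool.Agent.MST
open scoped ENNReal NNReal Real

theorem hpb_vol (T : ℝ) (hT : 0 ≤ T) :
    volume {t : ℝ | T ≤ |t| ∧ |t| ≤ 2 * T} ≤ ENNReal.ofReal (2 * T) := by
  have h1 : {t : ℝ | T ≤ |t| ∧ |t| ≤ 2 * T} ⊆ Icc T (2 * T) ∪ Icc (-(2 * T)) (-T) := by
    rintro t ⟨h2, h3⟩
    rcases le_total 0 t with h4 | h4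
    · rw [abs_of_nonneg h4] at h2 h3
      exact Or.inl ⟨h2, h3⟩
    · rw [abs_of_nonpos h4] at h2 h3
      exact Or.inr ⟨by linarith, by linarith⟩
  refine (measure_mono h1).trans ((measure_union_le _ _).trans ?_)
  rw [Real.volume_Icc, Real.volume_Icc, ← ENNReal.ofReal_add (by linarith) (by linarith)]
  exact ENNReal.ofReal_le_ofReal (by linarith)

theorem hpb_meas_op (a : ℝ → ℝ) (ha : Cut a) (κ : ℝ) (F : E 2 → ℂ) (hF : Measurable F) :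
    Measurable fun q : ℝ × E 2 => ‖op a κ 1 q.1 F q.2‖ₑ := by
  have h2 := measurable_op a ha κ F hF
  have h3 : Measurable fun q : ℝ × E 2 => ((1, q.1, q.2) : ℝ × ℝ × E 2) := by
    fun_prop
  exact (h2.comp h3).enorm

theorem hpb_meas_op1 (a : ℝ → ℝ) (ha : Cut a) (κ t : ℝ) (F : E 2 → ℂ) (hF : Measurable F) :
    Measurable fun x : E 2 => ‖op a κ 1 t F x‖ₑ := by
  have h2 := measurable_op a ha κ F hF
  have h3 : Measurable fun x : E 2 => ((1, t, x) : ℝ × ℝ × E 2) := by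
    fun_prop
  exact (h2.comp h3).enorm

theorem piece_p (a : ℝ → ℝ) (ha : Cut a) (p : ℝ) (hp : 2 < p) (hp4 : p < 4) (κ T : ℝ)
    (hT : 0 < T) (F : E 2 → ℂ) (hF : Measurable F) (X2 X4 : ℝ≥0∞)
    (h2 : ∀ t, ∫⁻ x, ‖op a κ 1 t F x‖ₑ ^ (2:ℝ) ≤ X2)
    (h4 : ∫⁻ t in {t : ℝ | T ≤ |t| ∧ |t| ≤ 2 * T}, ∫⁻ x : E 2, ‖op a κ 1 t F x‖ₑ ^ (4:ℝ) ≤ X4) :
    ∫⁻ t in {t : ℝ | T ≤ |t| ∧ |t| ≤ 2 * T}, ∫⁻ x : E 2, ‖op a κ 1 t F x‖ₑ ^ p ≤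
      (ENNReal.ofReal (2 * T) * X2) ^ ((4 - p) / 2) * X4 ^ ((p - 2) / 2) := by
  have hm := hpb_meas_op a ha κ F hF
  set S : Set ℝ := {t : ℝ | T ≤ |t| ∧ |t| ≤ 2 * T} with hS
  have hprod : ∀ e : ℝ, ∫⁻ q : ℝ × E 2, ‖op a κ 1 q.1 F q.2‖ₑ ^ e
      ∂(((volume : Measure ℝ).restrict S).prod (volume : Measure (E 2))) =
      ∫⁻ t in S, ∫⁻ x : E 2, ‖op a κ 1 t F x‖ₑ ^ e := by
    intro e
    rw [lintegral_prod _ (hm.pow_const e).aemeasurable]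
  have h6 := lintegral_interp (μ := ((volume : Measure ℝ).restrict S).prod (volume : Measure (E 2)))
    _ hm (p := p) (q := 4) (a := (4 - p) / 2) (by linarith) (by linarith) (by norm_num) (by ring)
  have e1 : 1 - (4 - p) / 2 = (p - 2) / 2 := by ring
  rw [e1, hprod, hprod, hprod] at h6
  refine h6.trans (mul_le_mul' (ENNReal.rpow_le_rpow ?_ (by linarith))
    (ENNReal.rpow_le_rpow h4 (by linarith)))
  calc ∫⁻ t in S, ∫⁻ x : E 2, ‖op a κ 1 t F x‖ₑ ^ (2:ℝ) ≤ ∫⁻ _t in S, X2 :=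
        lintegral_mono fun t => h2 t
    _ = X2 * volume S := setLIntegral_const _ _
    _ ≤ X2 * ENNReal.ofReal (2 * T) := by
        gcongr
        exact hpb_vol T hT.le
    _ = _ := mul_comm _ _

/-- powers of products -/
theorem hpb_comb (K1 K2 : ℝ≥0∞) {x y s t : ℝ} (hx : 0 < x) (hy : 0 < y) (hs : 0 ≤ s)
    (ht : 0 ≤ t) :
    (K1 * ENNReal.ofReal x) ^ s * (K2 * ENNReal.ofReal y) ^ t =
      K1 ^ s * K2 ^ t * ENNReal.ofReal (x ^ s * y ^ t) := by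
  rw [ENNReal.mul_rpow_of_nonneg _ _ hs, ENNReal.mul_rpow_of_nonneg _ _ ht,
    ENNReal.ofReal_rpow_of_pos hx, ENNReal.ofReal_rpow_of_pos hy,
    ENNReal.ofReal_mul (by positivity)]
  ring

theorem hpb_exp {x : ℝ} (hx : 0 < x) : ∃ y : ℝ, x = Real.exp y :=
  ⟨Real.log x, (Real.exp_log hx).symm⟩

theorem hpb_exp_nonpos {y : ℝ} (h : Real.exp y ≤ 1) : y ≤ 0 := by
  rwa [Real.exp_le_one_iff] at h

theorem hpb_exp_nonneg {y : ℝ} (h : 1 ≤ Real.exp y) : 0 ≤ y := by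
  rwa [Real.one_le_exp_iff] at h

theorem hpb_sq (y : ℝ) : (Real.exp y) ^ 2 = Real.exp (2 * y) := by
  rw [two_mul, Real.exp_add, sq]

theorem piece_zero (a : ℝ → ℝ) (ha : Cut a) (p δ : ℝ) (hp : 3 < p) (hp4 : p < 4) (hδ : 0 < δ)
    (hδ1 : δ ≤ 1 / 4) : ∃ C : ℝ≥0∞, C ≠ ∞ ∧ ∀ κ T : ℝ, 0 < κ → κ ≤ 1 → 1 ≤ T →
    ∀ (b c : ℝ) (G : E 2 → ℂ), Measurable G → (∀ w, ‖G w‖ ≤ 1) →
    ∫⁻ t in {t : ℝ | T ≤ |t| ∧ |t| ≤ 2 * T},
      ∫⁻ x : E 2, ‖op a κ 1 t (av b c (κ ^ 2) G) x‖ₑ ^ p ≤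
      C * ENNReal.ofReal (T ^ (3 - p + 2 * δ) * κ ^ p) := by
  obtain ⟨C1, hC1, h1⟩ := op_L2 a ha
  obtain ⟨C2, hC2, h2⟩ := NN_le δ hδ hδ1
  obtain ⟨C3, hC3, h3⟩ := av_L4 a ha δ hδ hδ1
  refine ⟨(2 * (C1 * 9 * C2)) ^ ((4 - p) / 2) * (C3 * C2) ^ ((p - 2) / 2),
    ENNReal.mul_ne_top (ENNReal.rpow_ne_top_of_nonneg (by linarith) (ENNReal.mul_ne_top (by simp)
      (ENNReal.mul_ne_top (ENNReal.mul_ne_top hC1 (by simp)) hC2)))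
      (ENNReal.rpow_ne_top_of_nonneg (by linarith) (ENNReal.mul_ne_top hC3 hC2)), ?_⟩
  intro κ T hκ hκ1 hT b c G hG hGb
  have hT0 : 0 < T := by linarith
  have hκ2 : 0 < κ ^ 2 := by positivity
  have hb2 : ∀ w, ‖G w‖ ≤ 2 := fun w => (hGb w).trans (by norm_num)
  have hF : Measurable (av b c (κ ^ 2) G) := measurable_av b c (κ ^ 2) G hG
  have hN := h2 κ hκ hκ1 G hGb
  have hX2 : ∀ t, ∫⁻ x, ‖op a κ 1 t (av b c (κ ^ 2) G) x‖ₑ ^ (2:ℝ) ≤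
      C1 * 9 * C2 * ENNReal.ofReal (κ ^ 2) := by
    intro t
    calc ∫⁻ x, ‖op a κ 1 t (av b c (κ ^ 2) G) x‖ₑ ^ (2:ℝ)
        ≤ C1 * ∫⁻ w in sst κ, ‖av b c (κ ^ 2) G w‖ₑ ^ (2:ℝ) :=
          h1 κ t hκ hκ1 _ hF fun w => (norm_av_le b c (κ ^ 2) hκ2 G hGb w).trans (by norm_num)
      _ ≤ C1 * (9 * ∫⁻ w in ann κ, ‖G w‖ₑ ^ (2:ℝ)) :=
          mul_le_mul' le_rfl (av_L2 κ b c (κ ^ 2) hκ hκ1 hκ2 le_rfl G hG hb2)
      _ ≤ C1 * (9 * (C2 * ENNReal.ofReal (κ ^ 2))) :=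
          mul_le_mul' le_rfl (mul_le_mul' le_rfl ((NN_ge κ δ hδ hδ1 G).trans hN))
      _ = _ := by ring
  have hX4 : ∫⁻ t in {t : ℝ | T ≤ |t| ∧ |t| ≤ 2 * T},
      ∫⁻ x : E 2, ‖op a κ 1 t (av b c (κ ^ 2) G) x‖ₑ ^ (4:ℝ) ≤
      C3 * C2 * ENNReal.ofReal (T ^ (-1 + 2 * δ) * κ ^ (4 + δ)) := by
    refine (h3 κ T hκ hκ1 hT0 b c (κ ^ 2) hκ2 le_rfl G hG hGb).trans ?_
    calc C3 * ENNReal.ofReal ((κ ^ 2)⁻¹ * (T ^ (-1 + 2 * δ) * κ ^ (4 + δ))) * NN κ δ G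
        ≤ C3 * ENNReal.ofReal ((κ ^ 2)⁻¹ * (T ^ (-1 + 2 * δ) * κ ^ (4 + δ))) *
          (C2 * ENNReal.ofReal (κ ^ 2)) := mul_le_mul' le_rfl hN
      _ = C3 * C2 * (ENNReal.ofReal ((κ ^ 2)⁻¹ * (T ^ (-1 + 2 * δ) * κ ^ (4 + δ))) *
          ENNReal.ofReal (κ ^ 2)) := by ring
      _ = _ := by
          rw [← ENNReal.ofReal_mul (by positivity)]
          congr 2
          field_simp
  have hpp := piece_p a ha p (by linarith) hp4 κ T hT0 _ hF _ _ hX2 hX4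
  refine hpp.trans ?_
  have e1 : ENNReal.ofReal (2 * T) * (C1 * 9 * C2 * ENNReal.ofReal (κ ^ 2)) =
      2 * (C1 * 9 * C2) * ENNReal.ofReal (T * κ ^ 2) := by
    rw [ENNReal.ofReal_mul zero_le_two, ENNReal.ofReal_ofNat, ENNReal.ofReal_mul hT0.le]
    ring
  rw [e1, hpb_comb _ _ (by positivity) (by positivity) (by linarith) (by linarith)]
  refine mul_le_mul' le_rfl (ENNReal.ofReal_le_ofReal ?_)
  obtain ⟨k, rfl⟩ := hpb_exp hκ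
  obtain ⟨t, rfl⟩ := hpb_exp hT0
  have hk := hpb_exp_nonpos hκ1
  have ht := hpb_exp_nonneg hT
  simp only [hpb_sq, ← Real.exp_mul, ← Real.exp_add]
  apply Real.exp_le_exp.2
  have q1 : 0 ≤ t * (δ * (4 - p)) := mul_nonneg ht (mul_nonneg hδ.le (by linarith))
  have q2 : 0 ≤ (-k) * (δ * (p - 2)) := mul_nonneg (by linarith) (mul_nonneg hδ.le (by linarith))
  nlinarith

theorem hpb_norm_tw (b τ : ℝ) : ‖tw b τ‖ = 1 := by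
  unfold tw
  exact Complex.norm_exp_ofReal_mul_I _

theorem hpb_D_norm (b c h : ℝ) (G : E 2 → ℂ) (hb : ∀ w, ‖G w‖ ≤ 1) (u : E 2) :
    ‖(G u - tw b h * G (fl c h u)) / 2‖ ≤ 1 := by
  rw [norm_div, Complex.norm_ofNat, div_le_one two_pos]
  refine (norm_sub_le _ _).trans ?_
  rw [norm_mul, hpb_norm_tw, one_mul]
  linarith [hb u, hb (fl c h u)]

theorem hpb_NN_half (κ δ : ℝ) (F : E 2 → ℂ) : NN κ δ (fun u => F u / 2) ≤ NN κ δ F := by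
  unfold NN
  refine lintegral_mono fun w => mul_le_mul' (ENNReal.rpow_le_rpow ?_ zero_le_two) le_rfl
  rw [← ofReal_norm, ← ofReal_norm]
  apply ENNReal.ofReal_le_ofReal
  rw [norm_div, Complex.norm_ofNat]
  linarith [norm_nonneg (F w)]

theorem piece_diff (a : ℝ → ℝ) (ha : Cut a) (p δ ε : ℝ) (hp : 3 < p) (hp4 : p < 4) (hδ : 0 < δ)
    (hδ1 : δ ≤ 1 / 4) (hε : 0 < ε) (hε1 : ε < 1 / 2) (A : ℝ → ℝ≥0) :
    ∃ C : ℝ≥0∞, C ≠ ∞ ∧ ∀ κ T h : ℝ, 0 < κ → κ ≤ 1 → 1 ≤ T → 0 < h → h ≤ κ ^ 2 → h < 1 →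
    ∀ (b c : ℝ) (G : E 2 → ℂ), Measurable G → (∀ w, ‖G w‖ ≤ 1) → RV A b c G →
    ∫⁻ t in {t : ℝ | T ≤ |t| ∧ |t| ≤ 2 * T},
      ∫⁻ x : E 2, ‖op a κ 1 t (av b c h (fun u => (G u - tw b h * G (fl c h u)) / 2)) x‖ₑ ^ p ≤
      C * ENNReal.ofReal (T ^ (3 - p + 2 * δ) * h ^ ((3 - p) / 2 - ε) * κ ^ (2 * p - 3)) := by
  obtain ⟨C1, hC1, h1⟩ := op_L2 a ha
  obtain ⟨C3, hC3, h3⟩ := av_L4 a ha δ hδ hδ1
  refine ⟨(2 * (C1 * 9 * (5 * A ε))) ^ ((4 - p) / 2) * (C3 * (5 * A ε)) ^ ((p - 2) / 2),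
    ENNReal.mul_ne_top (ENNReal.rpow_ne_top_of_nonneg (by linarith) (ENNReal.mul_ne_top (by simp)
      (ENNReal.mul_ne_top (ENNReal.mul_ne_top hC1 (by simp))
        (ENNReal.mul_ne_top (by simp) ENNReal.coe_ne_top))))
      (ENNReal.rpow_ne_top_of_nonneg (by linarith) (ENNReal.mul_ne_top hC3
        (ENNReal.mul_ne_top (by simp) ENNReal.coe_ne_top))), ?_⟩
  intro κ T h hκ hκ1 hT hh hhκ hh1 b c G hG hGb hRV
  have hT0 : 0 < T := by linarith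
  set D : E 2 → ℂ := fun u => (G u - tw b h * G (fl c h u)) / 2 with hD
  have hfl : Measurable (fl c h) := by
    unfold fl
    fun_prop
  have hDm : Measurable D := by
    rw [hD]
    exact (hG.sub (measurable_const.mul (hG.comp hfl))).div_const 2
  have hDb : ∀ w, ‖D w‖ ≤ 1 := fun w => hpb_D_norm b c h G hGb w
  have hb2 : ∀ w, ‖D w‖ ≤ 2 := fun w => (hDb w).trans (by norm_num)
  have hF : Measurable (av b c h D) := measurable_av b c h D hDm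
  have hN : NN κ δ D ≤ 5 * A ε * ENNReal.ofReal (κ * h ^ (1 / 2 - ε)) := by
    refine (hpb_NN_half κ δ (fun u => G u - tw b h * G (fl c h u))).trans
      ((NN_diff A b c G hG hRV κ δ ε h hκ hδ hδ1 hε hε1 hh hh1).trans (le_of_eq ?_))
    rw [ENNReal.ofReal_mul (by norm_num), ENNReal.ofReal_ofNat, ENNReal.ofReal_mul hκ.le]
    ring
  have hX2 : ∀ t, ∫⁻ x, ‖op a κ 1 t (av b c h D) x‖ₑ ^ (2:ℝ) ≤
      C1 * 9 * (5 * A ε) * ENNReal.ofReal (κ * h ^ (1 / 2 - ε)) := by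
    intro t
    calc ∫⁻ x, ‖op a κ 1 t (av b c h D) x‖ₑ ^ (2:ℝ)
        ≤ C1 * ∫⁻ w in sst κ, ‖av b c h D w‖ₑ ^ (2:ℝ) :=
          h1 κ t hκ hκ1 _ hF fun w => (norm_av_le b c h hh D hDb w).trans (by norm_num)
      _ ≤ C1 * (9 * ∫⁻ w in ann κ, ‖D w‖ₑ ^ (2:ℝ)) :=
          mul_le_mul' le_rfl (av_L2 κ b c h hκ hκ1 hh hhκ D hDm hb2)
      _ ≤ C1 * (9 * (5 * A ε * ENNReal.ofReal (κ * h ^ (1 / 2 - ε)))) :=
          mul_le_mul' le_rfl (mul_le_mul' le_rfl ((NN_ge κ δ hδ hδ1 D).trans hN))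
      _ = _ := by ring
  have hX4 : ∫⁻ t in {t : ℝ | T ≤ |t| ∧ |t| ≤ 2 * T},
      ∫⁻ x : E 2, ‖op a κ 1 t (av b c h D) x‖ₑ ^ (4:ℝ) ≤
      C3 * (5 * A ε) * ENNReal.ofReal (h⁻¹ * (T ^ (-1 + 2 * δ) * κ ^ (4 + δ)) *
        (κ * h ^ (1 / 2 - ε))) := by
    refine (h3 κ T hκ hκ1 hT0 b c h hh hhκ D hDm hDb).trans ?_
    calc C3 * ENNReal.ofReal (h⁻¹ * (T ^ (-1 + 2 * δ) * κ ^ (4 + δ))) * NN κ δ D
        ≤ C3 * ENNReal.ofReal (h⁻¹ * (T ^ (-1 + 2 * δ) * κ ^ (4 + δ))) *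
          (5 * A ε * ENNReal.ofReal (κ * h ^ (1 / 2 - ε))) := mul_le_mul' le_rfl hN
      _ = C3 * (5 * A ε) * (ENNReal.ofReal (h⁻¹ * (T ^ (-1 + 2 * δ) * κ ^ (4 + δ))) *
          ENNReal.ofReal (κ * h ^ (1 / 2 - ε))) := by ring
      _ = _ := by
          rw [← ENNReal.ofReal_mul (by positivity)]
  have hpp := piece_p a ha p (by linarith) hp4 κ T hT0 _ hF _ _ hX2 hX4
  refine hpp.trans ?_
  have e1 : ENNReal.ofReal (2 * T) * (C1 * 9 * (5 * A ε) * ENNReal.ofReal (κ * h ^ (1 / 2 - ε))) =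
      2 * (C1 * 9 * (5 * A ε)) * ENNReal.ofReal (T * (κ * h ^ (1 / 2 - ε))) := by
    rw [ENNReal.ofReal_mul zero_le_two, ENNReal.ofReal_ofNat, ENNReal.ofReal_mul hT0.le]
    ring
  rw [e1, hpb_comb _ _ (by positivity) (by positivity) (by linarith) (by linarith)]
  refine mul_le_mul' le_rfl (ENNReal.ofReal_le_ofReal ?_)
  obtain ⟨k, rfl⟩ := hpb_exp hκ
  obtain ⟨t, rfl⟩ := hpb_exp hT0
  obtain ⟨s, rfl⟩ := hpb_exp hh
  have hk := hpb_exp_nonpos hκ1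
  have ht := hpb_exp_nonneg hT
  simp only [← Real.exp_mul, ← Real.exp_add, ← Real.exp_neg]
  apply Real.exp_le_exp.2
  have q1 : 0 ≤ t * (δ * (4 - p)) := mul_nonneg ht (mul_nonneg hδ.le (by linarith))
  have q2 : 0 ≤ (-k) * (δ * (p - 2)) := mul_nonneg (by linarith) (mul_nonneg hδ.le (by linarith))
  nlinarith

theorem piece_tail (a : ℝ → ℝ) (ha : Cut a) (p ε : ℝ) (hp : 3 < p) (hp4 : p < 4)
    (hε : 0 < ε) (hε1 : ε < 1 / 2) (A : ℝ → ℝ≥0) :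
    ∃ C : ℝ≥0∞, C ≠ ∞ ∧ ∀ κ T h : ℝ, 0 < κ → κ ≤ 1 → 1 ≤ T → 0 < h → h ≤ κ ^ 2 → h < 1 →
    ∀ (b c : ℝ) (G : E 2 → ℂ), Measurable G → (∀ w, ‖G w‖ ≤ 1) → RV A b c G →
    ∫⁻ t in {t : ℝ | T ≤ |t| ∧ |t| ≤ 2 * T},
      ∫⁻ x : E 2, ‖op a κ 1 t (fun w => G w - av b c h G w) x‖ₑ ^ p ≤
      C * ENNReal.ofReal (T * κ ^ (1 + 3 * (p - 2) / 2) * h ^ ((1 / 2 - ε) * p / 2)) := by
  obtain ⟨C1, hC1, h1⟩ := op_L2 a ha
  obtain ⟨C2, hC2, h2⟩ := op_sup a ha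
  refine ⟨(C2 * (5 * A ε)) ^ ((p - 2) / 2) * (2 * (C1 * (5 * A ε))),
    ENNReal.mul_ne_top (ENNReal.rpow_ne_top_of_nonneg (by linarith) (ENNReal.mul_ne_top hC2
        (ENNReal.mul_ne_top (by simp) ENNReal.coe_ne_top)))
      (ENNReal.mul_ne_top (by simp) (ENNReal.mul_ne_top hC1
        (ENNReal.mul_ne_top (by simp) ENNReal.coe_ne_top))), ?_⟩
  intro κ T h hκ hκ1 hT hh hhκ hh1 b c G hG hGb hRV
  have hT0 : 0 < T := by linarith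
  set F : E 2 → ℂ := fun w => G w - av b c h G w with hFd
  have hF : Measurable F := hG.sub (measurable_av b c h G hG)
  have hFb : ∀ w, ‖F w‖ ≤ 2 := by
    intro w
    refine (norm_sub_le _ _).trans ?_
    linarith [hGb w, norm_av_le b c h hh G hGb w]
  have hN : ∫⁻ w in sst κ, ‖F w‖ₑ ^ (2:ℝ) ≤ 5 * A ε * ENNReal.ofReal (κ * h ^ (1 / 2 - ε)) := by
    have hsub : sst κ ⊆ ann κ := by
      rintro w ⟨g1, g2⟩
      refine ⟨?_, g2⟩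
      nlinarith [sq_nonneg κ]
    refine (lintegral_mono_set hsub).trans ((NN_ge κ (1 / 4) (by norm_num) le_rfl F).trans
      ((NN_av A b c G hG hGb hRV κ (1 / 4) ε h hκ (by norm_num) le_rfl hε hε1 hh hh1).trans
        (le_of_eq ?_)))
    rw [ENNReal.ofReal_mul (by norm_num), ENNReal.ofReal_ofNat, ENNReal.ofReal_mul hκ.le]
    ring
  set N : ℝ≥0∞ := 5 * A ε * ENNReal.ofReal (κ * h ^ (1 / 2 - ε)) with hNd
  have hsup : ∀ t x, ‖op a κ 1 t F x‖ₑ ≤ (C2 * ENNReal.ofReal (κ ^ 2) * N) ^ ((1:ℝ) / 2) := by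
    intro t x
    have g1 := (h2 κ t hκ hκ1 F hF hFb x).trans (mul_le_mul' le_rfl hN)
    have g2 := ENNReal.rpow_le_rpow g1 (by norm_num : (0:ℝ) ≤ 1 / 2)
    rwa [← ENNReal.rpow_mul, show (2:ℝ) * (1 / 2) = 1 by norm_num, ENNReal.rpow_one] at g2
  have hx : ∀ t, ∫⁻ x : E 2, ‖op a κ 1 t F x‖ₑ ^ p ≤
      (C2 * ENNReal.ofReal (κ ^ 2) * N) ^ ((p - 2) / 2) * (C1 * N) := by
    intro t
    have hm : Measurable fun x : E 2 => ‖op a κ 1 t F x‖ₑ := hpb_meas_op1 a ha κ t F hF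
    refine (lintegral_rpow_le_sup _ hm zero_le_two (by linarith : (2:ℝ) ≤ p) _
      (fun x => hsup t x)).trans ?_
    rw [← ENNReal.rpow_mul, show (1:ℝ) / 2 * (p - 2) = (p - 2) / 2 by ring]
    refine mul_le_mul' le_rfl ((h1 κ t hκ hκ1 F hF hFb).trans (mul_le_mul' le_rfl hN))
  calc ∫⁻ t in {t : ℝ | T ≤ |t| ∧ |t| ≤ 2 * T}, ∫⁻ x : E 2, ‖op a κ 1 t F x‖ₑ ^ p
      ≤ ∫⁻ _t in {t : ℝ | T ≤ |t| ∧ |t| ≤ 2 * T},
        (C2 * ENNReal.ofReal (κ ^ 2) * N) ^ ((p - 2) / 2) * (C1 * N) :=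
        lintegral_mono fun t => hx t
    _ = (C2 * ENNReal.ofReal (κ ^ 2) * N) ^ ((p - 2) / 2) * (C1 * N) *
        volume {t : ℝ | T ≤ |t| ∧ |t| ≤ 2 * T} := setLIntegral_const _ _
    _ ≤ (C2 * ENNReal.ofReal (κ ^ 2) * N) ^ ((p - 2) / 2) * (C1 * N) *
        ENNReal.ofReal (2 * T) := by
        gcongr
        exact hpb_vol T hT0.le
    _ = (C2 * (5 * A ε) * ENNReal.ofReal (κ ^ 2 * (κ * h ^ (1 / 2 - ε)))) ^ ((p - 2) / 2) *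
        (2 * (C1 * (5 * A ε)) * ENNReal.ofReal (T * (κ * h ^ (1 / 2 - ε)))) ^ (1:ℝ) := by
        rw [ENNReal.rpow_one, hNd, ENNReal.ofReal_mul zero_le_two, ENNReal.ofReal_ofNat,
          ENNReal.ofReal_mul (p := κ ^ 2) (by positivity), ENNReal.ofReal_mul hT0.le]
        have e2 : C2 * ENNReal.ofReal (κ ^ 2) * (5 * A ε * ENNReal.ofReal (κ * h ^ (1 / 2 - ε))) =
            C2 * (5 * A ε) * (ENNReal.ofReal (κ ^ 2) * ENNReal.ofReal (κ * h ^ (1 / 2 - ε))) := by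
          ring
        rw [e2]
        ring
    _ ≤ _ := by
        rw [hpb_comb _ _ (by positivity) (by positivity) (by linarith) zero_le_one,
          ENNReal.rpow_one]
        refine mul_le_mul' le_rfl (ENNReal.ofReal_le_ofReal (le_of_eq ?_))
        obtain ⟨k, rfl⟩ := hpb_exp hκ
        obtain ⟨t, rfl⟩ := hpb_exp hT0
        obtain ⟨s, rfl⟩ := hpb_exp hh
        simp only [hpb_sq, ← Real.exp_mul, ← Real.exp_add, ← Real.exp_neg]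
        congr 1
        ring

end Pool.Agent.MSV
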