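import Pool.Agent.MSV.PB

namespace Pool.Agent.MSV

open MeasureTheory Set Pool.Agent.MP_6cbfb8_an Pool.Agent.MST
open scoped ENNReal NNReal Real

theorem hsh_norm_ex (x : ℝ) : ‖ex x‖ = 1 := by
  unfold ex
  exact Complex.norm_exp_ofReal_mul_I _

theorem hsh_int (a : ℝ → ℝ) (ha : Cut a) (κ t : ℝ) (hκ : 0 < κ) (hκ1 : κ ≤ 1) (F : E 2 → ℂ)
    (hF : Measurable F) (B : ℝ) (hb : ∀ w, ‖F w‖ ≤ B) (x : E 2) :
    Integrable (fun w : E 2 => F w * amp a κ 1 t (‖w‖ ^ 2) * ex (inner ℝ w x)) := by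
  obtain ⟨A, hA, hAb⟩ := cut_bdd a ha
  have hvol := hob_volS κ 1 1 hκ hκ1 one_pos le_rfl
  have hfin : volume (hobS κ 1) ≠ ∞ := ne_top_of_le_ne_top ENNReal.ofReal_ne_top hvol
  have hint : Integrable ((hobS κ 1).indicator (fun _ => B * A)) :=
    (integrable_indicator_iff (hob_measS κ 1)).2 (integrableOn_const hfin)
  have hB : 0 ≤ B := (norm_nonneg _).trans (hb 0)
  have hex : Measurable fun w : E 2 => ex (inner ℝ w x) := by
    unfold ex
    fun_prop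
  refine hint.mono' (((hF.mul (hob_meas_amp a ha κ 1 t)).mul hex).aestronglyMeasurable)
    (Filter.Eventually.of_forall fun w => ?_)
  rw [norm_mul, hsh_norm_ex, mul_one, norm_mul]
  have h1 := hob_norm A hA a ha hAb κ 1 t (fun _ => 1) (fun _ => by simp) w
  rw [one_mul] at h1
  by_cases hw : w ∈ hobS κ 1
  · rw [indicator_of_mem hw] at h1 ⊢
    exact mul_le_mul (hb w) h1 (norm_nonneg _) hB
  · rw [indicator_of_notMem hw] at h1 ⊢
    have h2 : ‖amp a κ 1 t (‖w‖ ^ 2)‖ = 0 := le_antisymm h1 (norm_nonneg _)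
    rw [h2, mul_zero]

theorem hsh_add (a : ℝ → ℝ) (ha : Cut a) (κ t : ℝ) (hκ : 0 < κ) (hκ1 : κ ≤ 1) (F1 F2 F : E 2 → ℂ)
    (hF1 : Measurable F1) (hF2 : Measurable F2) (B : ℝ) (hb1 : ∀ w, ‖F1 w‖ ≤ B)
    (hb2 : ∀ w, ‖F2 w‖ ≤ B) (hF : ∀ w, F w = F1 w + F2 w) (x : E 2) :
    op a κ 1 t F x = op a κ 1 t F1 x + op a κ 1 t F2 x := by
  unfold op
  rw [← integral_add (hsh_int a ha κ t hκ hκ1 F1 hF1 B hb1 x)
    (hsh_int a ha κ t hκ hκ1 F2 hF2 B hb2 x)]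
  refine integral_congr_ae (Filter.Eventually.of_forall fun w => ?_)
  simp only
  rw [hF w]
  ring

theorem hsh_prod (a : ℝ → ℝ) (ha : Cut a) (κ : ℝ) (F : E 2 → ℂ) (hF : Measurable F) (e : ℝ)
    (S : Set ℝ) : ∫⁻ t in S, ∫⁻ x : E 2, ‖op a κ 1 t F x‖ₑ ^ e =
    ∫⁻ q : ℝ × E 2, ‖op a κ 1 q.1 F q.2‖ₑ ^ e
      ∂(((volume : Measure ℝ).restrict S).prod (volume : Measure (E 2))) := by
  rw [lintegral_prod _ ((hpb_meas_op a ha κ F hF).pow_const e).aemeasurable]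

/-- the abstract summation -/
theorem hsh_abs {α : Type*} [MeasurableSpace α] (μ : Measure α) (p : ℝ) (hp : 1 ≤ p) (M : ℕ)
    (f z tl : α → ℝ≥0∞) (d : ℕ → α → ℝ≥0∞) (hz : Measurable z)
    (hd : ∀ m, Measurable (d m)) (h : ∀ x, f x ≤ z x + ∑ m ∈ Finset.range M, d m x + tl x)
    (Z D L : ℝ≥0∞) (hZ : ∫⁻ x, z x ^ p ∂μ ≤ Z) (hD : ∀ m, m < M → ∫⁻ x, d m x ^ p ∂μ ≤ D)
    (hL : ∫⁻ x, tl x ^ p ∂μ ≤ L) :
    ∫⁻ x, f x ^ p ∂μ ≤ 3 ^ p * (Z + (M : ℝ≥0∞) ^ p * D + L) := by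
  have hp0 : 0 ≤ p := by linarith
  have ms : Measurable fun x => (∑ m ∈ Finset.range M, d m x) ^ p :=
    (Finset.measurable_fun_sum _ fun m _ => hd m).pow_const p
  have mz : Measurable fun x => z x ^ p := hz.pow_const p
  have hs : ∫⁻ x, (∑ m ∈ Finset.range M, d m x) ^ p ∂μ ≤ (M : ℝ≥0∞) ^ p * D := by
    calc ∫⁻ x, (∑ m ∈ Finset.range M, d m x) ^ p ∂μ
        ≤ ∫⁻ x, (M : ℝ≥0∞) ^ (p - 1) * ∑ m ∈ Finset.range M, d m x ^ p ∂μ := by
          refine lintegral_mono fun x => ?_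
          have := ENNReal.rpow_sum_le_const_mul_sum_rpow (Finset.range M) (fun m => d m x) hp
          rwa [Finset.card_range] at this
      _ = (M : ℝ≥0∞) ^ (p - 1) * ∑ m ∈ Finset.range M, ∫⁻ x, d m x ^ p ∂μ := by
          rw [lintegral_const_mul _ (Finset.measurable_fun_sum _ fun m _ => (hd m).pow_const p),
            lintegral_finsetSum _ fun m _ => (hd m).pow_const p]
      _ ≤ (M : ℝ≥0∞) ^ (p - 1) * ∑ _m ∈ Finset.range M, D := by
          refine mul_le_mul' le_rfl (Finset.sum_le_sum fun m hm => hD m (Finset.mem_range.1 hm))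
      _ = (M : ℝ≥0∞) ^ (p - 1) * (M * D) := by
          rw [Finset.sum_const, Finset.card_range, nsmul_eq_mul]
      _ = (M : ℝ≥0∞) ^ p * D := by
          rw [← mul_assoc]
          congr 1
          conv_rhs => rw [show p = (p - 1) + 1 by ring]
          rw [ENNReal.rpow_add_of_nonneg _ _ (by linarith) zero_le_one, ENNReal.rpow_one]
  calc ∫⁻ x, f x ^ p ∂μ
      ≤ ∫⁻ x, 3 ^ p * (z x ^ p + (∑ m ∈ Finset.range M, d m x) ^ p + tl x ^ p) ∂μ := by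
        refine lintegral_mono fun x => ?_
        exact (ENNReal.rpow_le_rpow (h x) hp0).trans (add_rpow_le_three hp0)
    _ = 3 ^ p * ∫⁻ x, (z x ^ p + (∑ m ∈ Finset.range M, d m x) ^ p + tl x ^ p) ∂μ := by
        rw [lintegral_const_mul' _ _ (ENNReal.rpow_ne_top_of_nonneg hp0 (by simp))]
    _ = 3 ^ p * ((∫⁻ x, z x ^ p ∂μ) + (∫⁻ x, (∑ m ∈ Finset.range M, d m x) ^ p ∂μ) +
          ∫⁻ x, tl x ^ p ∂μ) := by
        have mzs : Measurable fun x => z x ^ p + (∑ m ∈ Finset.range M, d m x) ^ p := mz.add ms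
        rw [lintegral_add_left mzs, lintegral_add_left mz]
    _ ≤ _ := by gcongr

/-- the number of pieces -/
theorem hsh_M (T : ℝ) (hT : 1 ≤ T) : ∃ M : ℕ, 1 ≤ M ∧ T ^ ((3:ℝ) / 2) ≤ 2 ^ M ∧
    (2:ℝ) ^ M ≤ 4 * T ^ ((3:ℝ) / 2) := by
  have h1 : 1 ≤ T ^ ((3:ℝ) / 2) := Real.one_le_rpow hT (by norm_num)
  obtain ⟨n, hn1, hn2⟩ := exists_nat_pow_near h1 (one_lt_two (α := ℝ))
  refine ⟨n + 1, by omega, hn2.le, ?_⟩
  rw [pow_succ]
  linarith

theorem hsh_Mpow (e : ℝ) (he : 0 < e) : ∃ K : ℝ, 0 < K ∧ ∀ (T : ℝ) (M : ℕ) (p : ℝ), 1 ≤ T →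
    1 ≤ M → (2:ℝ) ^ M ≤ 4 * T ^ ((3:ℝ) / 2) → p ≤ 4 → (M : ℝ) ^ p ≤ K * T ^ e := by
  have hl : 0 < Real.log 2 := Real.log_pos (by norm_num)
  set η : ℝ := 2 / 3 * e * Real.log 2 with hη
  have hη0 : 0 < η := by positivity
  refine ⟨24 / η ^ 4 * 4 ^ (2 / 3 * e), by positivity, ?_⟩
  intro T M p hT hM h2 hp
  have hT0 : 0 < T := by linarith
  have hM1 : (1:ℝ) ≤ M := by exact_mod_cast hM
  have h3 : (M : ℝ) ^ p ≤ (M : ℝ) ^ 4 := by
    rw [← Real.rpow_natCast]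
    exact Real.rpow_le_rpow_of_exponent_le hM1 (by push_cast; exact hp)
  have h4 := Real.pow_div_factorial_le_exp (η * M) (by positivity) 4
  have h5 : (M : ℝ) ^ 4 ≤ 24 / η ^ 4 * Real.exp (η * M) := by
    have e1 : ((Nat.factorial 4 : ℕ) : ℝ) = 24 := by norm_num [Nat.factorial]
    rw [e1, mul_pow, div_le_iff₀ (by norm_num)] at h4
    rw [div_mul_eq_mul_div, le_div_iff₀ (by positivity)]
    linarith
  have h6 : Real.exp (η * M) = ((2:ℝ) ^ M) ^ (2 / 3 * e) := by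
    rw [← Real.rpow_natCast, ← Real.rpow_mul (by norm_num), Real.rpow_def_of_pos (by norm_num)]
    congr 1
    rw [hη]
    ring
  have h7 : ((2:ℝ) ^ M) ^ (2 / 3 * e) ≤ (4 * T ^ ((3:ℝ) / 2)) ^ (2 / 3 * e) :=
    Real.rpow_le_rpow (by positivity) h2 (by positivity)
  have h8 : (4 * T ^ ((3:ℝ) / 2)) ^ (2 / 3 * e) = 4 ^ (2 / 3 * e) * T ^ e := by
    rw [Real.mul_rpow (by norm_num) (by positivity), ← Real.rpow_mul hT0.le]
    congr 2
    ring
  calc (M : ℝ) ^ p ≤ (M : ℝ) ^ 4 := h3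
    _ ≤ 24 / η ^ 4 * Real.exp (η * M) := h5
    _ ≤ 24 / η ^ 4 * (4 ^ (2 / 3 * e) * T ^ e) := by
        rw [h6, ← h8]
        exact mul_le_mul_of_nonneg_left h7 (by positivity)
    _ = _ := by ring

theorem shell_V (a : ℝ → ℝ) (ha : Cut a) (p : ℝ) (hp : 3 < p) (hp4 : p < 4) (A : ℝ → ℝ≥0) :
    ∃ C : ℝ≥0∞, C ≠ ∞ ∧ ∀ κ T : ℝ, 0 < κ → κ ≤ 1 → 1 ≤ T →
    ∀ (b c : ℝ) (G : E 2 → ℂ), Measurable G → (∀ w, ‖G w‖ ≤ 1) → RV A b c G →
    ∫⁻ t in {t : ℝ | T ≤ |t| ∧ |t| ≤ 2 * T}, ∫⁻ x : E 2, ‖op a κ 1 t G x‖ₑ ^ p ≤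
      C * ENNReal.ofReal (T ^ (-((p - 3) / 8)) * κ ^ (p - (p - 3) / 16)) := by
  obtain ⟨e, he⟩ : ∃ e : ℝ, e = (p - 3) / 100 := ⟨_, rfl⟩
  have he0 : 0 < e := by rw [he]; linarith
  have he1 : e ≤ 1 / 100 := by rw [he]; linarith
  have hpe : p = 3 + 100 * e := by rw [he]; ring
  obtain ⟨Cz, hCz, hz⟩ := piece_zero a ha p e hp hp4 he0 (by linarith)
  obtain ⟨Cd, hCd, hd⟩ := piece_diff a ha p e e hp hp4 he0 (by linarith) he0 (by linarith) A
  obtain ⟨Ct, hCt, ht⟩ := piece_tail a ha p e hp hp4 he0 (by linarith) A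
  obtain ⟨K, hK0, hK⟩ := hsh_Mpow e he0
  refine ⟨3 ^ p * (Cz + ENNReal.ofReal K * (Cd * 4) + Ct), ENNReal.mul_ne_top
    (ENNReal.rpow_ne_top_of_nonneg (by linarith) (by simp)) (ENNReal.add_ne_top.2
      ⟨ENNReal.add_ne_top.2 ⟨hCz, ENNReal.mul_ne_top ENNReal.ofReal_ne_top
        (ENNReal.mul_ne_top hCd (by simp))⟩, hCt⟩), ?_⟩
  intro κ T hκ hκ1 hT b c G hG hGb hRV
  have hT0 : 0 < T := by linarith
  have hκ2 : 0 < κ ^ 2 := by positivity
  have hκ21 : κ ^ 2 ≤ 1 := by nlinarith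
  obtain ⟨M, hM1, hM2, hM3⟩ := hsh_M T hT
  set H : ℕ → ℝ := fun m => κ ^ 2 / 2 ^ m with hH
  have hH0 : ∀ m, 0 < H m := fun m => by positivity
  have hHs : ∀ m, H (m + 1) = H m / 2 := by
    intro m
    simp only [hH]
    rw [pow_succ (2:ℝ) m, div_div]
  have hHle : ∀ m, H m ≤ κ ^ 2 := by
    intro m
    exact div_le_self hκ2.le (one_le_pow₀ (by norm_num))
  have hHlt : ∀ m, H (m + 1) < 1 := by
    intro m
    rw [hHs]
    linarith [hHle m]
  have hHM : ∀ m, m ≤ M → H M ≤ H m := by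
    intro m hm
    simp only [hH]
    exact div_le_div_of_nonneg_left hκ2.le (by positivity) (pow_le_pow_right₀ (by norm_num) hm)
  -- the pieces
  set Dd : ℕ → E 2 → ℂ := fun m => av b c (H (m + 1))
    (fun u => (G u - tw b (H (m + 1)) * G (fl c (H (m + 1)) u)) / 2) with hDd
  set Fz : E 2 → ℂ := av b c (κ ^ 2) G with hFz
  set Ft : E 2 → ℂ := fun w => G w - av b c (H M) G w with hFt
  have mfl : ∀ h : ℝ, Measurable (fl c h) := by
    intro h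
    unfold fl
    fun_prop
  have mDin : ∀ h : ℝ, Measurable fun u => (G u - tw b h * G (fl c h u)) / 2 := fun h =>
    (hG.sub (measurable_const.mul (hG.comp (mfl h)))).div_const 2
  have mD : ∀ m, Measurable (Dd m) := fun m => measurable_av b c _ _ (mDin _)
  have mz : Measurable Fz := measurable_av b c _ G hG
  have mav : ∀ m, Measurable (av b c (H m) G) := fun m => measurable_av b c _ G hG
  have mt : Measurable Ft := hG.sub (mav M)
  have bD : ∀ m w, ‖Dd m w‖ ≤ 2 := fun m w =>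
    (norm_av_le b c _ (hH0 _) _ (hpb_D_norm b c _ G hGb) w).trans (by norm_num)
  have bav : ∀ m w, ‖av b c (H m) G w‖ ≤ 2 := fun m w =>
    (norm_av_le b c _ (hH0 _) G hGb w).trans (by norm_num)
  have bt : ∀ w, ‖Ft w‖ ≤ 2 := by
    intro w
    refine (norm_sub_le _ _).trans ?_
    linarith [hGb w, norm_av_le b c _ (hH0 M) G hGb w]
  have hH00 : H 0 = κ ^ 2 := by simp [hH]
  -- telescoping
  have htel : ∀ (n : ℕ) (q : ℝ × E 2), ‖op a κ 1 q.1 (av b c (H n) G) q.2‖ₑ ≤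
      ‖op a κ 1 q.1 Fz q.2‖ₑ + ∑ m ∈ Finset.range n, ‖op a κ 1 q.1 (Dd m) q.2‖ₑ := by
    intro n q
    induction n with
    | zero =>
      rw [hH00]
      simp [hFz]
    | succ n ih =>
      have h1 : op a κ 1 q.1 (av b c (H (n + 1)) G) q.2 =
          op a κ 1 q.1 (av b c (H n) G) q.2 + op a κ 1 q.1 (Dd n) q.2 := by
        refine hsh_add a ha κ q.1 hκ hκ1 _ _ _ (mav n) (mD n) 2 (bav n) (bD n) ?_ q.2
        intro w
        have h2 := av_telescope b c (H n) (hH0 n) G hG hGb w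
        simp only [hDd]
        rw [hHs n, ← h2]
        ring
      rw [h1, Finset.sum_range_succ, ← add_assoc]
      exact (enorm_add_le _ _).trans (add_le_add ih le_rfl)
  have hpt : ∀ q : ℝ × E 2, ‖op a κ 1 q.1 G q.2‖ₑ ≤
      ‖op a κ 1 q.1 Fz q.2‖ₑ + ∑ m ∈ Finset.range M, ‖op a κ 1 q.1 (Dd m) q.2‖ₑ +
        ‖op a κ 1 q.1 Ft q.2‖ₑ := by
    intro q
    have h1 : op a κ 1 q.1 G q.2 =
        op a κ 1 q.1 (av b c (H M) G) q.2 + op a κ 1 q.1 Ft q.2 := by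
      refine hsh_add a ha κ q.1 hκ hκ1 _ _ _ (mav M) mt 2 (bav M) bt ?_ q.2
      intro w
      simp only [hFt]
      ring
    rw [h1]
    exact (enorm_add_le _ _).trans (add_le_add (htel M q) le_rfl)
  -- exponentials
  obtain ⟨k, hk⟩ := hpb_exp hκ
  obtain ⟨τ, hτ⟩ := hpb_exp hT0
  have hk0 : k ≤ 0 := hpb_exp_nonpos (hk ▸ hκ1)
  have hτ0 : 0 ≤ τ := hpb_exp_nonneg (hτ ▸ hT)
  have hHMt : H M ≤ κ ^ 2 * T ^ (-((3:ℝ) / 2)) := by
    simp only [hH]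
    rw [Real.rpow_neg hT0.le, ← div_eq_mul_inv]
    exact div_le_div_of_nonneg_left hκ2.le (by positivity) hM2
  have hHMb : κ ^ 2 * T ^ (-((3:ℝ) / 2)) / 4 ≤ H M := by
    simp only [hH]
    rw [Real.rpow_neg hT0.le, ← div_eq_mul_inv, div_div]
    exact div_le_div_of_nonneg_left hκ2.le (by positivity) (by linarith)
  set R : ℝ := T ^ (-((p - 3) / 8)) * κ ^ (p - (p - 3) / 16) with hR
  have hR0 : 0 ≤ R := by positivity
  have bz : T ^ (3 - p + 2 * e) * κ ^ p ≤ R := by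
    rw [hR, hk, hτ]
    simp only [← Real.exp_mul, ← Real.exp_add]
    apply Real.exp_le_exp.2
    have q1 : 0 ≤ τ * e := by positivity
    have q2 : 0 ≤ (-k) * e := mul_nonneg (by linarith) he0.le
    rw [hpe]
    nlinarith
  have bd : ∀ m, m < M → T ^ (3 - p + 2 * e) * H (m + 1) ^ ((3 - p) / 2 - e) * κ ^ (2 * p - 3) ≤
      4 * (T ^ (-e) * R) := by
    intro m hm
    have hx0 : 0 < κ ^ 2 * T ^ (-((3:ℝ) / 2)) / 4 := by positivity
    have h1 : H (m + 1) ^ ((3 - p) / 2 - e) ≤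
        (κ ^ 2 * T ^ (-((3:ℝ) / 2)) / 4) ^ ((3 - p) / 2 - e) :=
      Real.rpow_le_rpow_of_nonpos hx0 (hHMb.trans (hHM _ (by omega))) (by rw [hpe]; linarith)
    have h2 : (κ ^ 2 * T ^ (-((3:ℝ) / 2)) / 4) ^ ((3 - p) / 2 - e) ≤
        4 * (κ ^ 2 * T ^ (-((3:ℝ) / 2))) ^ ((3 - p) / 2 - e) := by
      rw [Real.div_rpow (by positivity) (by norm_num), div_eq_mul_inv, ← Real.rpow_neg (by norm_num),
        mul_comm]
      refine mul_le_mul_of_nonneg_right ?_ (by positivity)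
      calc (4:ℝ) ^ (-((3 - p) / 2 - e)) ≤ 4 ^ (1:ℝ) :=
            Real.rpow_le_rpow_of_exponent_le (by norm_num) (by rw [hpe]; linarith)
        _ = 4 := Real.rpow_one 4
    calc T ^ (3 - p + 2 * e) * H (m + 1) ^ ((3 - p) / 2 - e) * κ ^ (2 * p - 3)
        ≤ T ^ (3 - p + 2 * e) * (4 * (κ ^ 2 * T ^ (-((3:ℝ) / 2))) ^ ((3 - p) / 2 - e)) *
          κ ^ (2 * p - 3) := by
          refine mul_le_mul_of_nonneg_right ?_ (by positivity)
          exact mul_le_mul_of_nonneg_left (h1.trans h2) (by positivity)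
      _ = 4 * (T ^ (3 - p + 2 * e) * (κ ^ 2 * T ^ (-((3:ℝ) / 2))) ^ ((3 - p) / 2 - e) *
          κ ^ (2 * p - 3)) := by ring
      _ ≤ 4 * (T ^ (-e) * R) := by
          refine mul_le_mul_of_nonneg_left ?_ (by norm_num)
          rw [hR, hk, hτ]
          simp only [hpb_sq, ← Real.exp_mul, ← Real.exp_add]
          apply Real.exp_le_exp.2
          have q1 : 0 ≤ τ * e := by positivity
          have q2 : 0 ≤ (-k) * e := mul_nonneg (by linarith) he0.le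
          rw [hpe]
          nlinarith
  have bt' : T * κ ^ (1 + 3 * (p - 2) / 2) * H M ^ ((1 / 2 - e) * p / 2) ≤ R := by
    have h1 : H M ^ ((1 / 2 - e) * p / 2) ≤
        (κ ^ 2 * T ^ (-((3:ℝ) / 2))) ^ ((1 / 2 - e) * p / 2) :=
      Real.rpow_le_rpow (hH0 M).le hHMt (by
        have : 0 ≤ (1 / 2 - e) * p := mul_nonneg (by linarith) (by linarith)
        linarith)
    refine (mul_le_mul_of_nonneg_left h1 (by positivity)).trans ?_
    rw [hR, hk, hτ]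
    simp only [hpb_sq, ← Real.exp_mul, ← Real.exp_add]
    apply Real.exp_le_exp.2
    have q1 : 0 ≤ τ * e := by positivity
    have q2 : 0 ≤ (-k) * e := mul_nonneg (by linarith) he0.le
    have q3 : 0 ≤ τ * (e * (1 / 100 - e)) := mul_nonneg hτ0 (mul_nonneg he0.le (by linarith))
    have q4 : 0 ≤ (-k) * (e * (1 / 100 - e)) :=
      mul_nonneg (by linarith) (mul_nonneg he0.le (by linarith))
    rw [hpe]
    nlinarith
  rw [hsh_prod a ha κ G hG]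
  have hfin := hsh_abs (((volume : Measure ℝ).restrict {t : ℝ | T ≤ |t| ∧ |t| ≤ 2 * T}).prod
    (volume : Measure (E 2))) p (by linarith) M (fun q => ‖op a κ 1 q.1 G q.2‖ₑ)
    (fun q => ‖op a κ 1 q.1 Fz q.2‖ₑ) (fun q => ‖op a κ 1 q.1 Ft q.2‖ₑ)
    (fun m q => ‖op a κ 1 q.1 (Dd m) q.2‖ₑ) (hpb_meas_op a ha κ Fz mz)
    (fun m => hpb_meas_op a ha κ (Dd m) (mD m)) hpt (Cz * ENNReal.ofReal R)
    (Cd * ENNReal.ofReal (4 * (T ^ (-e) * R))) (Ct * ENNReal.ofReal R) ?_ ?_ ?_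
  · refine hfin.trans ?_
    have h1 : (M : ℝ≥0∞) ^ p ≤ ENNReal.ofReal (K * T ^ e) := by
      have h2 := hK T M p hT hM1 hM3 hp4.le
      have h3 : (M : ℝ≥0∞) = ENNReal.ofReal (M : ℝ) := by simp
      rw [h3, ENNReal.ofReal_rpow_of_nonneg (by positivity) (by linarith)]
      exact ENNReal.ofReal_le_ofReal h2
    have h4 : ENNReal.ofReal (K * T ^ e) * (Cd * ENNReal.ofReal (4 * (T ^ (-e) * R))) =
        ENNReal.ofReal K * (Cd * 4) * ENNReal.ofReal R := by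
      have h5 : K * T ^ e * (4 * (T ^ (-e) * R)) = K * 4 * R := by
        have h6 : T ^ e * T ^ (-e) = 1 := by
          rw [← Real.rpow_add hT0, add_neg_cancel, Real.rpow_zero]
        calc K * T ^ e * (4 * (T ^ (-e) * R)) = K * 4 * R * (T ^ e * T ^ (-e)) := by ring
          _ = K * 4 * R := by rw [h6, mul_one]
      calc ENNReal.ofReal (K * T ^ e) * (Cd * ENNReal.ofReal (4 * (T ^ (-e) * R)))
          = Cd * (ENNReal.ofReal (K * T ^ e) * ENNReal.ofReal (4 * (T ^ (-e) * R))) := by ring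
        _ = Cd * ENNReal.ofReal (K * 4 * R) := by
            rw [← ENNReal.ofReal_mul (by positivity), h5]
        _ = ENNReal.ofReal K * (Cd * 4) * ENNReal.ofReal R := by
            rw [ENNReal.ofReal_mul (by positivity), ENNReal.ofReal_mul hK0.le,
              ENNReal.ofReal_ofNat]
            ring
    calc 3 ^ p * (Cz * ENNReal.ofReal R + (M : ℝ≥0∞) ^ p *
          (Cd * ENNReal.ofReal (4 * (T ^ (-e) * R))) + Ct * ENNReal.ofReal R)
        ≤ 3 ^ p * (Cz * ENNReal.ofReal R + ENNReal.ofReal (K * T ^ e) *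
          (Cd * ENNReal.ofReal (4 * (T ^ (-e) * R))) + Ct * ENNReal.ofReal R) := by gcongr
      _ = _ := by
          rw [h4]
          ring
  · rw [← hsh_prod a ha κ Fz mz]
    exact (hz κ T hκ hκ1 hT b c G hG hGb).trans
      (mul_le_mul' le_rfl (ENNReal.ofReal_le_ofReal bz))
  · intro m hm
    rw [← hsh_prod a ha κ (Dd m) (mD m)]
    exact (hd κ T (H (m + 1)) hκ hκ1 hT (hH0 _) (hHle _) (hHlt _) b c G hG hGb hRV).trans
      (mul_le_mul' le_rfl (ENNReal.ofReal_le_ofReal (bd m hm)))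
  · rw [← hsh_prod a ha κ Ft mt]
    have hHM1 : H M < 1 := by
      obtain ⟨m, rfl⟩ : ∃ m, M = m + 1 := ⟨M - 1, by omega⟩
      exact hHlt m
    exact (ht κ T (H M) hκ hκ1 hT (hH0 _) (hHle _) hHM1 b c G hG hGb hRV).trans
      (mul_le_mul' le_rfl (ENNReal.ofReal_le_ofReal bt'))

end Pool.Agent.MSV
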